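import Pool.Agent.K1H73.LS.PatL
import Pool.Agent.K1H73.RDW.AP

set_option autoImplicit false

/-!
# Linear forms on the terms of an arithmetic progression
-/

namespace Pool.Agent.K1H73.LS

open Finset Filter Polynomial
open Pool.Agent.R490.LZ
open Pool.Agent.K1H73.RDW

variable {T : Finset (ℤ × ℤ)} {q b : ℕ}

/-- the product of the forms -/
def GT (T : Finset (ℤ × ℤ)) (n : ℕ) : ℤ := ∏ f ∈ T, (f.1 * n + f.2)

lemma dvd_GT {p : ℕ} (hp : p.Prime) (n : ℕ) : (p : ℤ) ∣ GT T n ↔ ∃ f ∈ T, (p : ℤ) ∣ f.1 * n + f.2 := by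
  unfold GT
  exact (Nat.prime_iff_prime_int.1 hp).dvd_finsetProd_iff _

lemma PF_GT (T : Finset (ℤ × ℤ)) : PF T.card (GT T) := by
  refine ⟨∏ f ∈ T, (C f.1 * X + C f.2), ?_, fun n => ?_⟩
  · refine (natDegree_prod_le _ _).trans ?_
    refine (Finset.sum_le_card_nsmul T _ 1 (fun f _ => natDegree_linear_le)).trans ?_
    rw [smul_eq_mul, mul_one]
  · unfold GT
    rw [eval_prod]
    simp only [eval_add, eval_mul, eval_X, eval_C]

lemma sb_dvd (p m : ℕ) : (∃ f ∈ sb q b T, (p : ℤ) ∣ f.1 * m + f.2) ↔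
    ∃ f ∈ T, (p : ℤ) ∣ f.1 * ((q * m + b : ℕ) : ℤ) + f.2 := by
  have e : ∀ f : ℤ × ℤ, f.1 * (q : ℤ) * (m : ℤ) + (f.1 * (b : ℤ) + f.2) = f.1 * ((q * m + b : ℕ) : ℤ) + f.2 := by
    intro f
    push_cast
    ring
  constructor
  · rintro ⟨l, hl, hd⟩
    obtain ⟨f, hf, rfl⟩ := mem_image.1 hl
    refine ⟨f, hf, ?_⟩
    rw [← e]
    exact hd
  · rintro ⟨f, hf, hd⟩
    refine ⟨_, mem_image_of_mem _ hf, ?_⟩
    show (p : ℤ) ∣ f.1 * (q : ℤ) * (m : ℤ) + (f.1 * (b : ℤ) + f.2)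
    rw [e]
    exact hd

lemma sb_dvd' {p : ℕ} (hp : p.Prime) (m : ℕ) : (∃ f ∈ sb q b T, (p : ℤ) ∣ f.1 * m + f.2) ↔
    (p : ℤ) ∣ GT T (b + q * m) := by
  rw [sb_dvd, dvd_GT hp, add_comm b]

open Classical in
/-- the number of the classes with a zero -/
lemma sb_nu {p : ℕ} (hp : p.Prime) (hco : p ∣ q → ∀ f ∈ T, ¬ (p : ℤ) ∣ f.1 * b + f.2) :
    ((Finset.range p).filter (fun m : ℕ => ∃ f ∈ sb q b T, (p : ℤ) ∣ f.1 * m + f.2)).card =
      if p ∣ q then 0 else om (GT T) p := by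
  have e : (Finset.range p).filter (fun m : ℕ => ∃ f ∈ sb q b T, (p : ℤ) ∣ f.1 * m + f.2) =
      (Finset.range p).filter (fun m : ℕ => (p : ℤ) ∣ GT T (b + q * m)) := by
    apply Finset.filter_congr
    intro m _
    exact sb_dvd' hp m
  have hPF := PF_GT T
  have e2 : ((Finset.range p).filter (fun m : ℕ => (p : ℤ) ∣ GT T (b + q * m))).card =
      om (fun m => GT T (b + q * m)) p := by
    unfold om
    congr!
  rw [e, e2]
  split_ifs with hpq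
  · apply om_affine' hPF hpq
    intro hd
    rw [dvd_GT hp] at hd
    obtain ⟨f, hf, hd⟩ := hd
    exact hco hpq f hf hd
  · rw [om_affine hPF b hp hpq]

/-- the number of the admissible classes -/
lemma Cw_sb {l : ℕ} (hl : l.Prime) (hco : l ∣ q → ∀ f ∈ T, ¬ (l : ℤ) ∣ f.1 * b + f.2) :
    (Cw (sb q b T) l).card + (if l ∣ q then 0 else om (GT T) l) = l := by
  have h := Cw_card' (sb q b T) hl
  rw [sb_nu hl hco] at h
  exact h

/-- the conditions for the forms in the progression -/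
theorem good_sb {N N' : ℕ} (hq : 1 ≤ q) (hqN : q ≤ N) (hbN : b ≤ N) (hT1 : ∀ f ∈ T, 1 ≤ f.1)
    (hT2 : ∀ f ∈ T, f.1 ≤ N) (hT3 : ∀ f ∈ T, |f.2| ≤ N)
    (hadm : ∀ p : ℕ, p.Prime → ∃ n : ℕ, ∀ f ∈ T, ¬ (p : ℤ) ∣ f.1 * n + f.2)
    (hco : ∀ p : ℕ, p.Prime → p ∣ q → ∀ f ∈ T, ¬ (p : ℤ) ∣ f.1 * b + f.2) (hN' : N * N + N ≤ N') :
    Good N' (sb q b T) := by
  have hqZ : (1 : ℤ) ≤ q := by exact_mod_cast hq
  have hqN' : (q : ℤ) ≤ N := by exact_mod_cast hqN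
  have hbZ : (0 : ℤ) ≤ b := Nat.cast_nonneg _
  have hbN' : (b : ℤ) ≤ N := by exact_mod_cast hbN
  have hNZ : (0 : ℤ) ≤ N := Nat.cast_nonneg _
  have hN'' : (N : ℤ) * N + N ≤ N' := by exact_mod_cast hN'
  refine ⟨?_, ?_, ?_, ?_⟩
  · intro l hl
    obtain ⟨f, hf, rfl⟩ := mem_image.1 hl
    show (1 : ℤ) ≤ f.1 * q
    have := hT1 f hf
    nlinarith
  · intro l hl
    obtain ⟨f, hf, rfl⟩ := mem_image.1 hl
    show f.1 * (q : ℤ) ≤ N'
    have h1 := hT1 f hf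
    have h2 := hT2 f hf
    have : f.1 * (q : ℤ) ≤ N * N := mul_le_mul h2 hqN' (by linarith) hNZ
    linarith
  · intro l hl
    obtain ⟨f, hf, rfl⟩ := mem_image.1 hl
    show |f.1 * (b : ℤ) + f.2| ≤ N'
    have h1 := hT1 f hf
    have h2 := hT2 f hf
    have h3 := hT3 f hf
    have h4 : f.1 * (b : ℤ) ≤ N * N := mul_le_mul h2 hbN' hbZ hNZ
    have h5 : 0 ≤ f.1 * (b : ℤ) := mul_nonneg (by linarith) hbZ
    calc |f.1 * (b : ℤ) + f.2| ≤ |f.1 * (b : ℤ)| + |f.2| := abs_add_le _ _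
      _ = f.1 * (b : ℤ) + |f.2| := by rw [abs_of_nonneg h5]
      _ ≤ N' := by linarith
  · intro p hp
    by_cases hpq : p ∣ q
    · refine ⟨0, ?_⟩
      intro l hl hd
      obtain ⟨f, hf, h⟩ := (sb_dvd (q := q) (b := b) (T := T) p 0).1 ⟨l, hl, hd⟩
      rw [mul_zero, zero_add] at h
      exact hco p hp hpq f hf h
    · obtain ⟨n0, hn0⟩ := hadm p hp
      have hcop : IsCoprime (q : ℤ) (p : ℤ) :=
        Nat.isCoprime_iff_coprime.2 ((Nat.Prime.coprime_iff_not_dvd hp).2 hpq).symm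
      obtain ⟨x, z, hxz⟩ := hcop
      have hpZ : (0 : ℤ) < p := by exact_mod_cast hp.pos
      refine ⟨((x * (n0 - b)) % p).toNat, ?_⟩
      intro l hl hd
      obtain ⟨f, hf, h⟩ := (sb_dvd (q := q) (b := b) (T := T) p _).1 ⟨l, hl, hd⟩
      apply hn0 f hf
      have h0 : 0 ≤ (x * ((n0 : ℤ) - b)) % p := Int.emod_nonneg _ hpZ.ne'
      have h3 : (p : ℤ) ∣ (x * ((n0 : ℤ) - b)) - (x * ((n0 : ℤ) - b)) % p := Int.dvd_self_sub_emod
      obtain ⟨y, hy⟩ := h3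
      have h4 : (((x * ((n0 : ℤ) - b)) % p).toNat : ℤ) = x * ((n0 : ℤ) - b) - p * y := by
        rw [Int.toNat_of_nonneg h0]
        linarith
      push_cast [h4] at h
      have e : f.1 * ((q : ℤ) * (x * ((n0 : ℤ) - b) - p * y) + b) + f.2 =
          (f.1 * n0 + f.2) - p * (f.1 * q * y + f.1 * z * ((n0 : ℤ) - b)) := by
        have h5 : (q : ℤ) * x = 1 - z * p := by linarith
        have h6 : (q : ℤ) * (x * ((n0 : ℤ) - b)) = (q * x) * ((n0 : ℤ) - b) := by ring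
        rw [mul_sub (q : ℤ), h6, h5]
        ring
      rw [e] at h
      exact (dvd_sub_left (dvd_mul_right _ _)).1 h

/-- no translates when the slopes are different -/
theorem noT_sb (hq : 1 ≤ q) (hT1 : ∀ f ∈ T, 1 ≤ f.1) (hinj : ∀ f ∈ T, ∀ g ∈ T, f.1 = g.1 → f = g) (U : ℝ) :
    NoT (sb q b T) U := by
  have hqZ : (1 : ℤ) ≤ q := by exact_mod_cast hq
  intro l hl l' hl' t ht _ h1 h2
  obtain ⟨f, hf, rfl⟩ := mem_image.1 hl
  obtain ⟨g, hg, rfl⟩ := mem_image.1 hl'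
  have h1' : f.1 * (q : ℤ) = g.1 * q := h1
  have h3 : f.1 = g.1 := mul_right_cancel₀ (by linarith) h1'
  have h4 := hinj f hf g hg h3
  subst h4
  have h2' : f.1 * (b : ℤ) + f.2 = f.1 * b + f.2 + f.1 * q * t := h2
  have h5 : (1 : ℤ) ≤ t := by exact_mod_cast ht
  have h6 := hT1 f hf
  have h7 : (0 : ℤ) < f.1 * q * t := by positivity
  linarith

end Pool.Agent.K1H73.LS
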