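import Pool.Agent.K1H73.LS.AP
import Pool.Agent.R463.EX10

set_option autoImplicit false

/-!
# The exact positions of the sifted integers in short blocks, for linear forms depending on `X`
-/

namespace Pool.Agent.K1H73.LS

open Finset Filter Polynomial
open Pool.Agent.R490.LZ Pool.Agent.W123.RP Pool.Agent.H373R2.T7 Pool.Agent.W123.RU Pool.Agent.W123.RU.Poly
open Pool.Agent.TH464.PO Pool.Agent.Y879.GL Pool.Agent.R463.PS Pool.Agent.R463.EX Pool.Agent.R463.PP

/-- the two notions of a system -/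
lemma us_system {k D : ℕ} {H U : ℝ} {f : Fin k → ℤ[X]} (h : US k D H U f) : System D H U f where
  irr := h.irr
  deg := fun i => ⟨by have := h.deg i; omega, h.degD i⟩
  hgt := h.hgt
  adm := h.adm
  tr := fun i j t ht htU => by
    have h1 := h.tr i j t ht htU
    refine ⟨fun h2 => h1 ?_, fun h2 => h1 ?_⟩
    · rw [h2]
    · rw [h2]
      exact (Associated.refl _).neg_left

open Classical in
/-- the number of the residues `m` modulo `p` for which `p` divides a value of a form at `m + h`, `h ∈ J` -/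
noncomputable def nuJ (L : Finset (ℤ × ℤ)) (J : Finset ℕ) (p : ℕ) : ℕ :=
  ((Finset.range p).filter (fun m : ℕ => ∃ h ∈ J, ∃ l ∈ L, (p : ℤ) ∣ l.1 * ((m + h : ℕ) : ℤ) + l.2)).card

/-- the density of the pattern `J` -/
noncomputable def DeJ (L : Finset (ℤ × ℤ)) (J : Finset ℕ) (y : ℕ) : ℝ :=
  ∏ p ∈ (Finset.range (y + 1)).filter Nat.Prime, (1 - (nuJ L J p : ℝ) / p)

open Classical in
/-- the number of the `n` in `(u, u + Y]` for which the sifted integers in `[n, n + T]` are exactly the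
`n + h`, `h ∈ J` -/
noncomputable def exL (L : Finset (ℤ × ℤ)) (J : Finset ℕ) (T y u Y : ℕ) : ℕ :=
  ((Ioc u (u + Y)).filter (fun n => ∀ h ≤ T, Ro L y (n + h) ↔ h ∈ J)).card

variable {L : Finset (ℤ × ℤ)} {k : ℕ}

open Classical in
lemma sys_VJ (hk : L.card = k) (J : Finset ℕ) (y : ℕ) : Vq (QH (Q (sys L k hk)) J) y = DeJ L J y := by
  unfold Vq DeJ
  rw [Pool.Agent.R490.Sg.pz_eq]
  apply Finset.prod_congr rfl
  intro p _
  unfold nuB nuJ QH
  simp only [sys_Q hk]

open Classical in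
/-- **The exact positions of the sifted integers in short blocks**, uniformly in the sets of linear forms. -/
theorem blkL (k A K : ℕ) (hk2 : 2 ≤ k) (δ' θ : ℝ) (hδ' : 0 < δ') (hθ : 0 < θ) (x0 ε : ℝ) (hε : 0 < ε) :
    ∃ r0 : ℕ, ∀ r : ℕ, r0 ≤ r → ∀ᶠ X : ℕ in atTop, ∀ L : Finset (ℤ × ℤ), L.card = k →
      Good (X ^ A) L → NoT L ((X : ℝ) ^ δ') → ∀ y : ℕ, y = ⌊(X : ℝ) ^ (1 / (r : ℝ))⌋₊ →
      ∀ u Y : ℕ, (X : ℝ) ^ θ ≤ Y → ∀ J : Finset ℕ, J.card ≤ K → 0 ∈ J → ∀ T : ℕ, (∀ h ∈ J, h ≤ T) →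
        T * De L y ≤ x0 →
        |(exL L J T y u Y : ℝ) - Y * DeJ L J y * Real.exp (-(T * De L y))| ≤
          ε * (Y * DeJ L J y * Real.exp (-(T * De L y))) := by
  obtain ⟨r0, h0⟩ := blocks' k 1 K ((A : ℝ) + 1) δ' θ x0 ε (by positivity) hδ' hθ hε
  refine ⟨max r0 2, fun r hr => ?_⟩
  have hr2 : 2 ≤ r := (le_max_right _ _).trans hr
  obtain ⟨M, hM, hup⟩ := V_up A r hr2
  filter_upwards [h0 r ((le_max_left _ _).trans hr) M, hup, eventually_ge_atTop 1] with X hX hup hX1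
  intro L hL hG hn y hy u Y hY J hJK hJ0 T hJT hT
  have e1 : V (sys L k hL) X r = De L y := by rw [Pool.Agent.R463.PS.V_eq, ← hy, sys_V]
  have e2 : VH (sys L k hL) J X r = DeJ L J y := by rw [VH_eq, ← hy, sys_VJ]
  have e3 : exS (sys L k hL) J T X r u Y = exL L J T y u Y := by
    unfold exS exL
    congr 1
    apply Finset.filter_congr
    intro n _
    have : ∀ m, Sifted (sys L k hL) X r m ↔ Ro L y m := by
      intro m
      rw [sf_iff, ← hy, sys_Sf]
    simp only [this]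
  have h := hX (sys L k hL) (us_system (us_up hX1 (hG.us hn hL))) (by
    rw [e1, hy]
    exact hup L (by omega) hG) u Y hY J hJK hJ0 T hJT (by rw [e1]; exact hT)
  rw [e1, e2, e3] at h
  exact h

end Pool.Agent.K1H73.LS
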