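import Pool.Agent.K1H73.LS.PatF
import Pool.Agent.K1H73.LS.Blk

set_option autoImplicit false

/-!
# The exact positions of the sifted integers in short blocks, for a fixed system in progressions
-/

namespace Pool.Agent.K1H73.LS

open Polynomial Finset Filter
open Pool.Agent.K1H73.RDW
open Pool.Agent.W123.RP Pool.Agent.H373R2.T7 Pool.Agent.W123.RU Pool.Agent.W123.RU.Poly
open Pool.Agent.TH464.PW Pool.Agent.TH464.PO Pool.Agent.Y879.GL Pool.Agent.R463.EX Pool.Agent.R463.PP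

open Classical in
/-- **The exact positions of the sifted integers in short blocks** for a fixed system in progressions. -/
theorem blkF {k : ℕ} (f : Fin k → ℤ[X]) (hf : Sys f) (hk : 2 ≤ k)
    (htr : ∀ i j, ∀ t : ℕ, 1 ≤ t → ¬ Associated (f i) ((f j).comp (X + C (t : ℤ)))) (C' K : ℕ)
    (θ : ℝ) (hθ : 0 < θ) (x0 ε : ℝ) (hε : 0 < ε) :
    ∃ r0 : ℕ, ∀ r : ℕ, r0 ≤ r → ∀ᶠ X : ℕ in atTop, ∀ y : ℕ, y = ⌊(X : ℝ) ^ (1 / (r : ℝ))⌋₊ →
      ∀ q b : ℕ, 1 ≤ q → q ≤ X ^ C' → b ≤ X ^ C' → IsCoprime (GS f b) (q : ℤ) →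
      ∀ u Y : ℕ, (X : ℝ) ^ θ ≤ Y → ∀ J : Finset ℕ, J.card ≤ K → 0 ∈ J → ∀ T : ℕ, (∀ h ∈ J, h ≤ T) →
        T * Vq (Q (sq q b f)) y ≤ x0 →
        |(((Ioc u (u + Y)).filter (fun n => ∀ h ≤ T, Sf (Q (sq q b f)) y (n + h) ↔ h ∈ J)).card : ℝ) -
            Y * Vq (QH (Q (sq q b f)) J) y * Real.exp (-(T * Vq (Q (sq q b f)) y))| ≤
          ε * (Y * Vq (QH (Q (sq q b f)) J) y * Real.exp (-(T * Vq (Q (sq q b f)) y))) := by
  obtain ⟨D, E, hE, hus⟩ := us_prog f hf htr C'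
  obtain ⟨r0, h0⟩ := Pool.Agent.R463.PS.blocks' k D K (E : ℝ) 1 θ x0 ε (by exact_mod_cast hE) one_pos hθ hε
  refine ⟨max r0 1, fun r hr => ?_⟩
  obtain ⟨M, hM, hV⟩ := V_prog f hf hk C' r ((le_max_right _ _).trans hr)
  filter_upwards [h0 r ((le_max_left _ _).trans hr) M, hV, hus] with X h1 h2 h3
  intro y hy q b hq1 hqX hbX hco u Y hY J hJK hJ0 T hJT hT
  have e1 : Pool.Agent.R463.PS.V (sq q b f) X r = Vq (Q (sq q b f)) y := by
    rw [Pool.Agent.R463.PS.V_eq, ← hy]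
  have e2 : Pool.Agent.R463.PS.VH (sq q b f) J X r = Vq (QH (Q (sq q b f)) J) y := by
    rw [Pool.Agent.R463.PS.VH_eq, ← hy]
  have e3 : Pool.Agent.R463.PS.exS (sq q b f) J T X r u Y =
      ((Ioc u (u + Y)).filter (fun n => ∀ h ≤ T, Sf (Q (sq q b f)) y (n + h) ↔ h ∈ J)).card := by
    unfold Pool.Agent.R463.PS.exS
    congr 1
    apply Finset.filter_congr
    intro n _
    have : ∀ m, Pool.Agent.R463.PS.Sifted (sq q b f) X r m ↔ Sf (Q (sq q b f)) y m := by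
      intro m
      rw [Pool.Agent.R463.PS.sf_iff, ← hy]
    simp only [this]
  have h := h1 (sq q b f) (us_system (h3 _ q b hq1 hqX hbX hco)) (by
    rw [e1, hy]
    exact h2 q b hq1 hqX hco) u Y hY J hJK hJ0 T hJT (by rw [e1]; exact hT)
  rw [e1, e2, e3] at h
  exact h

end Pool.Agent.K1H73.LS
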