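import Mathlib

set_option autoImplicit false

/-!
# The zeros of `x (x ^ 2 + x + 1)` modulo a prime
-/

namespace Pool.Agent.K1H73.LS

open Finset

open Classical in
lemma card_range_zmod (l : ℕ) [Fact l.Prime] (F : ℕ → ℕ) (G : ZMod l → ZMod l)
    (h : ∀ x : ℕ, ((F x : ℕ) : ZMod l) = G (x : ZMod l)) :
    ((range l).filter (fun x => l ∣ F x)).card = (Finset.univ.filter (fun x : ZMod l => G x = 0)).card := by
  apply Finset.card_bij (fun (x : ℕ) (_ : x ∈ (range l).filter (fun x => l ∣ F x)) => (x : ZMod l))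
  · intro x hx
    rw [mem_filter] at hx
    rw [mem_filter]
    refine ⟨mem_univ _, ?_⟩
    rw [← h]
    exact (ZMod.natCast_eq_zero_iff _ _).2 hx.2
  · intro x hx y hy hxy
    rw [mem_filter, mem_range] at hx hy
    have h1 := (ZMod.natCast_eq_natCast_iff' x y l).1 hxy
    rwa [Nat.mod_eq_of_lt hx.1, Nat.mod_eq_of_lt hy.1] at h1
  · intro x hx
    rw [mem_filter] at hx
    refine ⟨x.val, ?_, ?_⟩
    · rw [mem_filter, mem_range]
      refine ⟨ZMod.val_lt x, ?_⟩
      rw [← ZMod.natCast_eq_zero_iff, h, ZMod.natCast_zmod_val]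
      exact hx.2
    · exact ZMod.natCast_zmod_val x

/-- the number of the zeros of `x (x ^ 2 + x + 1)` modulo a prime -/
theorem rho3 {l : ℕ} (hl : l.Prime) : ((range l).filter (fun x => l ∣ x * (x ^ 2 + x + 1))).card =
    if l % 3 = 1 then 3 else if l % 3 = 2 then 1 else 2 := by
  by_cases h3 : l = 3
  · subst h3
    decide
  classical
  haveI : Fact l.Prime := ⟨hl⟩
  rw [card_range_zmod l (fun x => x * (x ^ 2 + x + 1)) (fun x => x * (x ^ 2 + x + 1)) (fun x => by push_cast; ring)]
  have h30 : l % 3 ≠ 0 := by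
    intro h
    have := (Nat.prime_dvd_prime_iff_eq Nat.prime_three hl).1 (Nat.dvd_of_mod_eq_zero h)
    exact h3 this.symm
  have h3ne : (3 : ZMod l) ≠ 0 := by
    intro h
    have h1 : ((3 : ℕ) : ZMod l) = 0 := by exact_mod_cast h
    rw [ZMod.natCast_eq_zero_iff] at h1
    exact h3 ((Nat.prime_dvd_prime_iff_eq hl Nat.prime_three).1 h1)
  have hcube : ∀ x : ZMod l, x ^ 2 + x + 1 = 0 → x ^ 3 = 1 := by
    intro x hx
    have : x ^ 3 - 1 = (x - 1) * (x ^ 2 + x + 1) := by ring
    rw [hx, mul_zero] at this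
    exact sub_eq_zero.1 this
  by_cases h1 : l % 3 = 1
  · rw [if_pos h1]
    have hcard : 3 ∣ Fintype.card (ZMod l)ˣ := by
      rw [ZMod.card_units_eq_totient, Nat.totient_prime hl]
      omega
    obtain ⟨ω, hω⟩ := exists_prime_orderOf_dvd_card 3 hcard
    obtain ⟨w, hw⟩ : ∃ w : ZMod l, w = (ω : ZMod l) := ⟨_, rfl⟩
    have hw3 : w ^ 3 = 1 := by
      have := pow_orderOf_eq_one ω
      rw [hω] at this
      rw [hw, ← Units.val_pow_eq_pow_val, this, Units.val_one]
    have hw1 : w ≠ 1 := by
      intro h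
      have : ω = 1 := Units.ext (by rw [← hw, h]; rfl)
      rw [this, orderOf_one] at hω
      norm_num at hω
    have hwz : w ^ 2 + w + 1 = 0 := by
      have h4 : (w - 1) * (w ^ 2 + w + 1) = 0 := by
        have : (w - 1) * (w ^ 2 + w + 1) = w ^ 3 - 1 := by ring
        rw [this, hw3, sub_self]
      rcases mul_eq_zero.1 h4 with h5 | h5
      · exact absurd (sub_eq_zero.1 h5) hw1
      · exact h5
    have hw0 : w ≠ 0 := by
      rintro h
      rw [h] at hwz
      norm_num at hwz
    have e : Finset.univ.filter (fun x : ZMod l => x * (x ^ 2 + x + 1) = 0) = {0, w, w ^ 2} := by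
      ext x
      rw [mem_filter, mem_insert, mem_insert, mem_singleton]
      constructor
      · rintro ⟨_, h4⟩
        rcases mul_eq_zero.1 h4 with h5 | h5
        · exact Or.inl h5
        · right
          have h6 : (x - w) * (x - w ^ 2) = 0 := by
            have h7 : (x - w) * (x - w ^ 2) = (x ^ 2 + x + 1) - x * (w ^ 2 + w + 1) + (w ^ 3 - 1) := by ring
            rw [h7, h5, hwz, hw3]
            ring
          rcases mul_eq_zero.1 h6 with h7 | h7
          · exact Or.inl (sub_eq_zero.1 h7)
          · exact Or.inr (sub_eq_zero.1 h7)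
      · rintro (rfl | rfl | rfl)
        · exact ⟨mem_univ _, by ring⟩
        · refine ⟨mem_univ _, ?_⟩
          rw [hwz, mul_zero]
        · refine ⟨mem_univ _, ?_⟩
          have h7 : (w ^ 2) ^ 2 + w ^ 2 + 1 = (w ^ 2 + w + 1) + w * (w ^ 3 - 1) := by ring
          rw [h7, hwz, hw3]
          ring
    rw [e, card_insert_of_notMem, card_insert_of_notMem, card_singleton]
    · rw [mem_singleton]
      intro h
      apply hw1
      have : w * (w - 1) = 0 := by
        have h8 : w * (w - 1) = w ^ 2 - w := by ring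
        rw [h8, ← h, sub_self]
      rcases mul_eq_zero.1 this with h9 | h9
      · exact absurd h9 hw0
      · exact sub_eq_zero.1 h9
    · rw [mem_insert, mem_singleton]
      rintro (h | h)
      · exact hw0 h.symm
      · exact hw0 (pow_eq_zero_iff (two_ne_zero) |>.1 h.symm)
  · have h2 : l % 3 = 2 := by omega
    rw [if_neg h1, if_pos h2]
    have e : Finset.univ.filter (fun x : ZMod l => x * (x ^ 2 + x + 1) = 0) = {0} := by
      ext x
      rw [mem_filter, mem_singleton]
      constructor
      · rintro ⟨_, h4⟩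
        rcases mul_eq_zero.1 h4 with h5 | h5
        · exact h5
        · exfalso
          have hx3 := hcube x h5
          have hx0 : x ≠ 0 := by
            rintro rfl
            norm_num at h5
          have hf : x ^ (l - 1) = 1 := ZMod.pow_card_sub_one_eq_one hx0
          -- `l - 1 = 3 t + 1`
          obtain ⟨t, ht⟩ : ∃ t, l - 1 = 3 * t + 1 := ⟨l / 3, by omega⟩
          rw [ht, pow_succ, pow_mul, hx3, one_pow, one_mul] at hf
          rw [hf] at h5
          apply h3ne
          have : (3 : ZMod l) = 1 ^ 2 + 1 + 1 := by norm_num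
          rw [this, h5]
      · rintro rfl
        exact ⟨mem_univ _, by ring⟩
    rw [e, card_singleton]

end Pool.Agent.K1H73.LS
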