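import Pool.Agent.R490.LZ

set_option autoImplicit false

/-!
# Linear forms whose zeros leave only one class modulo some small primes
-/

namespace Pool.Agent.K1H73.LS

open Finset Filter
open Pool.Agent.R490.LZ

/-- the forms on the class `c` modulo `w` -/
def sb (w c : ℕ) (L : Finset (ℤ × ℤ)) : Finset (ℤ × ℤ) := L.image (fun l => (l.1 * w, l.1 * c + l.2))

/-- modulo the primes which divide `w`, `c` is the only class without zeros of the forms -/
structure One (L : Finset (ℤ × ℤ)) (w c : ℕ) : Prop where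
  sq : Squarefree w
  lt : c < w
  ok : ∀ p : ℕ, p.Prime → p ∣ w → ∀ l ∈ L, ¬ (p : ℤ) ∣ l.1 * c + l.2
  only : ∀ p : ℕ, p.Prime → p ∣ w → ∀ m : ℕ, (∀ l ∈ L, ¬ (p : ℤ) ∣ l.1 * m + l.2) → (p : ℤ) ∣ (m : ℤ) - c

variable {L : Finset (ℤ × ℤ)} {w c : ℕ}

lemma One.wpos (h : One L w c) : 0 < w := lt_of_le_of_lt (Nat.zero_le _) h.lt

lemma One.cls (h : One L w c) {y m : ℕ} (hy : w ≤ y) (hm : Ro L y m) : m % w = c := by
  have h3 : w ∣ ((m : ℤ) - c).natAbs := by
    have h2 : ∏ p ∈ w.primeFactors, p = w := Nat.prod_primeFactors_of_squarefree h.sq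
    rw [← h2]
    apply Finset.prod_primes_dvd
    · intro p hp
      exact (Nat.prime_of_mem_primeFactors hp).prime
    · intro p hp
      have hpp := Nat.prime_of_mem_primeFactors hp
      have hpw := Nat.dvd_of_mem_primeFactors hp
      exact Int.natCast_dvd.1 (h.only p hpp hpw m
        (fun l hl => hm p hpp ((Nat.le_of_dvd h.wpos hpw).trans hy) l hl))
  have h4 : (c : ℤ) ≡ (m : ℤ) [ZMOD (w : ℤ)] := Int.modEq_iff_dvd.2 (Int.natCast_dvd.2 h3)
  have h5 : c ≡ m [MOD w] := Int.natCast_modEq_iff.1 h4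
  have h6 : c % w = m % w := h5
  rw [← h6, Nat.mod_eq_of_lt h.lt]

lemma ro_sb (y x : ℕ) : Ro (sb w c L) y x ↔ Ro L y (w * x + c) := by
  unfold Ro sb
  constructor
  · intro h p hp hpy l hl hd
    apply h p hp hpy _ (mem_image_of_mem _ hl)
    have e : l.1 * (w : ℤ) * (x : ℤ) + (l.1 * (c : ℤ) + l.2) = l.1 * ((w * x + c : ℕ) : ℤ) + l.2 := by
      push_cast
      ring
    show (p : ℤ) ∣ l.1 * (w : ℤ) * (x : ℤ) + (l.1 * (c : ℤ) + l.2)
    rw [e]
    exact hd
  · intro h p hp hpy l hl hd
    rw [mem_image] at hl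
    obtain ⟨l', hl', rfl⟩ := hl
    apply h p hp hpy _ hl'
    have e : l'.1 * (w : ℤ) * (x : ℤ) + (l'.1 * (c : ℤ) + l'.2) = l'.1 * ((w * x + c : ℕ) : ℤ) + l'.2 := by
      push_cast
      ring
    rw [← e]
    exact hd

lemma One.ro_iff (h : One L w c) {y : ℕ} (hy : w ≤ y) (m : ℕ) :
    Ro L y m ↔ m % w = c ∧ Ro (sb w c L) y (m / w) := by
  constructor
  · intro hm
    have h1 := h.cls hy hm
    refine ⟨h1, ?_⟩
    rw [ro_sb]
    have h2 : w * (m / w) + c = m := by
      have := Nat.div_add_mod m w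
      omega
    rw [h2]
    exact hm
  · rintro ⟨h1, h2⟩
    rw [ro_sb] at h2
    have h3 : w * (m / w) + c = m := by
      have := Nat.div_add_mod m w
      omega
    rwa [h3] at h2

lemma div_of (hc : c < w) (x : ℕ) : (w * x + c) / w = x ∧ (w * x + c) % w = c := by
  have hw : 0 < w := by omega
  constructor
  · rw [Nat.mul_add_div hw, Nat.div_eq_of_lt hc, add_zero]
  · rw [Nat.mul_add_mod, Nat.mod_eq_of_lt hc]

open Classical in
/-- the number of the predecessors -/
lemma One.pred (h : One L w c) {y : ℕ} (hy : w ≤ y) (x T : ℕ) :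
    ((Ico (w * x + c - T) (w * x + c)).filter (fun m => Ro L y m)).card =
      ((Ico (x - T / w) x).filter (fun m => Ro (sb w c L) y m)).card := by
  have hw := h.wpos
  have e : (Ico (w * x + c - T) (w * x + c)).filter (fun m => Ro L y m) =
      ((Ico (x - T / w) x).filter (fun m => Ro (sb w c L) y m)).image (fun x' => w * x' + c) := by
    ext m
    rw [mem_filter, mem_Ico, mem_image]
    constructor
    · rintro ⟨⟨h1, h2⟩, h3⟩
      obtain ⟨h4, h5⟩ := (h.ro_iff hy m).1 h3
      have h6 : w * (m / w) + c = m := by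
        have := Nat.div_add_mod m w
        omega
      refine ⟨m / w, ?_, h6⟩
      rw [mem_filter, mem_Ico]
      refine ⟨⟨?_, ?_⟩, h5⟩
      · rw [tsub_le_iff_right]
        have h7 : w * (x - m / w) ≤ T := by
          rw [Nat.mul_sub]
          omega
        have h8 : x - m / w ≤ T / w := (Nat.le_div_iff_mul_le hw).2 (by rw [mul_comm]; exact h7)
        omega
      · have h7 : w * (m / w) < w * x := by omega
        exact lt_of_mul_lt_mul_left h7 (Nat.zero_le _)
    · rintro ⟨x', hx', rfl⟩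
      rw [mem_filter, mem_Ico] at hx'
      obtain ⟨⟨h1, h2⟩, h3⟩ := hx'
      refine ⟨⟨?_, ?_⟩, (ro_sb _ _).1 h3⟩
      · rw [tsub_le_iff_right] at h1 ⊢
        have h4 : w * x ≤ w * (x' + T / w) := Nat.mul_le_mul_left _ h1
        have h5 : w * (T / w) ≤ T := Nat.mul_div_le _ _
        rw [Nat.mul_add] at h4
        omega
      · have := Nat.mul_lt_mul_of_pos_left h2 hw
        omega
  rw [e, card_image_of_injective]
  intro a b hab
  have h1 : w * a = w * b := by simpa using hab
  exact Nat.eq_of_mul_eq_mul_left hw h1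

open Classical in
/-- the number of the successors -/
lemma One.succ (h : One L w c) {y : ℕ} (hy : w ≤ y) (x T : ℕ) :
    ((Ioc (w * x + c) (w * x + c + T)).filter (fun m => Ro L y m)).card =
      ((Ioc x (x + T / w)).filter (fun m => Ro (sb w c L) y m)).card := by
  have hw := h.wpos
  have e : (Ioc (w * x + c) (w * x + c + T)).filter (fun m => Ro L y m) =
      ((Ioc x (x + T / w)).filter (fun m => Ro (sb w c L) y m)).image (fun x' => w * x' + c) := by
    ext m
    rw [mem_filter, mem_Ioc, mem_image]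
    constructor
    · rintro ⟨⟨h1, h2⟩, h3⟩
      obtain ⟨h4, h5⟩ := (h.ro_iff hy m).1 h3
      have h6 : w * (m / w) + c = m := by
        have := Nat.div_add_mod m w
        omega
      refine ⟨m / w, ?_, h6⟩
      rw [mem_filter, mem_Ioc]
      refine ⟨⟨?_, ?_⟩, h5⟩
      · have h7 : w * x < w * (m / w) := by omega
        exact lt_of_mul_lt_mul_left h7 (Nat.zero_le _)
      · have h7 : w * (m / w - x) ≤ T := by
          rw [Nat.mul_sub]
          omega
        have h8 : m / w - x ≤ T / w := (Nat.le_div_iff_mul_le hw).2 (by rw [mul_comm]; exact h7)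
        omega
    · rintro ⟨x', hx', rfl⟩
      rw [mem_filter, mem_Ioc] at hx'
      obtain ⟨⟨h1, h2⟩, h3⟩ := hx'
      refine ⟨⟨?_, ?_⟩, (ro_sb _ _).1 h3⟩
      · have := Nat.mul_lt_mul_of_pos_left h1 hw
        omega
      · have h4 : w * x' ≤ w * (x + T / w) := Nat.mul_le_mul_left _ h2
        have h5 : w * (T / w) ≤ T := Nat.mul_div_le _ _
        rw [Nat.mul_add] at h4
        omega
  rw [e, card_image_of_injective]
  intro a b hab
  have h1 : w * a = w * b := by simpa using hab
  exact Nat.eq_of_mul_eq_mul_left hw h1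

/-- the numbers of elements in an interval with a property which holds only in one class -/
lemma cmp {P P' : ℕ → Prop} [DecidablePred P] [DecidablePred P'] (hc : c < w)
    (hP : ∀ m, P m → m % w = c) (hPP : ∀ x, P (w * x + c) ↔ P' x) (u Y : ℕ) :
    ((Ioc u (u + Y)).filter P).card ≤ ((Ioc (u / w) (u / w + Y / w)).filter P').card + 2 ∧
    ((Ioc (u / w) (u / w + Y / w)).filter P').card ≤ ((Ioc u (u + Y)).filter P).card + 1 := by
  have hw : 0 < w := by omega
  have hu := Nat.div_add_mod u w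
  have hur := Nat.mod_lt u hw
  have hY := Nat.div_add_mod Y w
  have hYr := Nat.mod_lt Y hw
  constructor
  · have h1 : ((Ioc u (u + Y)).filter P).image (fun m => m / w) ⊆
        (Ioc (u / w) (u / w + Y / w)).filter P' ∪ {u / w, u / w + Y / w + 1} := by
      intro x hx
      rw [mem_image] at hx
      obtain ⟨m, hm, rfl⟩ := hx
      rw [mem_filter, mem_Ioc] at hm
      obtain ⟨⟨h2, h3⟩, h4⟩ := hm
      have h5 := hP m h4
      have h6 : w * (m / w) + c = m := by
        have := Nat.div_add_mod m w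
        omega
      have h7 : P' (m / w) := (hPP _).1 (by rw [h6]; exact h4)
      have h8 : u / w ≤ m / w := Nat.div_le_div_right h2.le
      have h9 : m / w ≤ u / w + Y / w + 1 := by
        have h10 : m / w < u / w + Y / w + 2 := by
          rw [Nat.div_lt_iff_lt_mul hw]
          have e : (u / w + Y / w + 2) * w = w * (u / w) + w * (Y / w) + 2 * w := by ring
          rw [e]
          omega
        omega
      rw [mem_union, mem_filter, mem_Ioc, mem_insert, mem_singleton]
      by_cases h11 : m / w = u / w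
      · exact Or.inr (Or.inl h11)
      · by_cases h12 : m / w = u / w + Y / w + 1
        · exact Or.inr (Or.inr h12)
        · exact Or.inl ⟨⟨by omega, by omega⟩, h7⟩
    have h2 : ((Ioc u (u + Y)).filter P).card = (((Ioc u (u + Y)).filter P).image (fun m => m / w)).card := by
      rw [card_image_of_injOn]
      intro a ha b hb hab
      rw [coe_filter, Set.mem_ofPred_eq] at ha hb
      have h3 := hP a ha.2
      have h4 := hP b hb.2
      have h5 := Nat.div_add_mod a w
      have h6 := Nat.div_add_mod b w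
      simp only at hab
      rw [hab] at h5
      omega
    rw [h2]
    refine (card_le_card h1).trans ((card_union_le _ _).trans ?_)
    have := card_le_two (a := u / w) (b := u / w + Y / w + 1)
    omega
  · have h1 : ((Ioc (u / w) (u / w + Y / w)).filter P').image (fun x => w * x + c) ⊆
        (Ioc u (u + Y)).filter P ∪ {w * (u / w + Y / w) + c} := by
      intro m hm
      rw [mem_image] at hm
      obtain ⟨x, hx, rfl⟩ := hm
      rw [mem_filter, mem_Ioc] at hx
      obtain ⟨⟨h2, h3⟩, h4⟩ := hx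
      rw [mem_union, mem_filter, mem_Ioc, mem_singleton]
      by_cases h5 : x = u / w + Y / w
      · exact Or.inr (by rw [h5])
      · left
        refine ⟨⟨?_, ?_⟩, (hPP x).2 h4⟩
        · have : w * (u / w + 1) ≤ w * x := Nat.mul_le_mul_left _ h2
          rw [Nat.mul_add] at this
          omega
        · have : w * (x + 1) ≤ w * (u / w + Y / w) := Nat.mul_le_mul_left _ (by omega)
          rw [Nat.mul_add, Nat.mul_add] at this
          omega
    have h2 : ((Ioc (u / w) (u / w + Y / w)).filter P').card =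
        (((Ioc (u / w) (u / w + Y / w)).filter P').image (fun x => w * x + c)).card := by
      rw [card_image_of_injective]
      intro a b hab
      have h1 : w * a = w * b := by simpa using hab
      exact Nat.eq_of_mul_eq_mul_left hw h1
    rw [h2]
    exact (card_le_card h1).trans ((card_union_le _ _).trans (by rw [card_singleton]))

/-- the numbers with a given number of predecessors -/
theorem One.Dk (h : One L w c) {y : ℕ} (hy : w ≤ y) (l T u Y : ℕ) :
    Dk L y l T u Y ≤ Dk (sb w c L) y l (T / w) (u / w) (Y / w) + 2 ∧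
    R490.LZ.Dk (sb w c L) y l (T / w) (u / w) (Y / w) ≤ R490.LZ.Dk L y l T u Y + 1 := by
  classical
  unfold R490.LZ.Dk
  apply cmp h.lt
  · rintro m ⟨h1, _⟩
    exact h.cls hy h1
  · intro x
    rw [ro_sb, h.pred hy]

open Classical in
/-- the densities -/
theorem One.De (h : One L w c) {y : ℕ} (hy : w ≤ y) : De (sb w c L) y = w * R490.LZ.De L y := by
  have hw := h.wpos
  unfold R490.LZ.De
  have e1 : (w : ℝ) = ∏ p ∈ (Finset.range (y + 1)).filter Nat.Prime, (if p ∣ w then (p : ℝ) else 1) := by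
    rw [Finset.prod_ite, prod_const_one, mul_one]
    have h2 : ((∏ p ∈ w.primeFactors, p : ℕ) : ℝ) = w := by rw [Nat.prod_primeFactors_of_squarefree h.sq]
    rw [← h2]
    push_cast
    apply Finset.prod_congr _ (fun _ _ => rfl)
    ext p
    rw [Nat.mem_primeFactors, mem_filter, mem_filter, mem_range]
    constructor
    · rintro ⟨h3, h4, _⟩
      exact ⟨⟨by have := Nat.le_of_dvd hw h4; omega, h3⟩, h4⟩
    · rintro ⟨⟨_, h3⟩, h4⟩
      exact ⟨h3, h4, hw.ne'⟩
  rw [e1, ← Finset.prod_mul_distrib]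
  apply Finset.prod_congr rfl
  intro p hp
  have hpp : p.Prime := (mem_filter.1 hp).2
  have hp0 : 0 < p := hpp.pos
  have hpR : (0 : ℝ) < p := by exact_mod_cast hp0
  have key : ∀ m : ℕ, (∃ l ∈ sb w c L, (p : ℤ) ∣ l.1 * m + l.2) ↔
      ∃ l ∈ L, (p : ℤ) ∣ l.1 * ((w * m + c : ℕ) : ℤ) + l.2 := by
    intro m
    constructor
    · rintro ⟨l, hl, hd⟩
      obtain ⟨l', hl', rfl⟩ := mem_image.1 hl
      refine ⟨l', hl', ?_⟩
      have e : l'.1 * (w : ℤ) * (m : ℤ) + (l'.1 * (c : ℤ) + l'.2) = l'.1 * ((w * m + c : ℕ) : ℤ) + l'.2 := by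
        push_cast
        ring
      rw [← e]
      exact hd
    · rintro ⟨l, hl, hd⟩
      refine ⟨_, mem_image_of_mem _ hl, ?_⟩
      have e : l.1 * (w : ℤ) * (m : ℤ) + (l.1 * (c : ℤ) + l.2) = l.1 * ((w * m + c : ℕ) : ℤ) + l.2 := by
        push_cast
        ring
      show (p : ℤ) ∣ l.1 * (w : ℤ) * (m : ℤ) + (l.1 * (c : ℤ) + l.2)
      rw [e]
      exact hd
  have per : ∀ l : ℤ × ℤ, ∀ m m' : ℕ, (p : ℤ) ∣ (m : ℤ) - m' → ((p : ℤ) ∣ l.1 * m + l.2 ↔ (p : ℤ) ∣ l.1 * m' + l.2) := by
    intro l m m' hd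
    have e : l.1 * (m : ℤ) + l.2 = l.1 * ((m : ℤ) - m') + (l.1 * m' + l.2) := by ring
    rw [e, dvd_add_right (Dvd.dvd.mul_left hd _)]
  have hmod : ∀ m : ℕ, (p : ℤ) ∣ (m : ℤ) - ((m % p : ℕ) : ℤ) := by
    intro m
    rw [Int.natCast_mod]
    exact Int.dvd_self_sub_emod
  by_cases hpw : p ∣ w
  · have hA : ((Finset.range p).filter (fun m : ℕ => ∃ l ∈ sb w c L, (p : ℤ) ∣ l.1 * m + l.2)) = ∅ := by
      apply Finset.filter_false_of_mem
      intro m _ hm
      obtain ⟨l, hl, hd⟩ := (key m).1 hm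
      apply h.ok p hpp hpw l hl
      rw [per l c (w * m + c)]
      · exact hd
      · have hpw' : (p : ℤ) ∣ (w : ℤ) := by exact_mod_cast hpw
        have e : (c : ℤ) - ((w * m + c : ℕ) : ℤ) = -(w * m) := by
          push_cast
          ring
        rw [e]
        exact (Dvd.dvd.mul_right hpw' _).neg_right
    have hB : ((Finset.range p).filter (fun m : ℕ => ∃ l ∈ L, (p : ℤ) ∣ l.1 * m + l.2)) =
        (Finset.range p).erase (c % p) := by
      ext m
      rw [mem_filter, mem_erase, mem_range]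
      constructor
      · rintro ⟨h1, l, hl, hd⟩
        refine ⟨?_, h1⟩
        rintro rfl
        apply h.ok p hpp hpw l hl
        rw [per l c (c % p) (hmod c)]
        exact hd
      · rintro ⟨h1, h2⟩
        refine ⟨h2, ?_⟩
        by_contra hcon
        push Not at hcon
        have h3 := h.only p hpp hpw m hcon
        apply h1
        have h4 : (c : ℤ) ≡ (m : ℤ) [ZMOD (p : ℤ)] := Int.modEq_iff_dvd.2 h3
        have h5 : c ≡ m [MOD p] := Int.natCast_modEq_iff.1 h4
        have h6 : c % p = m % p := h5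
        rw [h6, Nat.mod_eq_of_lt h2]
    rw [hA, hB, card_erase_of_mem (mem_range.2 (Nat.mod_lt _ hp0)), card_range, if_pos hpw, card_empty]
    have h1 : ((p - 1 : ℕ) : ℝ) = p - 1 := by
      rw [Nat.cast_sub hp0]
      simp
    rw [h1]
    field_simp
    norm_num
  · rw [if_neg hpw, one_mul]
    congr 2
    -- a bijection
    have hinj : ∀ a b : ℕ, a < p → b < p → (w * a + c) % p = (w * b + c) % p → a = b := by
      intro a b ha hb hab
      have h1 : w * a + c ≡ w * b + c [MOD p] := hab
      have h2 : w * a ≡ w * b [MOD p] := Nat.ModEq.add_right_cancel' _ h1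
      have h3 : a ≡ b [MOD p] := Nat.ModEq.cancel_left_of_coprime
        ((Nat.Prime.coprime_iff_not_dvd hpp).2 hpw) h2
      have h4 : a % p = b % p := h3
      rwa [Nat.mod_eq_of_lt ha, Nat.mod_eq_of_lt hb] at h4
    have hle : ∀ (R R' : ℕ → Prop) [DecidablePred R] [DecidablePred R'], (∀ x, R' x ↔ R ((w * x + c) % p)) →
        ((Finset.range p).filter R').card ≤ ((Finset.range p).filter R).card := by
      intro R R' _ _ hR
      apply Finset.card_le_card_of_injOn (fun x => (w * x + c) % p)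
      · intro x hx
        rw [coe_filter, Set.mem_ofPred_eq] at hx
        rw [coe_filter, Set.mem_ofPred_eq, mem_range]
        exact ⟨Nat.mod_lt _ hp0, (hR x).1 hx.2⟩
      · intro a ha b hb hab
        rw [coe_filter, Set.mem_ofPred_eq, mem_range] at ha hb
        exact hinj a b ha.1 hb.1 hab
    have kk : ∀ x : ℕ, (∃ l ∈ sb w c L, (p : ℤ) ∣ l.1 * x + l.2) ↔
        (∃ l ∈ L, (p : ℤ) ∣ l.1 * (((w * x + c) % p : ℕ) : ℤ) + l.2) := by
      intro x
      rw [key x]
      constructor
      · rintro ⟨l, hl, hd⟩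
        exact ⟨l, hl, (per l _ _ (hmod _)).1 hd⟩
      · rintro ⟨l, hl, hd⟩
        exact ⟨l, hl, (per l _ _ (hmod _)).2 hd⟩
    have h1 := hle (fun m : ℕ => ∃ l ∈ L, (p : ℤ) ∣ l.1 * m + l.2)
      (fun m : ℕ => ∃ l ∈ sb w c L, (p : ℤ) ∣ l.1 * m + l.2) kk
    have h2 := hle (fun m : ℕ => ¬ ∃ l ∈ L, (p : ℤ) ∣ l.1 * m + l.2)
      (fun m : ℕ => ¬ ∃ l ∈ sb w c L, (p : ℤ) ∣ l.1 * m + l.2) (fun x => not_congr (kk x))
    have h3 := Finset.card_filter_add_card_filter_not (s := Finset.range p)
      (fun m : ℕ => ∃ l ∈ L, (p : ℤ) ∣ l.1 * m + l.2)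
    have h4 := Finset.card_filter_add_card_filter_not (s := Finset.range p)
      (fun m : ℕ => ∃ l ∈ sb w c L, (p : ℤ) ∣ l.1 * m + l.2)
    norm_cast
    omega

end Pool.Agent.K1H73.LS
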