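import Pool.Agent.K1H73.LS.Pat

set_option autoImplicit false

/-!
# Polynomials on the terms of an arithmetic progression
-/

namespace Pool.Agent.K1H73.LS

open Polynomial Finset

/-- the composition with `q X + b` -/
noncomputable def cq (q b : ℕ) (g : ℤ[X]) : ℤ[X] := g.comp (C (q : ℤ) * X + C (b : ℤ))

variable {q b : ℕ} {g : ℤ[X]}

lemma cq_eval (n : ℕ) : (cq q b g).eval (n : ℤ) = g.eval ((q * n + b : ℕ) : ℤ) := by
  unfold cq
  rw [eval_comp]
  congr 1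
  simp

lemma cq_deg (hq : 1 ≤ q) : (cq q b g).natDegree = g.natDegree := by
  unfold cq
  rw [natDegree_comp, natDegree_linear (by exact_mod_cast (by omega : q ≠ 0)), mul_one]

/-- a polynomial without fixed prime divisor is primitive -/
lemma prim_of {f : ℤ[X]} (h : ∀ p : ℕ, p.Prime → ∃ m : ℕ, ¬ (p : ℤ) ∣ f.eval (m : ℤ)) : f.IsPrimitive := by
  intro r hr
  by_contra hu
  by_cases h0 : r = 0
  · subst h0
    obtain ⟨m, hm⟩ := h 2 Nat.prime_two
    apply hm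
    rw [C_0, zero_dvd_iff] at hr
    rw [hr]
    simp
  · have h1 : r.natAbs ≠ 1 := fun h => hu (Int.isUnit_iff_natAbs_eq.2 h)
    obtain ⟨p, hp, hd⟩ := Nat.exists_prime_and_dvd h1
    obtain ⟨m, hm⟩ := h p hp
    apply hm
    have h2 : (p : ℤ) ∣ r := Int.natCast_dvd.2 hd
    obtain ⟨s, hs⟩ := hr
    rw [hs, eval_mul, eval_C]
    exact Dvd.dvd.mul_right h2 _

theorem irr_comp (hg : Irreducible g) (hd : g.natDegree ≠ 0) (hq : 1 ≤ q) (hp : (cq q b g).IsPrimitive) :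
    Irreducible (cq q b g) := by
  have hgp : g.IsPrimitive := hg.isPrimitive hd
  have h1 := (IsPrimitive.Int.irreducible_iff_irreducible_map_cast hgp).1 hg
  rw [IsPrimitive.Int.irreducible_iff_irreducible_map_cast hp]
  have hq0 : (q : ℚ) ≠ 0 := by exact_mod_cast (by omega : q ≠ 0)
  letI : Invertible (q : ℚ) := invertibleOfNonzero hq0
  have e : (cq q b g).map (Int.castRingHom ℚ) = algEquivCMulXAddC (q : ℚ) (b : ℚ) (g.map (Int.castRingHom ℚ)) := by
    unfold cq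
    rw [algEquivCMulXAddC_apply, Polynomial.map_comp, ← Polynomial.comp_eq_aeval]
    congr 1
    simp
  rw [e]
  exact (MulEquiv.irreducible_iff (algEquivCMulXAddC (q : ℚ) (b : ℚ)).toMulEquiv).2 h1

/-- a nonconstant polynomial is not a translate of itself -/
lemma no_self (hd : g.natDegree ≠ 0) {t : ℕ} (ht : 1 ≤ t) : ¬ Associated g (g.comp (X + C (t : ℤ))) := by
  rintro ⟨u, hu⟩
  have hg0 : g ≠ 0 := by
    rintro rfl
    exact hd natDegree_zero
  have htZ : (1 : ℤ) ≤ t := by exact_mod_cast ht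
  obtain ⟨c, hc, hcu⟩ := Polynomial.isUnit_iff.1 u.isUnit
  rw [← hcu] at hu
  have hlead : (g.comp (X + C (t : ℤ))).leadingCoeff = g.leadingCoeff := by
    rw [leadingCoeff_comp (by rw [natDegree_X_add_C]; exact one_ne_zero), leadingCoeff_X_add_C, one_pow, mul_one]
  have h1 : c = 1 := by
    have h2 := congrArg leadingCoeff hu
    rw [hlead, leadingCoeff_mul, leadingCoeff_C] at h2
    have h3 : g.leadingCoeff ≠ 0 := leadingCoeff_ne_zero.2 hg0
    exact mul_left_cancel₀ h3 (by rw [h2, mul_one])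
  rw [h1, C_1, mul_one] at hu
  have h4 : ∀ n : ℕ, g.eval ((n : ℤ) * t) = g.eval 0 := by
    intro n
    induction n with
    | zero => simp
    | succ n ih =>
      rw [← ih]
      conv_rhs => rw [hu]
      rw [eval_comp, eval_add, eval_X, eval_C]
      congr 1
      push_cast
      ring
  have h5 : g = C (g.eval 0) := by
    apply Polynomial.eq_of_infinite_eval_eq
    apply Set.infinite_of_injective_forall_mem (f := fun n : ℕ => (n : ℤ) * t)
    · intro a b hab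
      have h6 : (a : ℤ) * t = b * t := hab
      exact_mod_cast mul_right_cancel₀ (by linarith : (t : ℤ) ≠ 0) h6
    · intro n
      rw [Set.mem_setOf_eq, eval_C]
      exact h4 n
  apply hd
  rw [h5]
  exact natDegree_C _

lemma cq_inj (hq : 1 ≤ q) {f h : ℤ[X]} (e : cq q b f = cq q b h) : f = h := by
  have h1 : (f - h).comp (C (q : ℤ) * X + C (b : ℤ)) = 0 := by
    rw [sub_comp]
    unfold cq at e
    rw [e, sub_self]
  rcases Polynomial.comp_eq_zero_iff.1 h1 with h2 | ⟨_, h2⟩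
  · exact sub_eq_zero.1 h2
  · exfalso
    have h3 := congrArg natDegree h2
    rw [natDegree_linear (by exact_mod_cast (by omega : q ≠ 0)), natDegree_C] at h3
    exact one_ne_zero h3

lemma cq_shift (t : ℕ) (f : ℤ[X]) : (cq q b f).comp (X + C (t : ℤ)) = cq q b (f.comp (X + C ((q * t : ℕ) : ℤ))) := by
  unfold cq
  rw [comp_assoc, comp_assoc]
  congr 1
  simp only [add_comp, mul_comp, C_comp, X_comp, Nat.cast_mul, C_mul]
  ring

lemma cq_mul (f h : ℤ[X]) : cq q b (f * h) = cq q b f * cq q b h := by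
  unfold cq
  rw [mul_comp]

/-- no translates in the progression -/
lemma tr_cq (hq : 1 ≤ q) {f h : ℤ[X]} (hn : ∀ t : ℕ, 1 ≤ t → ¬ Associated f (h.comp (X + C (t : ℤ)))) {t : ℕ}
    (ht : 1 ≤ t) : ¬ Associated (cq q b f) ((cq q b h).comp (X + C (t : ℤ))) := by
  rintro ⟨u, hu⟩
  apply hn (q * t) (Nat.mul_pos hq ht)
  obtain ⟨c, hc, hcu⟩ := Polynomial.isUnit_iff.1 u.isUnit
  rw [cq_shift, ← hcu] at hu
  have h1 : cq q b (f * C c) = cq q b (h.comp (X + C ((q * t : ℕ) : ℤ))) := by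
    rw [cq_mul, ← hu]
    congr 1
    unfold cq
    rw [C_comp]
  exact ⟨u, by rw [← hcu]; exact cq_inj hq h1⟩

/-- the coefficients of the powers of `q X + b` -/
lemma coeff_pow_le (q b i n : ℕ) : |((C (q : ℤ) * X + C (b : ℤ)) ^ i : ℤ[X]).coeff n| ≤ ((q + b : ℕ) : ℤ) ^ i := by
  obtain ⟨P, hP⟩ : ∃ P : ℕ[X], P = C q * X + C b := ⟨_, rfl⟩
  have e : (C (q : ℤ) * X + C (b : ℤ) : ℤ[X]) = P.map (Nat.castRingHom ℤ) := by
    rw [hP]
    simp
  rw [e, ← Polynomial.map_pow, coeff_map]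
  have h1 : (P ^ i).coeff n ≤ (P ^ i).eval 1 := by
    rw [eval_eq_sum_range]
    by_cases h : n ∈ range ((P ^ i).natDegree + 1)
    · have := Finset.single_le_sum (f := fun j => (P ^ i).coeff j * 1 ^ j) (fun _ _ => Nat.zero_le _) h
      simpa using this
    · rw [coeff_eq_zero_of_natDegree_lt (by rw [mem_range] at h; omega)]
      exact Nat.zero_le _
  have h2 : (P ^ i).eval 1 = (q + b) ^ i := by
    rw [eval_pow, hP]
    simp
  rw [h2] at h1
  have h3 : (0 : ℤ) ≤ (Nat.castRingHom ℤ) ((P ^ i).coeff n) := by simp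
  rw [abs_of_nonneg h3]
  have h4 : (((P ^ i).coeff n : ℕ) : ℤ) ≤ (((q + b) ^ i : ℕ) : ℤ) := by exact_mod_cast h1
  simpa using h4

/-- the coefficients in the progression -/
lemma coeff_cq (hq : 1 ≤ q) {D : ℕ} {H : ℤ} (hD : g.natDegree ≤ D) (hH : ∀ i, |g.coeff i| ≤ H) (n : ℕ) :
    |(cq q b g).coeff n| ≤ (D + 1) * (H * ((q + b : ℕ) : ℤ) ^ D) := by
  have hH0 : 0 ≤ H := (abs_nonneg _).trans (hH 0)
  have hqb : (1 : ℤ) ≤ ((q + b : ℕ) : ℤ) := by exact_mod_cast (by omega : 1 ≤ q + b)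
  have e : (cq q b g).coeff n = ∑ i ∈ Finset.range (g.natDegree + 1),
      g.coeff i * ((C (q : ℤ) * X + C (b : ℤ)) ^ i : ℤ[X]).coeff n := by
    unfold cq Polynomial.comp
    rw [eval₂_eq_sum_range, finsetSum_coeff]
    apply Finset.sum_congr rfl
    intro i _
    rw [coeff_C_mul]
  rw [e]
  refine (Finset.abs_sum_le_sum_abs _ _).trans ?_
  have h1 : ∀ i ∈ Finset.range (g.natDegree + 1),
      |g.coeff i * ((C (q : ℤ) * X + C (b : ℤ)) ^ i : ℤ[X]).coeff n| ≤ H * ((q + b : ℕ) : ℤ) ^ D := by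
    intro i hi
    rw [Finset.mem_range] at hi
    rw [abs_mul]
    apply mul_le_mul (hH i) _ (abs_nonneg _) hH0
    exact (coeff_pow_le q b i n).trans (pow_le_pow_right₀ hqb (by omega))
  refine (Finset.sum_le_sum h1).trans ?_
  rw [Finset.sum_const, Finset.card_range, nsmul_eq_mul]
  apply mul_le_mul_of_nonneg_right _ (by positivity)
  push_cast
  have : (g.natDegree : ℤ) ≤ D := by exact_mod_cast hD
  linarith

open Pool.Agent.Y879.GL Pool.Agent.W123.RU.Poly Pool.Agent.TH464.PW Pool.Agent.TH464.PO Pool.Agent.W123.RP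
open Pool.Agent.H373R2.T7 Pool.Agent.V11146.MK

/-- solve `q m + b ≡ n0` -/
lemma solve {p : ℕ} (hp : p.Prime) (hpq : ¬ p ∣ q) (b n0 : ℕ) : ∃ m : ℕ, (p : ℤ) ∣ ((q * m + b : ℕ) : ℤ) - n0 := by
  have hcop : IsCoprime (q : ℤ) (p : ℤ) :=
    Nat.isCoprime_iff_coprime.2 ((Nat.Prime.coprime_iff_not_dvd hp).2 hpq).symm
  obtain ⟨x, z, hxz⟩ := hcop
  have hpZ : (0 : ℤ) < p := by exact_mod_cast hp.pos
  refine ⟨((x * (n0 - b)) % p).toNat, ?_⟩
  have h0 : 0 ≤ (x * ((n0 : ℤ) - b)) % p := Int.emod_nonneg _ hpZ.ne'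
  have h3 : (p : ℤ) ∣ (x * ((n0 : ℤ) - b)) - (x * ((n0 : ℤ) - b)) % p := Int.dvd_self_sub_emod
  obtain ⟨y, hy⟩ := h3
  push_cast
  rw [Int.toNat_of_nonneg h0]
  refine ⟨-(q * y) - z * ((n0 : ℤ) - b), ?_⟩
  have h5 : (q : ℤ) * x = 1 - z * p := by linarith
  have h4 : (x * ((n0 : ℤ) - b)) % p = x * ((n0 : ℤ) - b) - p * y := by linarith
  rw [h4]
  have h6 : (q : ℤ) * (x * ((n0 : ℤ) - b)) = (q * x) * ((n0 : ℤ) - b) := by ring
  rw [mul_sub (q : ℤ), h6, h5]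
  ring

/-- the system on the progression -/
noncomputable def sq {k : ℕ} (q b : ℕ) (f : Fin k → ℤ[X]) : Fin k → ℤ[X] := fun i => cq q b (f i)

variable {k : ℕ} {f : Fin k → ℤ[X]}

theorem us_sq {D : ℕ} {H0 : ℤ} {H : ℝ} (U : ℝ) (hirr : ∀ i, Irreducible (f i)) (hd : ∀ i, (f i).natDegree ≠ 0)
    (hD : ∀ i, (f i).natDegree ≤ D) (hH : ∀ i n, |(f i).coeff n| ≤ H0)
    (hadm : ∀ p : ℕ, p.Prime → ∃ m : ℕ, ∀ i, ¬ (p : ℤ) ∣ (f i).eval (m : ℤ))
    (htr : ∀ i j, ∀ t : ℕ, 1 ≤ t → ¬ Associated (f i) ((f j).comp (X + C (t : ℤ))))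
    (hq : 1 ≤ q) (hco : ∀ p : ℕ, p.Prime → p ∣ q → ∀ i, ¬ (p : ℤ) ∣ (f i).eval (b : ℤ))
    (hbd : (((D + 1) * (H0 * ((q + b : ℕ) : ℤ) ^ D) : ℤ) : ℝ) ≤ H) : US k D H U (sq q b f) := by
  have hadm' : ∀ p : ℕ, p.Prime → ∃ m : ℕ, ∀ i, ¬ (p : ℤ) ∣ (sq q b f i).eval (m : ℤ) := by
    intro p hp
    by_cases hpq : p ∣ q
    · refine ⟨0, fun i hdv => hco p hp hpq i ?_⟩
      unfold sq at hdv
      rw [cq_eval] at hdv
      simpa using hdv
    · obtain ⟨n0, hn0⟩ := hadm p hp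
      obtain ⟨m, hm⟩ := solve hp hpq b n0
      refine ⟨m, fun i hdv => hn0 i ?_⟩
      unfold sq at hdv
      rw [cq_eval] at hdv
      have h1 : ((q * m + b : ℕ) : ℤ) - n0 ∣ (f i).eval ((q * m + b : ℕ) : ℤ) - (f i).eval (n0 : ℤ) :=
        sub_dvd_eval_sub _ _ _
      have h2 := dvd_sub hdv (hm.trans h1)
      rwa [sub_sub_cancel] at h2
  refine ⟨?_, ?_, ?_, ?_, hadm', ?_⟩
  · intro i
    apply irr_comp (hirr i) (hd i) hq
    apply prim_of
    intro p hp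
    obtain ⟨m, hm⟩ := hadm' p hp
    exact ⟨m, hm i⟩
  · intro i
    show (cq q b (f i)).natDegree ≠ 0
    rw [cq_deg hq]
    exact hd i
  · intro i
    show (cq q b (f i)).natDegree ≤ D
    rw [cq_deg hq]
    exact hD i
  · intro i n
    refine le_trans ?_ hbd
    have := coeff_cq (b := b) hq (hD i) (hH i) n
    exact_mod_cast this
  · intro i j t ht _
    exact tr_cq hq (htr i j) ht

lemma sq_Q {p m : ℕ} : Q (sq q b f) p m ↔ ∃ i, (p : ℤ) ∣ (f i).eval ((q * m + b : ℕ) : ℤ) := by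
  unfold Q sq
  simp only [cq_eval]

end Pool.Agent.K1H73.LS
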