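import Pool.Agent.K1H73.LS.Gap
import Pool.Agent.K1H73.RDW.AP
import Pool.Agent.K1H73.RDW.Tup

set_option autoImplicit false

/-!
# Shifts of the terms of an arithmetic progression
-/

namespace Pool.Agent.K1H73.LS

open Finset Filter
open Pool.Agent.R490.LZ
open Pool.Agent.K1H73.RDW

/-- the forms `q m + a - h` -/
def fm (q a : ℕ) (H : Finset ℤ) : Finset (ℤ × ℤ) := H.image (fun h => ((q : ℤ), (a : ℤ) - h))

variable {q a : ℕ} {H : Finset ℤ}

lemma fm_card : (fm q a H).card = H.card := by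
  unfold fm
  apply card_image_of_injective
  intro x y hxy
  have h : (a : ℤ) - x = a - y := congrArg Prod.snd hxy
  linarith

lemma fm_ro (y m : ℕ) : Ro (fm q a H) y m ↔
    ∀ p : ℕ, p.Prime → p ≤ y → ∀ h ∈ H, ¬ (p : ℤ) ∣ ((a + q * m : ℕ) : ℤ) - h := by
  unfold Ro fm
  have e : ∀ h : ℤ, (q : ℤ) * (m : ℤ) + ((a : ℤ) - h) = ((a + q * m : ℕ) : ℤ) - h := by
    intro h
    push_cast
    ring
  constructor
  · intro h0 p hp hpy h hh hd
    apply h0 p hp hpy _ (mem_image_of_mem _ hh)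
    show (p : ℤ) ∣ (q : ℤ) * (m : ℤ) + ((a : ℤ) - h)
    rw [e]
    exact hd
  · intro h0 p hp hpy l hl hd
    obtain ⟨h, hh, rfl⟩ := mem_image.1 hl
    apply h0 p hp hpy h hh
    rw [← e]
    exact hd

lemma ex_iff (p m : ℕ) (hp : p.Prime) : (∃ l ∈ fm q a H, (p : ℤ) ∣ l.1 * m + l.2) ↔
    (p : ℤ) ∣ GH H (a + q * m) := by
  rw [dvd_GH _ hp]
  unfold fm
  have e : ∀ h : ℤ, (q : ℤ) * (m : ℤ) + ((a : ℤ) - h) = ((a + q * m : ℕ) : ℤ) - h := by
    intro h
    push_cast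
    ring
  constructor
  · rintro ⟨l, hl, hd⟩
    obtain ⟨h, hh, rfl⟩ := mem_image.1 hl
    refine ⟨h, hh, ?_⟩
    rw [← e]
    exact hd
  · rintro ⟨h, hh, hd⟩
    refine ⟨_, mem_image_of_mem _ hh, ?_⟩
    show (p : ℤ) ∣ (q : ℤ) * (m : ℤ) + ((a : ℤ) - h)
    rw [e]
    exact hd

open Classical in
lemma fm_nu {p : ℕ} (hp : p.Prime) (hco : p ∣ q → ∀ h ∈ H, ¬ (p : ℤ) ∣ (a : ℤ) - h) :
    ((Finset.range p).filter (fun m : ℕ => ∃ l ∈ fm q a H, (p : ℤ) ∣ l.1 * m + l.2)).card =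
      if p ∣ q then 0 else nu H p := by
  have e : (Finset.range p).filter (fun m : ℕ => ∃ l ∈ fm q a H, (p : ℤ) ∣ l.1 * m + l.2) =
      (Finset.range p).filter (fun m : ℕ => (p : ℤ) ∣ GH H (a + q * m)) := by
    apply Finset.filter_congr
    intro m _
    exact ex_iff p m hp
  have hPF : PF H.card (GH H) := PF_GH H le_rfl
  have e2 : ((Finset.range p).filter (fun m : ℕ => (p : ℤ) ∣ GH H (a + q * m))).card =
      om (fun m => GH H (a + q * m)) p := by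
    unfold om
    congr!
  rw [e, e2]
  split_ifs with hpq
  · apply om_affine' hPF hpq
    intro hd
    rw [dvd_GH _ hp] at hd
    obtain ⟨h, hh, hd⟩ := hd
    exact hco hpq h hh hd
  · rw [om_affine hPF a hp hpq, om_GH H hp]

open Classical in
theorem fm_De (hco : ∀ p : ℕ, p.Prime → p ∣ q → ∀ h ∈ H, ¬ (p : ℤ) ∣ (a : ℤ) - h) (y : ℕ) :
    De (fm q a H) y = ∏ p ∈ (Finset.range (y + 1)).filter Nat.Prime,
      (1 - ((if p ∣ q then 0 else nu H p : ℕ) : ℝ) / p) := by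
  unfold De
  apply Finset.prod_congr rfl
  intro p hp
  have hpp := (mem_filter.1 hp).2
  have h1 := fm_nu (q := q) (a := a) (H := H) hpp (hco p hpp)
  rw [← h1]

/-- admissibility -/
lemma fm_adm (hco : ∀ p : ℕ, p.Prime → p ∣ q → ∀ h ∈ H, ¬ (p : ℤ) ∣ (a : ℤ) - h)
    (hnu : ∀ p : ℕ, p.Prime → ¬ p ∣ q → nu H p < p) (p : ℕ) (hp : p.Prime) :
    ∃ m : ℕ, m < p ∧ ∀ l ∈ fm q a H, ¬ (p : ℤ) ∣ l.1 * m + l.2 := by
  classical
  by_contra hcon
  push Not at hcon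
  have h1 := fm_nu (q := q) (a := a) (H := H) hp (hco p hp)
  have h2 : (Finset.range p).filter (fun m : ℕ => ∃ l ∈ fm q a H, (p : ℤ) ∣ l.1 * m + l.2) = Finset.range p := by
    apply Finset.filter_true_of_mem
    intro m hm
    exact hcon m (mem_range.1 hm)
  rw [h2, card_range] at h1
  split_ifs at h1 with hpq
  · exact hp.ne_zero h1
  · exact absurd h1.symm (hnu p hp hpq).ne

lemma per (p : ℕ) (l : ℤ × ℤ) (m m' : ℕ) (h : (p : ℤ) ∣ (m : ℤ) - m') :
    ((p : ℤ) ∣ l.1 * m + l.2 ↔ (p : ℤ) ∣ l.1 * m' + l.2) := by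
  have e : l.1 * (m : ℤ) + l.2 = l.1 * ((m : ℤ) - m') + (l.1 * m' + l.2) := by ring
  rw [e, dvd_add_right (Dvd.dvd.mul_left h _)]

lemma sub_mod (p m : ℕ) : (p : ℤ) ∣ (m : ℤ) - ((m % p : ℕ) : ℤ) := by
  rw [Int.natCast_mod]
  exact Int.dvd_self_sub_emod

lemma sub_of_mod {p m m' : ℕ} (h : m % p = m' % p) : (p : ℤ) ∣ (m : ℤ) - m' := by
  have h1 : (m' : ℤ) ≡ (m : ℤ) [ZMOD (p : ℤ)] := Int.natCast_modEq_iff.2 (show m' ≡ m [MOD p] from h.symm)
  exact Int.modEq_iff_dvd.1 h1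

/-- the class -/
theorem exists_one (w : ℕ) (hw : Squarefree w) (hwq : Nat.Coprime w q)
    (hnu : ∀ p : ℕ, p.Prime → p ∣ w → nu H p + 1 = p) : ∃ c : ℕ, One (fm q a H) w c := by
  classical
  have hw0 : 0 < w := Nat.pos_of_ne_zero hw.ne_zero
  -- the class modulo one prime
  have key : ∀ p : ℕ, ∃ d : ℕ, p.Prime → p ∣ w → d < p ∧ (∀ l ∈ fm q a H, ¬ (p : ℤ) ∣ l.1 * d + l.2) ∧
      ∀ m : ℕ, m < p → (∀ l ∈ fm q a H, ¬ (p : ℤ) ∣ l.1 * m + l.2) → m = d := by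
    intro p
    by_cases hp : p.Prime
    · by_cases hpw : p ∣ w
      · have hpq : ¬ p ∣ q := by
          intro h1
          have := Nat.dvd_gcd hpw h1
          rw [hwq] at this
          exact hp.one_lt.ne' (Nat.dvd_one.1 this)
        have h1 := fm_nu (q := q) (a := a) (H := H) hp (fun h => absurd h hpq)
        rw [if_neg hpq] at h1
        have h2 := hnu p hp hpw
        have h3 : ((Finset.range p).filter (fun m : ℕ => ¬ ∃ l ∈ fm q a H, (p : ℤ) ∣ l.1 * m + l.2)).card = 1 := by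
          have := Finset.card_filter_add_card_filter_not (s := Finset.range p)
            (fun m : ℕ => ∃ l ∈ fm q a H, (p : ℤ) ∣ l.1 * m + l.2)
          rw [card_range] at this
          omega
        obtain ⟨d, hd⟩ := Finset.card_eq_one.1 h3
        have hd1 : d ∈ (Finset.range p).filter (fun m : ℕ => ¬ ∃ l ∈ fm q a H, (p : ℤ) ∣ l.1 * m + l.2) := by
          rw [hd]
          exact mem_singleton_self _
        rw [mem_filter, mem_range] at hd1
        refine ⟨d, fun _ _ => ⟨hd1.1, ?_, ?_⟩⟩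
        · intro l hl h4
          exact hd1.2 ⟨l, hl, h4⟩
        · intro m hm h4
          have : m ∈ (Finset.range p).filter (fun m : ℕ => ¬ ∃ l ∈ fm q a H, (p : ℤ) ∣ l.1 * m + l.2) := by
            rw [mem_filter, mem_range]
            refine ⟨hm, ?_⟩
            rintro ⟨l, hl, h5⟩
            exact h4 l hl h5
          rw [hd, mem_singleton] at this
          exact this
      · exact ⟨0, fun _ h => absurd h hpw⟩
    · exact ⟨0, fun h => absurd h hp⟩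
  choose d hd using key
  obtain ⟨k, hk⟩ := Nat.chineseRemainderOfFinset d id w.primeFactors
    (fun p hp => (Nat.prime_of_mem_primeFactors hp).ne_zero)
    (by
      intro p hp p' hp' hne
      exact (Nat.coprime_primes (Nat.prime_of_mem_primeFactors hp) (Nat.prime_of_mem_primeFactors hp')).2 hne)
  have hcong : ∀ p : ℕ, p.Prime → p ∣ w → (k % w) % p = d p := by
    intro p hp hpw
    have h1 := hk p (Nat.mem_primeFactors.2 ⟨hp, hpw, hw0.ne'⟩)
    have h2 : k % p = d p % p := h1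
    rw [Nat.mod_mod_of_dvd _ hpw, h2, Nat.mod_eq_of_lt (hd p hp hpw).1]
  refine ⟨k % w, hw, Nat.mod_lt _ hw0, ?_, ?_⟩
  · intro p hp hpw l hl h1
    apply (hd p hp hpw).2.1 l hl
    rw [per p l (d p) (k % w)]
    · exact h1
    · apply sub_of_mod
      rw [hcong p hp hpw, Nat.mod_eq_of_lt (hd p hp hpw).1]
  · intro p hp hpw m hm
    have h1 : m % p = d p := by
      apply (hd p hp hpw).2.2 _ (Nat.mod_lt _ hp.pos)
      intro l hl h2
      apply hm l hl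
      rw [per p l m (m % p) (sub_mod p m)]
      exact h2
    apply sub_of_mod
    rw [h1, hcong p hp hpw]

/-- the conditions for the class -/
theorem sb_good {w c N : ℕ} (hone : One (fm q a H) w c) (hq : 1 ≤ q)
    (hco : ∀ p : ℕ, p.Prime → p ∣ q → ∀ h ∈ H, ¬ (p : ℤ) ∣ (a : ℤ) - h)
    (hnu : ∀ p : ℕ, p.Prime → ¬ p ∣ q → nu H p < p) (h1 : q * w ≤ N)
    (h2 : ∀ h ∈ H, |(q : ℤ) * c + (a - h)| ≤ N) : Good N (sb w c (fm q a H)) := by
  have hw := hone.wpos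
  refine ⟨?_, ?_, ?_, ?_⟩
  · intro l hl
    obtain ⟨l', hl', rfl⟩ := mem_image.1 hl
    obtain ⟨h, hh, rfl⟩ := mem_image.1 hl'
    show (1 : ℤ) ≤ (q : ℤ) * w
    have : 1 ≤ q * w := Nat.mul_pos hq hw
    exact_mod_cast this
  · intro l hl
    obtain ⟨l', hl', rfl⟩ := mem_image.1 hl
    obtain ⟨h, hh, rfl⟩ := mem_image.1 hl'
    show (q : ℤ) * w ≤ N
    exact_mod_cast h1
  · intro l hl
    obtain ⟨l', hl', rfl⟩ := mem_image.1 hl
    obtain ⟨h, hh, rfl⟩ := mem_image.1 hl'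
    exact h2 h hh
  · intro p hp
    by_cases hpw : p ∣ w
    · refine ⟨0, ?_⟩
      intro l hl hd
      obtain ⟨l', hl', rfl⟩ := mem_image.1 hl
      apply hone.ok p hp hpw l' hl'
      have e : l'.1 * (w : ℤ) * ((0 : ℕ) : ℤ) + (l'.1 * (c : ℤ) + l'.2) = l'.1 * c + l'.2 := by
        push_cast
        ring
      have hd' : (p : ℤ) ∣ l'.1 * (w : ℤ) * ((0 : ℕ) : ℤ) + (l'.1 * (c : ℤ) + l'.2) := hd
      rwa [e] at hd'
    · obtain ⟨m0, _, hm0⟩ := fm_adm hco hnu p hp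
      -- solve `w m + c = m0`
      have hcop : IsCoprime (w : ℤ) (p : ℤ) :=
        Nat.isCoprime_iff_coprime.2 ((Nat.Prime.coprime_iff_not_dvd hp).2 hpw).symm
      obtain ⟨x, z, hxz⟩ := hcop
      have hpZ : (0 : ℤ) < p := by exact_mod_cast hp.pos
      refine ⟨((x * (m0 - c)) % p).toNat, ?_⟩
      intro l hl hd
      obtain ⟨l', hl', rfl⟩ := mem_image.1 hl
      apply hm0 l' hl'
      have h0 : 0 ≤ (x * ((m0 : ℤ) - c)) % p := Int.emod_nonneg _ hpZ.ne'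
      have hd' : (p : ℤ) ∣ l'.1 * (w : ℤ) * ((((x * ((m0 : ℤ) - c)) % p).toNat : ℕ) : ℤ) + (l'.1 * (c : ℤ) + l'.2) := hd
      rw [Int.toNat_of_nonneg h0] at hd'
      have h3 : (p : ℤ) ∣ (x * ((m0 : ℤ) - c)) - (x * ((m0 : ℤ) - c)) % p := Int.dvd_self_sub_emod
      obtain ⟨y, hy⟩ := h3
      have h4 : (x * ((m0 : ℤ) - c)) % p = x * ((m0 : ℤ) - c) - p * y := by linarith
      rw [h4] at hd'
      have e : l'.1 * (w : ℤ) * (x * ((m0 : ℤ) - c) - p * y) + (l'.1 * (c : ℤ) + l'.2) =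
          (l'.1 * m0 + l'.2) - p * (l'.1 * w * y + l'.1 * z * ((m0 : ℤ) - c)) := by
        have h5 : x * (w : ℤ) = 1 - z * p := by linarith
        have h6 : l'.1 * (w : ℤ) * (x * ((m0 : ℤ) - c)) = l'.1 * (x * w) * ((m0 : ℤ) - c) := by ring
        rw [mul_sub, h6, h5]
        ring
      rw [e] at hd'
      exact (dvd_sub_left (dvd_mul_right _ _)).1 hd'

theorem sb_noT {w c : ℕ} {U : ℝ} (h : ∀ h ∈ H, ∀ h' ∈ H, ∀ t : ℕ, 1 ≤ t → (t : ℝ) ≤ U →
    h' - h ≠ (q : ℤ) * w * t) : NoT (sb w c (fm q a H)) U := by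
  intro l hl l' hl' t ht htU h1 h2
  obtain ⟨k, hk, rfl⟩ := mem_image.1 hl
  obtain ⟨k', hk', rfl⟩ := mem_image.1 hl'
  obtain ⟨g, hg, rfl⟩ := mem_image.1 hk
  obtain ⟨g', hg', rfl⟩ := mem_image.1 hk'
  simp only at h2
  apply h g hg g' hg' t ht htU
  linarith

end Pool.Agent.K1H73.LS
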