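import Pool.Agent.K1H73.LS.Cls

set_option autoImplicit false

/-!
# The spacing law for forms whose zeros leave only one class modulo some small primes
-/

namespace Pool.Agent.K1H73.LS

open Finset Filter
open Pool.Agent.R490.LZ

variable {L : Finset (ℤ × ℤ)} {w c : ℕ}

lemma sb_card (hw : 0 < w) : (sb w c L).card = L.card := by
  unfold sb
  apply card_image_of_injective
  intro a b hab
  have hwZ : (w : ℤ) ≠ 0 := by exact_mod_cast hw.ne'
  have h1 : a.1 * (w : ℤ) = b.1 * w := congrArg Prod.fst hab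
  have h2 : a.1 * (c : ℤ) + a.2 = b.1 * c + b.2 := congrArg Prod.snd hab
  have h3 : a.1 = b.1 := mul_right_cancel₀ hwZ h1
  rw [h3] at h2
  exact Prod.ext h3 (add_left_cancel h2)

lemma low (k A r : ℕ) (hr : 2 ≤ r) : ∃ v : ℝ, 0 < v ∧ ∀ᶠ X : ℕ in atTop, ∀ L : Finset (ℤ × ℤ), L.card = k →
    Good (X ^ A) L → v / Real.log X ^ (k + 1) ≤ De L ⌊(X : ℝ) ^ (1 / (r : ℝ))⌋₊ := by
  obtain ⟨v, hv, h⟩ := Pool.Agent.Y879.GL.V_low_log (k * 1 + 1) r hr
  refine ⟨v, hv, ?_⟩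
  filter_upwards [h] with X hX L hL hG
  have hus := hG.us0 hL
  have h1 := hX _ (Pool.Agent.Y879.GL.us_perB hus) (fun p hp => Pool.Agent.Y879.GL.us_adm hus p hp)
  rw [sys_V hL, mul_one] at h1
  exact h1

/-- a polynomial is larger than a power of the logarithm -/
lemma big (C : ℝ) (k : ℕ) {θ : ℝ} (hθ : 0 < θ) : ∀ᶠ X : ℕ in atTop, C * Real.log X ^ k ≤ (X : ℝ) ^ θ := by
  have h1 := (isLittleO_log_rpow_rpow_atTop (k : ℝ) hθ)
  have h2 : ∀ᶠ x : ℝ in atTop, C * Real.log x ^ k ≤ x ^ θ := by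
    have h3 := h1.bound (show (0 : ℝ) < 1 / (|C| + 1) by positivity)
    filter_upwards [h3, eventually_ge_atTop 1] with x hx hx1
    have hl : 0 ≤ Real.log x := Real.log_nonneg hx1
    rw [Real.rpow_natCast, Real.norm_of_nonneg (by positivity), Real.norm_of_nonneg (by positivity)] at hx
    have h4 : (|C| + 1) * Real.log x ^ k ≤ x ^ θ := by
      rw [div_mul_eq_mul_div, one_mul, le_div_iff₀ (by positivity)] at hx
      linarith
    have h5 : C * Real.log x ^ k ≤ (|C| + 1) * Real.log x ^ k :=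
      mul_le_mul_of_nonneg_right ((le_abs_self C).trans (by linarith)) (by positivity)
    linarith
  exact tendsto_natCast_atTop_atTop.eventually h2

lemma De_nonneg (L : Finset (ℤ × ℤ)) (y : ℕ) : 0 ≤ De L y := by
  unfold De
  apply Finset.prod_nonneg
  intro p hp
  have hpp := (mem_filter.1 hp).2
  have hp0 : (0 : ℝ) < p := by exact_mod_cast hpp.pos
  rw [sub_nonneg, div_le_one hp0]
  have := card_filter_le (Finset.range p) (fun m : ℕ => ∃ l ∈ L, (p : ℤ) ∣ l.1 * m + l.2)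
  rw [card_range] at this
  exact_mod_cast this

/-- the distribution function is `1`-Lipschitz and at most one -/
lemma F_lip (l : ℕ) {x x' : ℝ} (hx : 0 ≤ x') (hxx : x' ≤ x) :
    |∑ j ∈ range l, Real.exp (-x') * x' ^ j / (j.factorial : ℝ) -
      ∑ j ∈ range l, Real.exp (-x) * x ^ j / (j.factorial : ℝ)| ≤ x - x' := by
  have h := Pool.Agent.TH464.PO.Ck_lip l x' (x - x') hx (by linarith)
  rw [add_sub_cancel] at h
  have e : ∀ x : ℝ, Pool.Agent.TH464.PO.Ck l x = ∑ j ∈ range l, Real.exp (-x) * x ^ j / (j.factorial : ℝ) := by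
    intro x
    rfl
  rw [e, e] at h
  rw [abs_le]
  constructor <;> linarith [h.1, h.2]

lemma F_le (l : ℕ) {x : ℝ} (hx : 0 ≤ x) :
    0 ≤ ∑ j ∈ range l, Real.exp (-x) * x ^ j / (j.factorial : ℝ) ∧
    ∑ j ∈ range l, Real.exp (-x) * x ^ j / (j.factorial : ℝ) ≤ 1 :=
  ⟨Pool.Agent.TH464.PO.Ck_nonneg l x hx, Pool.Agent.TH464.PO.Ck_le_one l x hx⟩

open Classical in
/-- **The spacing law, one class modulo small primes.** -/
theorem gapC (k A w0 : ℕ) (hk2 : 2 ≤ k) (δ' θ : ℝ) (hδ' : 0 < δ') (hθ : 0 < θ) (k0 : ℕ)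
    (x0 ε : ℝ) (hε : 0 < ε) :
    ∃ r0 : ℕ, ∀ r : ℕ, r0 ≤ r → ∀ᶠ X : ℕ in atTop, ∀ (L : Finset (ℤ × ℤ)) (w c : ℕ), L.card = k → w ≤ w0 →
      One L w c → Good (X ^ A) (sb w c L) → NoT (sb w c L) ((X : ℝ) ^ δ') → ∀ y : ℕ,
      y = ⌊(X : ℝ) ^ (1 / (r : ℝ))⌋₊ → ∀ u Y : ℕ, (X : ℝ) ^ θ ≤ Y → ∀ l T : ℕ, (l ≤ k0 ∨ T * De L y ≤ x0) →
        |(Dk L y l T u Y : ℝ) - Y * De L y *
          ∑ j ∈ range l, Real.exp (-(T * De L y)) * (T * De L y) ^ j / j.factorial| ≤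
          ε * (Y * De L y) := by
  obtain ⟨r0, h0⟩ := gapL k A hk2 δ' (θ / 2) hδ' (by linarith) k0 x0 (ε / 4) (by linarith)
  refine ⟨max r0 2, ?_⟩
  intro r hr
  have hr2 : 2 ≤ r := (le_max_right _ _).trans hr
  obtain ⟨M, hM, hup⟩ := V_up A r hr2
  obtain ⟨v, hv, hlow⟩ := low k A r hr2
  have hlog : ∀ᶠ X : ℕ in atTop, 8 * w0 * M / ε ≤ Real.log X :=
    (Real.tendsto_log_atTop.comp tendsto_natCast_atTop_atTop).eventually_ge_atTop _
  have hyb : ∀ᶠ X : ℕ in atTop, (w0 : ℝ) ≤ (X : ℝ) ^ (1 / (r : ℝ)) :=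
    ((tendsto_rpow_atTop (by positivity)).comp tendsto_natCast_atTop_atTop).eventually_ge_atTop _
  filter_upwards [h0 r ((le_max_left _ _).trans hr), hup, hlow, hlog, hyb, big (2 * w0) 0 (half_pos hθ),
    big ((8 * w0 * w0 + 24 * w0) / (v * ε) + 1) (k + 1) (half_pos hθ), eventually_ge_atTop 3] with X
    hX1 hX2 hX3 hX4 hX5 hX6 hX7 hX8
  intro L w c hL hw hone hG hn y hy u Y hY l T hT
  have hwpos := hone.wpos
  have hwR : (0 : ℝ) < w := by exact_mod_cast hwpos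
  have hw1 : (1 : ℝ) ≤ w := by exact_mod_cast hwpos
  have hww : (w : ℝ) ≤ w0 := by exact_mod_cast hw
  have hcard : (sb w c L).card = k := by rw [sb_card hwpos, hL]
  have hwy : w ≤ y := by
    rw [hy]
    apply Nat.le_floor
    exact hww.trans hX5
  have hDe := hone.De hwy
  have hup' := hX2 (sb w c L) (by omega) hG
  have hlow' := hX3 (sb w c L) hcard hG
  rw [← hy] at hup' hlow'
  have hX3R : (3 : ℝ) ≤ X := by exact_mod_cast hX8
  have hlogpos : 0 < Real.log X := Real.log_pos (by linarith)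
  obtain ⟨D', hD'⟩ : ∃ D' : ℝ, D' = De (sb w c L) y := ⟨_, rfl⟩
  obtain ⟨D, hD⟩ : ∃ D : ℝ, D = De L y := ⟨_, rfl⟩
  rw [← hD', ← hD] at hDe
  rw [← hD'] at hup' hlow'
  rw [← hD] at hT ⊢
  have hD'pos : 0 < D' := lt_of_lt_of_le (by positivity) hlow'
  have hDpos : 0 < D := by
    rw [hDe] at hD'pos
    exact (pos_iff_pos_of_mul_pos hD'pos).1 hwR
  -- the length
  have hXX : (X : ℝ) ^ θ = (X : ℝ) ^ (θ / 2) * (X : ℝ) ^ (θ / 2) := by
    rw [← Real.rpow_add (by linarith)]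
    congr 1
    ring
  have hXh : (2 : ℝ) * w0 ≤ (X : ℝ) ^ (θ / 2) := by simpa using hX6
  have hXh1 : 0 < (X : ℝ) ^ (θ / 2) := Real.rpow_pos_of_pos (by linarith) _
  have hdivY : (Y : ℝ) / w - 1 ≤ ((Y / w : ℕ) : ℝ) ∧ ((Y / w : ℕ) : ℝ) ≤ (Y : ℝ) / w := by
    constructor
    · have h1 := Nat.div_add_mod Y w
      have h2 := Nat.mod_lt Y hwpos
      have h3 : (Y : ℝ) = w * ((Y / w : ℕ) : ℝ) + ((Y % w : ℕ) : ℝ) := by exact_mod_cast h1.symm
      have h4 : ((Y % w : ℕ) : ℝ) ≤ w := by exact_mod_cast h2.le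
      rw [div_sub_one hwR.ne', div_le_iff₀ hwR]
      linarith
    · exact Nat.cast_div_le
  have hdivT : (T : ℝ) / w - 1 ≤ ((T / w : ℕ) : ℝ) ∧ ((T / w : ℕ) : ℝ) ≤ (T : ℝ) / w := by
    constructor
    · have h1 := Nat.div_add_mod T w
      have h2 := Nat.mod_lt T hwpos
      have h3 : (T : ℝ) = w * ((T / w : ℕ) : ℝ) + ((T % w : ℕ) : ℝ) := by exact_mod_cast h1.symm
      have h4 : ((T % w : ℕ) : ℝ) ≤ w := by exact_mod_cast h2.le
      rw [div_sub_one hwR.ne', div_le_iff₀ hwR]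
      linarith
    · exact Nat.cast_div_le
  have hYw : (X : ℝ) ^ (θ / 2) ≤ ((Y / w : ℕ) : ℝ) := by
    refine le_trans ?_ hdivY.1
    have h1 : (X : ℝ) ^ (θ / 2) + 1 ≤ (Y : ℝ) / w := by
      rw [le_div_iff₀ hwR]
      have h2 : ((X : ℝ) ^ (θ / 2) + 1) * w ≤ (X : ℝ) ^ (θ / 2) * (X : ℝ) ^ (θ / 2) := by
        have h3 : 1 ≤ (X : ℝ) ^ (θ / 2) := Real.one_le_rpow (by linarith) (by linarith)
        have h4 : ((X : ℝ) ^ (θ / 2) + 1) * w ≤ (2 * (X : ℝ) ^ (θ / 2)) * w := by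
          apply mul_le_mul_of_nonneg_right _ hwR.le
          linarith
        have h5 : (2 * (X : ℝ) ^ (θ / 2)) * w = (X : ℝ) ^ (θ / 2) * (2 * w) := by ring
        have h6 : (X : ℝ) ^ (θ / 2) * (2 * w) ≤ (X : ℝ) ^ (θ / 2) * (X : ℝ) ^ (θ / 2) := by
          apply mul_le_mul_of_nonneg_left _ hXh1.le
          linarith
        linarith
      rw [← hXX] at h2
      linarith
    linarith
  have hTx : (l ≤ k0 ∨ ((T / w : ℕ) : ℝ) * De (sb w c L) y ≤ x0) := by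
    rcases hT with h1 | h1
    · exact Or.inl h1
    · right
      refine le_trans ?_ h1
      rw [← hD', hDe]
      calc ((T / w : ℕ) : ℝ) * (w * D) ≤ (T : ℝ) / w * (w * D) :=
            mul_le_mul_of_nonneg_right hdivT.2 (by positivity)
        _ = T * D := by field_simp
  have hmain := hX1 (sb w c L) hcard hG hn y hy (u / w) (Y / w) hYw l (T / w) hTx
  rw [← hD'] at hmain
  have hdk := hone.Dk hwy l T u Y
  obtain ⟨N, hN⟩ : ∃ N : ℝ, N = (Dk L y l T u Y : ℝ) := ⟨_, rfl⟩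
  obtain ⟨N', hN'⟩ : ∃ N' : ℝ, N' = (Dk (sb w c L) y l (T / w) (u / w) (Y / w) : ℝ) := ⟨_, rfl⟩
  have hd1 : N ≤ N' + 2 := by rw [hN, hN']; exact_mod_cast hdk.1
  have hd2 : N' ≤ N + 1 := by rw [hN, hN']; exact_mod_cast hdk.2
  rw [← hN'] at hmain
  rw [← hN]
  obtain ⟨Y', hY'⟩ : ∃ Y' : ℝ, Y' = ((Y / w : ℕ) : ℝ) := ⟨_, rfl⟩
  obtain ⟨T', hT'⟩ : ∃ T' : ℝ, T' = ((T / w : ℕ) : ℝ) := ⟨_, rfl⟩
  rw [← hY', ← hT'] at hmain
  rw [← hY'] at hdivY hYw
  rw [← hT'] at hdivT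
  have hY0 : (0 : ℝ) ≤ Y := Nat.cast_nonneg Y
  have hT0 : (0 : ℝ) ≤ T := Nat.cast_nonneg T
  have hT'0 : 0 ≤ T' := by rw [hT']; exact Nat.cast_nonneg _
  have hY'0 : 0 ≤ Y' := by rw [hY']; exact Nat.cast_nonneg _
  -- the main terms
  have hx1 : T' * D' ≤ T * D := by
    rw [hDe]
    calc T' * (w * D) ≤ (T : ℝ) / w * (w * D) := mul_le_mul_of_nonneg_right hdivT.2 (by positivity)
      _ = T * D := by field_simp
  have hx2 : T * D - w * D ≤ T' * D' := by
    rw [hDe]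
    calc T * D - w * D = ((T : ℝ) / w - 1) * (w * D) := by field_simp
      _ ≤ T' * (w * D) := mul_le_mul_of_nonneg_right hdivT.1 (by positivity)
  have hy1 : Y' * D' ≤ Y * D := by
    rw [hDe]
    calc Y' * (w * D) ≤ (Y : ℝ) / w * (w * D) := mul_le_mul_of_nonneg_right hdivY.2 (by positivity)
      _ = Y * D := by field_simp
  have hy2 : Y * D - w * D ≤ Y' * D' := by
    rw [hDe]
    calc Y * D - w * D = ((Y : ℝ) / w - 1) * (w * D) := by field_simp
      _ ≤ Y' * (w * D) := mul_le_mul_of_nonneg_right hdivY.1 (by positivity)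
  obtain ⟨F, hF⟩ : ∃ F : ℝ, F = ∑ j ∈ range l, Real.exp (-(T * D)) * (T * D) ^ j / (j.factorial : ℝ) := ⟨_, rfl⟩
  obtain ⟨F', hF'⟩ : ∃ F' : ℝ, F' = ∑ j ∈ range l, Real.exp (-(T' * D')) * (T' * D') ^ j / (j.factorial : ℝ) :=
    ⟨_, rfl⟩
  have hFl : |F' - F| ≤ w * D := by
    rw [hF, hF']
    exact (F_lip l (mul_nonneg hT'0 hD'pos.le) hx1).trans (by linarith)
  have hF1 : 0 ≤ F ∧ F ≤ 1 := by
    rw [hF]
    exact F_le l (mul_nonneg hT0 hDpos.le)
  have hF1' : 0 ≤ F' ∧ F' ≤ 1 := by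
    rw [hF']
    exact F_le l (mul_nonneg hT'0 hD'pos.le)
  rw [← hF'] at hmain
  rw [← hF]
  -- the size of `w D`
  have hwD : w * D ≤ ε / 8 := by
    rw [← hDe]
    refine hup'.trans ?_
    rw [div_le_iff₀ hlogpos]
    rw [div_le_iff₀ hε] at hX4
    have : (1 : ℝ) ≤ w0 := hw1.trans hww
    nlinarith
  have hsmall : 3 + w * D ≤ ε / 4 * (Y * D) := by
    have h1 : v / Real.log X ^ (k + 1) / w0 ≤ D := by
      rw [div_le_iff₀ (by linarith)]
      refine hlow'.trans ?_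
      rw [hDe, mul_comm]
      exact mul_le_mul_of_nonneg_left hww hDpos.le
    have h2 : ((8 * w0 * w0 + 24 * w0) / (v * ε) + 1) * Real.log X ^ (k + 1) ≤ Y := by
      refine hX7.trans (le_trans ?_ hY)
      rw [hXX]
      have h3 : 1 ≤ (X : ℝ) ^ (θ / 2) := Real.one_le_rpow (by linarith) (by linarith)
      nlinarith
    have hLk : 0 < Real.log X ^ (k + 1) := by positivity
    have hw0R : (1 : ℝ) ≤ w0 := hw1.trans hww
    have h4 : ((8 * w0 * w0 + 24 * w0) / (v * ε)) * Real.log X ^ (k + 1) * (v / Real.log X ^ (k + 1) / w0) ≤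
        Y * D := by
      apply mul_le_mul (le_trans _ h2) h1 (by positivity) hY0
      apply mul_le_mul_of_nonneg_right _ hLk.le
      linarith
    have h5 : ((8 * w0 * w0 + 24 * w0) / (v * ε)) * Real.log X ^ (k + 1) * (v / Real.log X ^ (k + 1) / w0) =
        (8 * w0 + 24) / ε := by
      field_simp
    rw [h5, div_le_iff₀ hε] at h4
    have h6 : w * D ≤ w0 := by
      have h7 : D ≤ 1 := by
        rw [hD]
        unfold De
        apply Finset.prod_le_one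
        · intro p hp
          have hpp := (mem_filter.1 hp).2
          have hp0 : (0 : ℝ) < p := by exact_mod_cast hpp.pos
          rw [sub_nonneg, div_le_one hp0]
          have := card_filter_le (Finset.range p) (fun m : ℕ => ∃ l ∈ L, (p : ℤ) ∣ l.1 * m + l.2)
          rw [card_range] at this
          exact_mod_cast this
        · intro p _
          have : (0 : ℝ) ≤ (((Finset.range p).filter (fun m : ℕ => ∃ l ∈ L, (p : ℤ) ∣ l.1 * m + l.2)).card : ℝ) / p := by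
            positivity
          linarith
      calc (w : ℝ) * D ≤ w0 * 1 := mul_le_mul hww h7 hDpos.le (by linarith)
        _ = w0 := mul_one _
    have h8 : 3 + w * D ≤ (8 * w0 + 24) / 4 := by linarith
    linarith
  have hYD : 0 ≤ Y * D := by positivity
  have e1 : |Y' * D' * F' - Y * D * F| ≤ w * D + (Y * D) * (w * D) := by
    have h1 : Y' * D' * F' - Y * D * F = (Y' * D' - Y * D) * F' + Y * D * (F' - F) := by ring
    rw [h1]
    refine (abs_add_le _ _).trans ?_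
    rw [abs_mul, abs_mul, abs_of_nonneg hYD, abs_of_nonneg hF1'.1]
    have h2 : |Y' * D' - Y * D| ≤ w * D := by
      rw [abs_le]
      constructor <;> linarith
    have h3 : |Y' * D' - Y * D| * F' ≤ w * D * 1 :=
      mul_le_mul h2 hF1'.2 hF1'.1 (by positivity)
    have h4 : Y * D * |F' - F| ≤ Y * D * (w * D) := mul_le_mul_of_nonneg_left hFl hYD
    linarith
  have e2 : (Y * D) * (w * D) ≤ (Y * D) * (ε / 8) := mul_le_mul_of_nonneg_left hwD hYD
  have e3 : ε / 4 * (Y' * D') ≤ ε / 4 * (Y * D) := mul_le_mul_of_nonneg_left hy1 (by linarith)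
  have hεYD : 0 ≤ ε * (Y * D) := by positivity
  rw [abs_le] at hmain e1 ⊢
  constructor <;> nlinarith [hmain.1, hmain.2, e1.1, e1.2]

end Pool.Agent.K1H73.LS
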