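import Pool.Agent.K1H73.LS.Pat

set_option autoImplicit false

/-!
# Residue patterns for forms whose zeros leave only one class modulo some small primes
-/

namespace Pool.Agent.K1H73.LS

open Finset Filter
open Pool.Agent.R490.LZ
open Pool.Agent.V11146.MK (cls Ls Oa Pat PatK Runs lst mem_cls mem_Ls mem_lst lst_length runs_iff patK_mod patK_map)
open Pool.Agent.W123.RU.Poly (Q)
open Pool.Agent.W123.RP (Vq)
open Pool.Agent.TH464.PO (Ck)

variable {L : Finset (ℤ × ℤ)} {w c : ℕ}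

open Classical in
/-- the residue classes modulo `M` without zeros of forms modulo the primes which divide `M` -/
noncomputable def Cw (L : Finset (ℤ × ℤ)) (M : ℕ) : Finset ℕ :=
  (range M).filter (fun b => ∀ p : ℕ, p.Prime → p ∣ M → ∀ f ∈ L, ¬ (p : ℤ) ∣ f.1 * b + f.2)

lemma One.cls' (h : One L w c) {m : ℕ} (hm : ∀ p : ℕ, p.Prime → p ∣ w → ∀ f ∈ L, ¬ (p : ℤ) ∣ f.1 * m + f.2) :
    m % w = c := by
  have h3 : w ∣ ((m : ℤ) - c).natAbs := by
    have h2 : ∏ p ∈ w.primeFactors, p = w := Nat.prod_primeFactors_of_squarefree h.sq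
    rw [← h2]
    apply Finset.prod_primes_dvd
    · intro p hp
      exact (Nat.prime_of_mem_primeFactors hp).prime
    · intro p hp
      have hpp := Nat.prime_of_mem_primeFactors hp
      have hpw := Nat.dvd_of_mem_primeFactors hp
      exact Int.natCast_dvd.1 (h.only p hpp hpw m (hm p hpp hpw))
  have h4 : (c : ℤ) ≡ (m : ℤ) [ZMOD (w : ℤ)] := Int.modEq_iff_dvd.2 (Int.natCast_dvd.2 h3)
  have h5 : c ≡ m [MOD w] := Int.natCast_modEq_iff.1 h4
  have h6 : c % w = m % w := h5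
  rw [← h6, Nat.mod_eq_of_lt h.lt]

/-- the zeros of the forms on the class -/
lemma Q_sb {k : ℕ} (hk : (sb w c L).card = k) (p x : ℕ) :
    Q (sys (sb w c L) k hk) p x ↔ ∃ f ∈ L, (p : ℤ) ∣ f.1 * ((w * x + c : ℕ) : ℤ) + f.2 := by
  rw [sys_Q hk]
  have e : ∀ f : ℤ × ℤ, f.1 * (w : ℤ) * (x : ℤ) + (f.1 * (c : ℤ) + f.2) = f.1 * ((w * x + c : ℕ) : ℤ) + f.2 := by
    intro f
    push_cast
    ring
  constructor
  · rintro ⟨l, hl, hd⟩
    obtain ⟨f, hf, rfl⟩ := mem_image.1 hl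
    refine ⟨f, hf, ?_⟩
    rw [← e]
    exact hd
  · rintro ⟨f, hf, hd⟩
    refine ⟨_, mem_image_of_mem _ hf, ?_⟩
    show (p : ℤ) ∣ f.1 * (w : ℤ) * (x : ℤ) + (f.1 * (c : ℤ) + f.2)
    rw [e]
    exact hd

lemma Cw_iff (h : One L w c) {k : ℕ} (hk : (sb w c L).card = k) {l : ℕ} (hl : l.Prime) (b : ℕ) :
    b ∈ Cw L (w * l) ↔ b < w * l ∧ b % w = c ∧ b / w ∈ cls (Q (sys (sb w c L) k hk)) l := by
  classical
  unfold Cw
  rw [mem_filter, mem_range, mem_cls, Q_sb hk]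
  constructor
  · rintro ⟨h1, h2⟩
    have h3 : b % w = c := h.cls' (fun p hp hpw => h2 p hp (Dvd.dvd.mul_right hpw _))
    have h4 : w * (b / w) + c = b := by
      have := Nat.div_add_mod b w
      omega
    refine ⟨h1, h3, ?_, ?_⟩
    · rw [Nat.div_lt_iff_lt_mul h.wpos, mul_comm]
      exact h1
    · rw [h4]
      rintro ⟨f, hf, hd⟩
      exact h2 l hl (Dvd.intro_left _ rfl) f hf hd
  · rintro ⟨h1, h3, _, h5⟩
    have h4 : w * (b / w) + c = b := by
      have := Nat.div_add_mod b w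
      omega
    rw [h4] at h5
    refine ⟨h1, ?_⟩
    intro p hp hpM f hf hd
    rcases (Nat.Prime.dvd_mul hp).1 hpM with h6 | h6
    · apply h.ok p hp h6 f hf
      have e : f.1 * (b : ℤ) + f.2 = f.1 * ((b : ℤ) - c) + (f.1 * c + f.2) := by ring
      rw [e] at hd
      refine (dvd_add_right ?_).1 hd
      apply Dvd.dvd.mul_left
      have h7 : (p : ℤ) ∣ (w : ℤ) := by exact_mod_cast h6
      have h8 : (b : ℤ) - c = w * ((b / w : ℕ) : ℤ) := by
        have : (b : ℤ) = w * ((b / w : ℕ) : ℤ) + c := by exact_mod_cast h4.symm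
        linarith
      rw [h8]
      exact Dvd.dvd.mul_right h7 _
    · have := (Nat.prime_dvd_prime_iff_eq hp hl).1 h6
      subst this
      exact h5 ⟨f, hf, hd⟩

lemma Cw_card (h : One L w c) {k : ℕ} (hk : (sb w c L).card = k) {l : ℕ} (hl : l.Prime) :
    (Cw L (w * l)).card = (cls (Q (sys (sb w c L) k hk)) l).card := by
  classical
  have hw := h.wpos
  have e : Cw L (w * l) = (cls (Q (sys (sb w c L) k hk)) l).image (fun x => w * x + c) := by
    ext b
    rw [Cw_iff h hk hl, mem_image]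
    constructor
    · rintro ⟨_, h2, h3⟩
      refine ⟨b / w, h3, ?_⟩
      have := Nat.div_add_mod b w
      omega
    · rintro ⟨x, hx, rfl⟩
      obtain ⟨h1, h2⟩ := div_of h.lt x
      rw [h1, h2]
      refine ⟨?_, rfl, hx⟩
      have hxl : x < l := ((mem_cls _ _ _).1 hx).1
      have h3 : w * (x + 1) ≤ w * l := Nat.mul_le_mul_left _ hxl
      have h4 := h.lt
      rw [Nat.mul_add] at h3
      omega
  rw [e, card_image_of_injective]
  intro a b hab
  have h1 : w * a = w * b := by simpa using hab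
  exact Nat.eq_of_mul_eq_mul_left hw h1

lemma De_le_one (L : Finset (ℤ × ℤ)) (y : ℕ) : De L y ≤ 1 := by
  unfold De
  apply Finset.prod_le_one
  · intro p hp
    have hpp := (mem_filter.1 hp).2
    have hp0 : (0 : ℝ) < p := by exact_mod_cast hpp.pos
    rw [sub_nonneg, div_le_one hp0]
    have := card_filter_le (Finset.range p) (fun m : ℕ => ∃ l ∈ L, (p : ℤ) ∣ l.1 * m + l.2)
    rw [card_range] at this
    exact_mod_cast this
  · intro p _
    have : (0 : ℝ) ≤ (((Finset.range p).filter (fun m : ℕ => ∃ l ∈ L, (p : ℤ) ∣ l.1 * m + l.2)).card : ℝ) / p :=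
      div_nonneg (Nat.cast_nonneg _) (Nat.cast_nonneg _)
    linarith

/-- the number of the members is large -/
lemma YD_big (k A w0 r : ℕ) (hr : 2 ≤ r) (θ C : ℝ) (hθ : 0 < θ) : ∀ᶠ X : ℕ in atTop,
    ∀ (L : Finset (ℤ × ℤ)) (w c : ℕ), L.card = k → w ≤ w0 → One L w c → Good (X ^ A) (sb w c L) → ∀ y : ℕ,
      y = ⌊(X : ℝ) ^ (1 / (r : ℝ))⌋₊ → ∀ Y : ℕ, (X : ℝ) ^ θ ≤ Y → C ≤ Y * De L y := by
  obtain ⟨v, hv, hlow⟩ := low k A r hr
  have hyb : ∀ᶠ X : ℕ in atTop, (w0 : ℝ) ≤ (X : ℝ) ^ (1 / (r : ℝ)) :=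
    ((tendsto_rpow_atTop (by positivity)).comp tendsto_natCast_atTop_atTop).eventually_ge_atTop _
  filter_upwards [hlow, hyb, big (|C| * w0 / v) (k + 1) hθ, eventually_ge_atTop 3] with X h1 h2 h3 h4
  intro L w c hL hw hone hG y hy Y hY
  have hwpos := hone.wpos
  have hwR : (0 : ℝ) < w := by exact_mod_cast hwpos
  have hww : (w : ℝ) ≤ w0 := by exact_mod_cast hw
  have hcard : (sb w c L).card = k := by rw [sb_card hwpos, hL]
  have hwy : w ≤ y := by
    rw [hy]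
    exact Nat.le_floor (hww.trans h2)
  have h5 := h1 (sb w c L) hcard hG
  rw [← hy, hone.De hwy] at h5
  have hX3 : (3 : ℝ) ≤ X := by exact_mod_cast h4
  have hlog : 0 < Real.log X := Real.log_pos (by linarith)
  have hLk : 0 < Real.log X ^ (k + 1) := by positivity
  have hD0 := De_nonneg L y
  have h6 : v ≤ w0 * De L y * Real.log X ^ (k + 1) := by
    rw [div_le_iff₀ hLk] at h5
    refine h5.trans ?_
    apply mul_le_mul_of_nonneg_right _ hLk.le
    exact mul_le_mul_of_nonneg_right hww hD0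
  have h7 : |C| * w0 / v * Real.log X ^ (k + 1) ≤ Y := h3.trans hY
  have h8 : |C| * w0 / v * Real.log X ^ (k + 1) * De L y ≤ Y * De L y := mul_le_mul_of_nonneg_right h7 hD0
  have h9 : |C| * w0 / v * Real.log X ^ (k + 1) * De L y = |C| / v * (w0 * De L y * Real.log X ^ (k + 1)) := by ring
  rw [h9] at h8
  have h10 : |C| / v * v ≤ |C| / v * (w0 * De L y * Real.log X ^ (k + 1)) :=
    mul_le_mul_of_nonneg_left h6 (by positivity)
  rw [div_mul_cancel₀ _ hv.ne'] at h10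
  exact (le_abs_self C).trans (h10.trans h8)

open Classical in
/-- the number of the members -/
lemma tot_eq (L : Finset (ℤ × ℤ)) (y u Y : ℕ) : Dk L y 1 0 u Y = ((Ioc u (u + Y)).filter (Ro L y)).card := by
  unfold Dk
  congr 1
  apply Finset.filter_congr
  intro n _
  simp

open Classical in
/-- **Residue patterns, one class modulo small primes.** -/
theorem patC (k A w0 l m : ℕ) (hk2 : 2 ≤ k) (hl : l.Prime) (δ' θ : ℝ) (hδ' : 0 < δ') (hθ : 0 < θ)
    (ε : ℝ) (hε : 0 < ε) :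
    ∃ r0 : ℕ, ∀ r : ℕ, r0 ≤ r → ∀ᶠ X : ℕ in atTop, ∀ (L : Finset (ℤ × ℤ)) (w c : ℕ), L.card = k → w ≤ w0 →
      One L w c → Good (X ^ A) (sb w c L) → NoT (sb w c L) ((X : ℝ) ^ δ') → ∀ y : ℕ,
      y = ⌊(X : ℝ) ^ (1 / (r : ℝ))⌋₊ → ∀ u Y : ℕ, (X : ℝ) ^ θ ≤ Y →
        0 < ((Ioc u (u + Y)).filter (Ro L y)).card ∧ ∀ a : ℕ → ℕ, (∀ i ≤ m, a i ∈ Cw L (w * l)) →
        |(((Ioc u (u + Y)).filter (fun g => Runs (Ro L y) (fun n => n % (w * l)) m a g)).card : ℝ) -
          ((Ioc u (u + Y)).filter (Ro L y)).card / ((Cw L (w * l)).card : ℝ) ^ (m + 1)| ≤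
          ε * ((Ioc u (u + Y)).filter (Ro L y)).card := by
  obtain ⟨e, he⟩ : ∃ e : ℝ, e = min (1 / 8) (ε / 16) := ⟨_, rfl⟩
  have he0 : 0 < e := by rw [he]; positivity
  have he1 : e ≤ 1 / 8 := by rw [he]; exact min_le_left _ _
  have he2 : e ≤ ε / 16 := by rw [he]; exact min_le_right _ _
  obtain ⟨r1, h1⟩ := gapC k A w0 hk2 δ' θ hδ' hθ 1 0 e he0
  obtain ⟨r2, h2⟩ := pat_polys k 1 l m hl ((A : ℝ) + 1) δ' (θ / 2) (by positivity) hδ' (by linarith) e he0
  refine ⟨max (max r1 r2) 2, ?_⟩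
  intro r hr
  have hr2 : 2 ≤ r := (le_max_right _ _).trans hr
  have hrm : max r1 r2 ≤ r := (le_max_left _ _).trans hr
  obtain ⟨M, hM, hup⟩ := V_up A r hr2
  have hyb : ∀ᶠ X : ℕ in atTop, (w0 : ℝ) ≤ (X : ℝ) ^ (1 / (r : ℝ)) :=
    ((tendsto_rpow_atTop (by positivity)).comp tendsto_natCast_atTop_atTop).eventually_ge_atTop _
  filter_upwards [h1 r ((le_max_left _ _).trans hrm), h2 r ((le_max_right _ _).trans hrm) M, hup, hyb,
    YD_big k A w0 r hr2 θ (4 * (w0 + 4) / e) hθ, big (2 * w0) 0 (half_pos hθ), eventually_ge_atTop 3] with X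
    hX1 hX2 hX3 hX4 hX5 hX6 hX7
  intro L w c hL hw hone hG hn y hy u Y hY
  have hwpos := hone.wpos
  have hwR : (0 : ℝ) < w := by exact_mod_cast hwpos
  have hw1 : (1 : ℝ) ≤ w := by exact_mod_cast hwpos
  have hww : (w : ℝ) ≤ w0 := by exact_mod_cast hw
  have hcard : (sb w c L).card = k := by rw [sb_card hwpos, hL]
  have hwy : w ≤ y := by
    rw [hy]
    exact Nat.le_floor (hww.trans hX4)
  have hYD := hX5 L w c hL hw hone hG y hy Y hY
  have htot := hX1 L w c hL hw hone hG hn y hy u Y hY 1 0 (Or.inl le_rfl)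
  rw [tot_eq] at htot
  obtain ⟨D, hD⟩ : ∃ D : ℝ, D = De L y := ⟨_, rfl⟩
  obtain ⟨D', hD'⟩ : ∃ D' : ℝ, D' = De (sb w c L) y := ⟨_, rfl⟩
  have hDe := hone.De hwy
  rw [← hD, ← hD'] at hDe
  obtain ⟨t, ht⟩ : ∃ t : ℝ, t = (((Ioc u (u + Y)).filter (Ro L y)).card : ℝ) := ⟨_, rfl⟩
  have hF : ∑ j ∈ range 1, Real.exp (-((0 : ℕ) * De L y)) * ((0 : ℕ) * De L y) ^ j / (j.factorial : ℝ) = 1 := by
    simp
  rw [hF, mul_one, ← hD, ← ht] at htot
  rw [← hD] at hYD
  have hX7R : (3 : ℝ) ≤ X := by exact_mod_cast hX7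
  have hD0 : 0 ≤ D := by rw [hD]; exact De_nonneg L y
  have hw00 : (0 : ℝ) ≤ w0 := Nat.cast_nonneg _
  have hYDpos : 0 < Y * D := lt_of_lt_of_le (by positivity) hYD
  have hYD2 : w0 + 4 ≤ e * (Y * D) / 4 := by
    rw [div_le_iff₀ he0] at hYD
    linarith
  have hlow : Y * D / 2 ≤ t := by
    rw [abs_le] at htot
    have : e * (Y * D) ≤ 1 / 8 * (Y * D) := mul_le_mul_of_nonneg_right he1 hYDpos.le
    linarith [htot.1]
  have htpos : 0 < t := by linarith
  refine ⟨by rw [ht] at htpos; exact_mod_cast htpos, ?_⟩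
  intro a ha
  rw [← ht]
  -- the forms on the class
  obtain ⟨f, hf⟩ : ∃ f, f = sys (sb w c L) k hcard := ⟨_, rfl⟩
  have hus : Pool.Agent.Y879.GL.US k 1 ((X : ℝ) ^ ((A : ℝ) + 1)) ((X : ℝ) ^ δ') f := by
    rw [hf]
    exact us_up (by omega) (hG.us hn hcard)
  have hSf : ∀ x : ℕ, Pool.Agent.TH464.PO.Sf (Q f) y x ↔ Ro L y (w * x + c) := by
    intro x
    rw [hf, sys_Sf, ro_sb]
  have hVq : Vq (Q f) y = D' := by rw [hf, sys_V, hD']
  have hdivY : (Y : ℝ) / w - 1 ≤ ((Y / w : ℕ) : ℝ) ∧ ((Y / w : ℕ) : ℝ) ≤ (Y : ℝ) / w := by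
    constructor
    · have h1 := Nat.div_add_mod Y w
      have h2 := Nat.mod_lt Y hwpos
      have h3 : (Y : ℝ) = w * ((Y / w : ℕ) : ℝ) + ((Y % w : ℕ) : ℝ) := by exact_mod_cast h1.symm
      have h4 : ((Y % w : ℕ) : ℝ) ≤ w := by exact_mod_cast h2.le
      rw [div_sub_one hwR.ne', div_le_iff₀ hwR]
      linarith
    · exact Nat.cast_div_le
  have hXX : (X : ℝ) ^ θ = (X : ℝ) ^ (θ / 2) * (X : ℝ) ^ (θ / 2) := by
    rw [← Real.rpow_add (by linarith)]
    congr 1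
    ring
  have hXh : (2 : ℝ) * w0 ≤ (X : ℝ) ^ (θ / 2) := by simpa using hX6
  have hXh1 : 0 < (X : ℝ) ^ (θ / 2) := Real.rpow_pos_of_pos (by linarith) _
  have hYw : (X : ℝ) ^ (θ / 2) ≤ ((Y / w : ℕ) : ℝ) := by
    refine le_trans ?_ hdivY.1
    have h1 : (X : ℝ) ^ (θ / 2) + 1 ≤ (Y : ℝ) / w := by
      rw [le_div_iff₀ hwR]
      have h2 : ((X : ℝ) ^ (θ / 2) + 1) * w ≤ (X : ℝ) ^ (θ / 2) * (X : ℝ) ^ (θ / 2) := by
        have h3 : 1 ≤ (X : ℝ) ^ (θ / 2) := Real.one_le_rpow (by linarith) (by linarith)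
        have h4 : ((X : ℝ) ^ (θ / 2) + 1) * w ≤ (2 * (X : ℝ) ^ (θ / 2)) * w := by
          apply mul_le_mul_of_nonneg_right _ hwR.le
          linarith
        have h5 : (2 * (X : ℝ) ^ (θ / 2)) * w = (X : ℝ) ^ (θ / 2) * (2 * w) := by ring
        have h6 : (X : ℝ) ^ (θ / 2) * (2 * w) ≤ (X : ℝ) ^ (θ / 2) * (X : ℝ) ^ (θ / 2) := by
          apply mul_le_mul_of_nonneg_left _ hXh1.le
          linarith
        linarith
      rw [← hXX] at h2
      linarith
    linarith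
  -- the classes
  have hin : ∀ i ≤ m, a i < w * l ∧ a i % w = c ∧ a i / w ∈ cls (Q f) l := by
    intro i hi
    have := (Cw_iff hone hcard hl (a i)).1 (ha i hi)
    rw [hf]
    exact this
  have hκ : ∀ b : ℕ, b < w * l → b % w = c → ∀ x : ℕ, (w * x + c) % (w * l) = b ↔ x % l = b / w := by
    intro b hb1 hb2 x
    have h3 : (w * x + c) % (w * l) = w * (x % l) + c := by
      have h4 : w * x + c = w * (x % l) + c + (w * l) * (x / l) := by
        have := Nat.mod_add_div x l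
        calc w * x + c = w * (x % l + l * (x / l)) + c := by rw [this]
          _ = _ := by ring
      have h5 : w * (x % l) + c < w * l := by
        have h6 : x % l + 1 ≤ l := Nat.mod_lt _ hl.pos
        have h7 : w * (x % l + 1) ≤ w * l := Nat.mul_le_mul_left _ h6
        have h8 := hone.lt
        rw [Nat.mul_add] at h7
        omega
      rw [h4, Nat.add_mul_mod_self_left, Nat.mod_eq_of_lt h5]
    rw [h3]
    have h4 : w * (b / w) + c = b := by
      have := Nat.div_add_mod b w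
      omega
    constructor
    · intro h5
      have h6 : w * (x % l) = w * (b / w) := by omega
      exact Nat.eq_of_mul_eq_mul_left hwpos h6
    · intro h5
      rw [h5, h4]
  have hφ : StrictMono (fun x => w * x + c) := by
    intro x x' hxx
    have := Nat.mul_lt_mul_of_pos_left hxx hwpos
    simp only
    omega
  have hS : ∀ n, Ro L y n ↔ ∃ x, n = (fun x => w * x + c) x ∧ Pool.Agent.TH464.PO.Sf (Q f) y x := by
    intro n
    constructor
    · intro h3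
      have h4 := hone.cls hwy h3
      have h5 : w * (n / w) + c = n := by
        have := Nat.div_add_mod n w
        omega
      refine ⟨n / w, h5.symm, ?_⟩
      rw [hSf, h5]
      exact h3
    · rintro ⟨x, rfl, h3⟩
      exact (hSf x).1 h3
  obtain ⟨β, hβ⟩ : ∃ β, β = (lst a m).map (fun b => b / w) := ⟨_, rfl⟩
  have hβm : β ∈ Ls (cls (Q f) l) m := by
    rw [mem_Ls, hβ, List.length_map, lst_length]
    refine ⟨rfl, ?_⟩
    intro b hb
    obtain ⟨b', hb', rfl⟩ := List.mem_map.1 hb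
    obtain ⟨i, _, hi, rfl⟩ := mem_lst a m b' hb'
    exact (hin i hi).2.2
  have hPP : ∀ x : ℕ, Runs (Ro L y) (fun n => n % (w * l)) m a (w * x + c) ↔
      ((Pool.Agent.TH464.PO.Sf (Q f) y x ∧ x % l = a 0 / w) ∧ Pat (Pool.Agent.TH464.PO.Sf (Q f) y) l β x) := by
    intro x
    rw [runs_iff, ← hSf, hκ (a 0) (hin 0 (Nat.zero_le _)).1 (hin 0 (Nat.zero_le _)).2.1 x, ← patK_mod, hβ]
    have h3 := patK_map (Ro L y) (Pool.Agent.TH464.PO.Sf (Q f) y) (fun n => n % (w * l)) (fun n => n % l)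
      (fun x => w * x + c) hφ hS (fun b => b / w) (lst a m) (by
        intro b hb x'
        obtain ⟨i, _, hi, rfl⟩ := mem_lst a m b hb
        exact hκ (a i) (hin i hi).1 (hin i hi).2.1 x') x
    rw [h3, and_assoc]
  have hcmp := cmp (w := w) (c := c) (P := fun g => Runs (Ro L y) (fun n => n % (w * l)) m a g)
    (P' := fun x => (Pool.Agent.TH464.PO.Sf (Q f) y x ∧ x % l = a 0 / w) ∧ Pat (Pool.Agent.TH464.PO.Sf (Q f) y) l β x)
    hone.lt (fun g hg => hone.cls hwy ((runs_iff _ _ _ _ _).1 hg).1) hPP u Y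
  have hN := hX2 f hus (by
    rw [← hy, hVq, hD']
    have := hX3 (sb w c L) (by omega) hG
    rw [← hy] at this
    exact this) (u / w) (Y / w) hYw (a 0 / w) (hin 0 (Nat.zero_le _)).2.2 β hβm
  rw [← hy, hVq] at hN
  have eN : ((Oa (Q f) l (a 0 / w) y (u / w) (Y / w)).filter
      (fun g => Pat (Pool.Agent.TH464.PO.Sf (Q f) y) l β g)).card =
      ((Ioc (u / w) (u / w + Y / w)).filter (fun x => (Pool.Agent.TH464.PO.Sf (Q f) y x ∧ x % l = a 0 / w) ∧
        Pat (Pool.Agent.TH464.PO.Sf (Q f) y) l β x)).card := by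
    unfold Oa
    rw [Finset.filter_filter]
  rw [eN] at hN
  obtain ⟨n, hn'⟩ : ∃ n : ℝ, n =
    (((Ioc u (u + Y)).filter (fun g => Runs (Ro L y) (fun n => n % (w * l)) m a g)).card : ℝ) := ⟨_, rfl⟩
  obtain ⟨n', hn''⟩ : ∃ n' : ℝ, n' =
    (((Ioc (u / w) (u / w + Y / w)).filter (fun x => (Pool.Agent.TH464.PO.Sf (Q f) y x ∧ x % l = a 0 / w) ∧
        Pat (Pool.Agent.TH464.PO.Sf (Q f) y) l β x)).card : ℝ) := ⟨_, rfl⟩
  have hc1 : n ≤ n' + 2 := by rw [hn', hn'']; exact_mod_cast hcmp.1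
  have hc2 : n' ≤ n + 1 := by rw [hn', hn'']; exact_mod_cast hcmp.2
  rw [← hn''] at hN
  rw [← hn']
  have hBc : ((Cw L (w * l)).card : ℝ) = ((cls (Q f) l).card : ℝ) := by
    rw [Cw_card hone hcard hl, hf]
  rw [hBc]
  have hB1 : (1 : ℝ) ≤ ((cls (Q f) l).card : ℝ) := by
    have : 0 < (cls (Q f) l).card := Finset.card_pos.2 ⟨_, (hin 0 (Nat.zero_le _)).2.2⟩
    exact_mod_cast this
  obtain ⟨B, hB⟩ : ∃ B : ℝ, B = ((cls (Q f) l).card : ℝ) ^ (m + 1) := ⟨_, rfl⟩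
  have hBB : 1 ≤ B := by rw [hB]; exact one_le_pow₀ hB1
  rw [← hB] at hN ⊢
  obtain ⟨Y', hY'⟩ : ∃ Y' : ℝ, Y' = ((Y / w : ℕ) : ℝ) := ⟨_, rfl⟩
  rw [← hY'] at hN hdivY
  have hY0 : (0 : ℝ) ≤ Y := Nat.cast_nonneg Y
  have hy1 : Y' * D' ≤ Y * D := by
    rw [hDe]
    calc Y' * (w * D) ≤ (Y : ℝ) / w * (w * D) := mul_le_mul_of_nonneg_right hdivY.2 (by positivity)
      _ = Y * D := by field_simp
  have hDle : D ≤ 1 := by
    rw [hD]
    exact De_le_one L y
  have hy2 : Y * D - w0 ≤ Y' * D' := by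
    rw [hDe]
    have h3 : w * D ≤ w0 := by
      calc w * D ≤ w0 * 1 := mul_le_mul hww hDle hD0 hw00
        _ = w0 := mul_one _
    have h4 : Y * D - w * D ≤ Y' * (w * D) := by
      calc Y * D - w * D = ((Y : ℝ) / w - 1) * (w * D) := by field_simp
        _ ≤ Y' * (w * D) := mul_le_mul_of_nonneg_right hdivY.1 (by positivity)
    linarith
  have hdiff : |Y' * D' / B - t / B| ≤ w0 + e * (Y * D) := by
    rw [← sub_div, abs_div, abs_of_pos (by linarith : (0 : ℝ) < B)]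
    have h3 : |Y' * D' - t| ≤ w0 + e * (Y * D) := by
      rw [abs_le] at htot ⊢
      obtain ⟨k1, k2⟩ := htot
      constructor <;> linarith
    exact (div_le_self (abs_nonneg _) hBB).trans h3
  have h5 : e * (Y' * D') ≤ e * (Y * D) := mul_le_mul_of_nonneg_left hy1 he0.le
  have h6 : e * (Y * D) ≤ ε / 16 * (Y * D) := mul_le_mul_of_nonneg_right he2 hYDpos.le
  have h7 : ε * (Y * D / 2) ≤ ε * t := mul_le_mul_of_nonneg_left hlow hε.le
  have h8 : 0 ≤ ε * (Y * D) := by positivity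
  rw [abs_le] at hN hdiff ⊢
  obtain ⟨k1, k2⟩ := hN
  obtain ⟨k3, k4⟩ := hdiff
  constructor <;> linarith

end Pool.Agent.K1H73.LS
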