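import Pool.Agent.K1H73.LS.Pat

set_option autoImplicit false

/-!
# Residue patterns of consecutive sifted integers, for systems of polynomials
-/

namespace Pool.Agent.K1H73.LS

open Polynomial Finset Filter
open Pool.Agent.W123.RP Pool.Agent.H373R2.T7 Pool.Agent.W123.RU Pool.Agent.W123.RU.Poly
open Pool.Agent.TH464.PW Pool.Agent.TH464.PO Pool.Agent.Y879.GL Pool.Agent.V11146.MK

open Classical in
lemma tot_Pk (g : ℕ → Prop) (Z Y : ℕ) : Pk g 1 0 Z Y = ((Ioc Z (Z + Y)).filter g).card := by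
  unfold Pk
  congr 1
  apply Finset.filter_congr
  intro n _
  simp

lemma Ck_one_zero : Ck 1 0 = 1 := by
  unfold Ck pw
  simp

open Classical in
/-- **The residue patterns and the number of the members, uniformly in the systems of polynomials.** -/
theorem patP (k D l m : ℕ) (hl : l.Prime) (E δ θ : ℝ) (hE : 0 < E) (hδ : 0 < δ) (hθ : 0 < θ)
    (ε : ℝ) (hε : 0 < ε) :
    ∃ r0 : ℕ, ∀ r : ℕ, r0 ≤ r → ∀ Cv : ℝ, ∀ᶠ X : ℕ in atTop, ∀ f : Fin k → ℤ[X],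
      US k D ((X : ℝ) ^ E) ((X : ℝ) ^ δ) f → ∀ y : ℕ, y = ⌊(X : ℝ) ^ (1 / (r : ℝ))⌋₊ →
      Vq (Q f) y ≤ Cv / Real.log X →
      ∀ u Y : ℕ, (X : ℝ) ^ θ ≤ Y →
        0 < ((Ioc u (u + Y)).filter (Sf (Q f) y)).card ∧ ∀ a : ℕ → ℕ, (∀ i ≤ m, a i ∈ cls (Q f) l) →
        |(((Ioc u (u + Y)).filter (fun g => Runs (Sf (Q f) y) (fun n => n % l) m a g)).card : ℝ) -
          ((Ioc u (u + Y)).filter (Sf (Q f) y)).card / ((cls (Q f) l).card : ℝ) ^ (m + 1)| ≤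
          ε * ((Ioc u (u + Y)).filter (Sf (Q f) y)).card := by
  obtain ⟨e, he⟩ : ∃ e : ℝ, e = min (1 / 8) (ε / 16) := ⟨_, rfl⟩
  have he0 : 0 < e := by rw [he]; positivity
  have he1 : e ≤ 1 / 8 := by rw [he]; exact min_le_left _ _
  have he2 : e ≤ ε / 16 := by rw [he]; exact min_le_right _ _
  obtain ⟨r1, h1⟩ := gap_polys k D E δ θ hE hδ hθ 1 0 e he0
  obtain ⟨r2, h2⟩ := pat_polys k D l m hl E δ θ hE hδ hθ e he0
  obtain ⟨v, hv, hV⟩ := V_lower_unif (k * D + 1)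
  refine ⟨max (max r1 r2) 1, ?_⟩
  intro r hr Cv
  have hrm : max r1 r2 ≤ r := (le_max_left _ _).trans hr
  have hr1 : 1 ≤ r := (le_max_right _ _).trans hr
  have hyb : ∀ᶠ X : ℕ in atTop, (3 : ℝ) ≤ (X : ℝ) ^ (1 / (r : ℝ)) :=
    ((tendsto_rpow_atTop (by positivity)).comp tendsto_natCast_atTop_atTop).eventually_ge_atTop _
  filter_upwards [h1 r ((le_max_left _ _).trans hrm) Cv, h2 r ((le_max_right _ _).trans hrm) Cv, hyb,
    eventually_ge_atTop 1] with X hX1 hX2 hX3 hX4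
  intro f hf y hy hVy u Y hY
  rw [← hy] at hX1 hX2
  have hy3 : 3 ≤ y := by
    rw [hy]
    exact Nat.le_floor (by exact_mod_cast hX3)
  have hX4R : (1 : ℝ) ≤ X := by exact_mod_cast hX4
  have hYpos : (0 : ℝ) < Y := lt_of_lt_of_le (Real.rpow_pos_of_pos (by linarith) _) hY
  have hVlow := hV (Q f) (us_perB hf) (us_adm hf) y (by omega)
  have hlogy : 0 < Real.log y := Real.log_pos (by exact_mod_cast (by omega : 1 < y))
  have hVpos : 0 < Vq (Q f) y := lt_of_lt_of_le (by positivity) hVlow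
  obtain ⟨V, hVe⟩ : ∃ V, V = Vq (Q f) y := ⟨_, rfl⟩
  have htot := hX1 f hf (by rw [hy]; rw [hy] at hVy; exact hVy) u Y hY 1 0 (Or.inl le_rfl)
  rw [tot_Pk] at htot
  have e0 : ((0 : ℕ) : ℝ) * Vq (Q f) y = 0 := by simp
  rw [e0, Ck_one_zero, mul_one] at htot
  obtain ⟨t, ht⟩ : ∃ t : ℝ, t = (((Ioc u (u + Y)).filter (Sf (Q f) y)).card : ℝ) := ⟨_, rfl⟩
  rw [← ht, ← hVe] at htot
  rw [← hVe] at hVpos
  have hYV : 0 < Y * V := mul_pos hYpos hVpos
  have hlow : Y * V / 2 ≤ t := by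
    rw [abs_le] at htot
    have : e * (Y * V) ≤ 1 / 8 * (Y * V) := mul_le_mul_of_nonneg_right he1 hYV.le
    linarith [htot.1]
  have htpos : 0 < t := by linarith
  refine ⟨by rw [ht] at htpos; exact_mod_cast htpos, ?_⟩
  intro a ha
  rw [← ht]
  obtain ⟨β, hβ⟩ : ∃ β, β = lst a m := ⟨_, rfl⟩
  have hβm : β ∈ Ls (cls (Q f) l) m := by
    rw [mem_Ls, hβ, lst_length]
    refine ⟨rfl, ?_⟩
    intro b hb
    obtain ⟨i, _, hi, rfl⟩ := mem_lst a m b hb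
    exact ha i hi
  have hN := hX2 f hf (by rw [hy]; rw [hy] at hVy; exact hVy) u Y hY (a 0) (ha 0 (Nat.zero_le _)) β hβm
  have eN : ((Oa (Q f) l (a 0) y u Y).filter (fun g => Pat (Sf (Q f) y) l β g)).card =
      ((Ioc u (u + Y)).filter (fun g => Runs (Sf (Q f) y) (fun n => n % l) m a g)).card := by
    unfold Oa
    rw [Finset.filter_filter]
    congr 1
    apply Finset.filter_congr
    intro g _
    rw [runs_iff, patK_mod, hβ, and_assoc]
  rw [eN] at hN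
  obtain ⟨n, hn⟩ : ∃ n : ℝ, n =
    (((Ioc u (u + Y)).filter (fun g => Runs (Sf (Q f) y) (fun n => n % l) m a g)).card : ℝ) := ⟨_, rfl⟩
  rw [← hn, ← hVe] at hN
  rw [← hn]
  have hB1 : (1 : ℝ) ≤ ((cls (Q f) l).card : ℝ) := by
    have : 0 < (cls (Q f) l).card := Finset.card_pos.2 ⟨_, ha 0 (Nat.zero_le _)⟩
    exact_mod_cast this
  obtain ⟨B, hB⟩ : ∃ B : ℝ, B = ((cls (Q f) l).card : ℝ) ^ (m + 1) := ⟨_, rfl⟩
  have hBB : 1 ≤ B := by rw [hB]; exact one_le_pow₀ hB1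
  rw [← hB] at hN ⊢
  have hdiff : |Y * V / B - t / B| ≤ e * (Y * V) := by
    rw [← sub_div, abs_div, abs_of_pos (by linarith : (0 : ℝ) < B)]
    rw [abs_sub_comm]
    exact (div_le_self (abs_nonneg _) hBB).trans htot
  have h6 : e * (Y * V) ≤ ε / 16 * (Y * V) := mul_le_mul_of_nonneg_right he2 hYV.le
  have h7 : ε * (Y * V / 2) ≤ ε * t := mul_le_mul_of_nonneg_left hlow hε.le
  have h8 : 0 ≤ ε * (Y * V) := by positivity
  rw [abs_le] at hN hdiff ⊢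
  obtain ⟨k1, k2⟩ := hN
  obtain ⟨k3, k4⟩ := hdiff
  constructor <;> linarith

end Pool.Agent.K1H73.LS
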