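import Pool.Agent.K1H73.LS.Vprog
import Pool.Agent.K1H73.LS.PatP

set_option autoImplicit false

/-!
# Residue patterns for a fixed system of polynomials in progressions with large moduli
-/

namespace Pool.Agent.K1H73.LS

open Polynomial Finset Filter
open Pool.Agent.K1H73.RDW
open Pool.Agent.W123.RP Pool.Agent.H373R2.T7 Pool.Agent.W123.RU Pool.Agent.W123.RU.Poly
open Pool.Agent.TH464.PW Pool.Agent.TH464.PO Pool.Agent.Y879.GL Pool.Agent.V11146.MK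

/-- a fixed system in progressions: the conditions -/
theorem us_prog {k : ℕ} (f : Fin k → ℤ[X]) (hf : Sys f)
    (htr : ∀ i j, ∀ t : ℕ, 1 ≤ t → ¬ Associated (f i) ((f j).comp (X + C (t : ℤ)))) (C' : ℕ) :
    ∃ D E : ℕ, 1 ≤ E ∧ ∀ᶠ X : ℕ in atTop, ∀ U : ℝ, ∀ q b : ℕ, 1 ≤ q → q ≤ X ^ C' → b ≤ X ^ C' →
      IsCoprime (GS f b) (q : ℤ) → US k D ((X : ℝ) ^ (E : ℝ)) U (sq q b f) := by
  classical
  obtain ⟨D, hD⟩ : ∃ D : ℕ, ∀ i, (f i).natDegree ≤ D :=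
    ⟨∑ i, (f i).natDegree, fun i => Finset.single_le_sum (f := fun i => (f i).natDegree) (fun _ _ => Nat.zero_le _)
      (mem_univ i)⟩
  obtain ⟨H0, hH0⟩ : ∃ H0 : ℕ, ∀ i n, |(f i).coeff n| ≤ (H0 : ℤ) := by
    refine ⟨∑ i, ∑ n ∈ range (D + 1), ((f i).coeff n).natAbs, fun i n => ?_⟩
    by_cases hn : n ∈ range (D + 1)
    · have h1 : ((f i).coeff n).natAbs ≤ ∑ n ∈ range (D + 1), ((f i).coeff n).natAbs :=
        Finset.single_le_sum (f := fun n => ((f i).coeff n).natAbs) (fun _ _ => Nat.zero_le _) hn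
      have h2 : ∑ n ∈ range (D + 1), ((f i).coeff n).natAbs ≤ ∑ i, ∑ n ∈ range (D + 1), ((f i).coeff n).natAbs :=
        Finset.single_le_sum (f := fun i => ∑ n ∈ range (D + 1), ((f i).coeff n).natAbs) (fun _ _ => Nat.zero_le _)
          (mem_univ i)
      rw [← Int.natCast_natAbs]
      exact_mod_cast h1.trans h2
    · rw [mem_range] at hn
      rw [coeff_eq_zero_of_natDegree_lt (by have := hD i; omega), abs_zero]
      exact Nat.cast_nonneg _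
  refine ⟨D, (C' + 1) * D + 1, by omega, ?_⟩
  filter_upwards [eventually_ge_atTop ((D + 1) * H0 + 2)] with X hX
  intro U q b hq1 hqX hbX hco
  apply us_sq (H0 := (H0 : ℤ)) U hf.irr (fun i => (hf.deg i).ne') hD hH0 hf.adm htr hq1
  · intro p hp hpq i hd
    have h1 : (p : ℤ) ∣ GS f b := (dvd_GS f hp b).2 ⟨i, hd⟩
    have h2 := hco.isUnit_of_dvd' h1 (show (p : ℤ) ∣ (q : ℤ) by exact_mod_cast hpq)
    rw [Int.isUnit_iff_natAbs_eq, Int.natAbs_natCast] at h2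
    exact hp.one_lt.ne' h2
  · have h1 : q + b ≤ X ^ (C' + 1) := by
      calc q + b ≤ 2 * X ^ C' := by omega
        _ ≤ X * X ^ C' := Nat.mul_le_mul_right _ (by omega)
        _ = X ^ (C' + 1) := by ring
    have h2 : (D + 1) * (H0 * (q + b) ^ D) ≤ X ^ ((C' + 1) * D + 1) := by
      calc (D + 1) * (H0 * (q + b) ^ D) = ((D + 1) * H0) * (q + b) ^ D := by ring
        _ ≤ X * (X ^ (C' + 1)) ^ D := Nat.mul_le_mul (by omega) (Nat.pow_le_pow_left h1 D)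
        _ = X ^ ((C' + 1) * D + 1) := by rw [← pow_mul]; ring
    have h3 : (((D + 1) * (H0 * (q + b) ^ D) : ℕ) : ℝ) ≤ ((X ^ ((C' + 1) * D + 1) : ℕ) : ℝ) := by exact_mod_cast h2
    rw [Real.rpow_natCast]
    push_cast at h3 ⊢
    exact h3

open Classical in
/-- **Residue patterns for a fixed system in progressions.** -/
theorem patF {k : ℕ} (f : Fin k → ℤ[X]) (hf : Sys f) (hk : 2 ≤ k)
    (htr : ∀ i j, ∀ t : ℕ, 1 ≤ t → ¬ Associated (f i) ((f j).comp (X + C (t : ℤ)))) (C' l m : ℕ) (hl : l.Prime)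
    (θ : ℝ) (hθ : 0 < θ) (ε : ℝ) (hε : 0 < ε) :
    ∃ r0 : ℕ, ∀ r : ℕ, r0 ≤ r → ∀ᶠ X : ℕ in atTop, ∀ y : ℕ, y = ⌊(X : ℝ) ^ (1 / (r : ℝ))⌋₊ →
      ∀ q b : ℕ, 1 ≤ q → q ≤ X ^ C' → b ≤ X ^ C' → IsCoprime (GS f b) (q : ℤ) →
      ∀ u Y : ℕ, (X : ℝ) ^ θ ≤ Y →
        0 < ((Ioc u (u + Y)).filter (Sf (Q (sq q b f)) y)).card ∧
        ∀ a : ℕ → ℕ, (∀ i ≤ m, a i ∈ cls (Q (sq q b f)) l) →
        |(((Ioc u (u + Y)).filter (fun g => Runs (Sf (Q (sq q b f)) y) (fun n => n % l) m a g)).card : ℝ) -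
          ((Ioc u (u + Y)).filter (Sf (Q (sq q b f)) y)).card / ((cls (Q (sq q b f)) l).card : ℝ) ^ (m + 1)| ≤
          ε * ((Ioc u (u + Y)).filter (Sf (Q (sq q b f)) y)).card := by
  obtain ⟨D, E, hE, hus⟩ := us_prog f hf htr C'
  obtain ⟨r0, h0⟩ := patP k D l m hl (E : ℝ) 1 θ (by exact_mod_cast hE) one_pos hθ ε hε
  refine ⟨max r0 1, fun r hr => ?_⟩
  obtain ⟨M, hM, hV⟩ := V_prog f hf hk C' r ((le_max_right _ _).trans hr)
  filter_upwards [h0 r ((le_max_left _ _).trans hr) M, hV, hus] with X h1 h2 h3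
  intro y hy q b hq1 hqX hbX hco u Y hY
  exact h1 (sq q b f) (h3 _ q b hq1 hqX hbX hco) y hy (by rw [hy]; exact h2 q b hq1 hqX hco) u Y hY

end Pool.Agent.K1H73.LS
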