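import Pool.Agent.K1H73.LS.PatC

set_option autoImplicit false

/-!
# Residue patterns of consecutive sifted integers, for finite sets of linear forms
-/

namespace Pool.Agent.K1H73.LS

open Finset Filter
open Pool.Agent.R490.LZ

lemma sb_one (L : Finset (ℤ × ℤ)) : sb 1 0 L = L := by
  unfold sb
  have e : ∀ l : ℤ × ℤ, (l.1 * ((1 : ℕ) : ℤ), l.1 * ((0 : ℕ) : ℤ) + l.2) = l := by
    intro l
    ext <;> simp
  simp only [e]
  exact Finset.image_id

lemma one_one (L : Finset (ℤ × ℤ)) : One L 1 0 := by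
  refine ⟨squarefree_one, by norm_num, ?_, ?_⟩
  · intro p hp hp1
    exact absurd (Nat.dvd_one.1 hp1) hp.one_lt.ne'
  · intro p hp hp1
    exact absurd (Nat.dvd_one.1 hp1) hp.one_lt.ne'

open Classical in
lemma Cw_prime (L : Finset (ℤ × ℤ)) {l : ℕ} (hl : l.Prime) :
    Cw L l = (range l).filter (fun b : ℕ => ∀ f ∈ L, ¬ (l : ℤ) ∣ f.1 * b + f.2) := by
  unfold Cw
  apply Finset.filter_congr
  intro b _
  constructor
  · intro h f hf
    exact h l hl dvd_rfl f hf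
  · intro h p hp hpl f hf
    rw [(Nat.prime_dvd_prime_iff_eq hp hl).1 hpl]
    exact h f hf

open Classical in
lemma Cw_card' (L : Finset (ℤ × ℤ)) {l : ℕ} (hl : l.Prime) :
    (Cw L l).card + ((range l).filter (fun m : ℕ => ∃ f ∈ L, (l : ℤ) ∣ f.1 * m + f.2)).card = l := by
  have h3 := Finset.card_filter_add_card_filter_not (s := Finset.range l)
    (fun m : ℕ => ∃ f ∈ L, (l : ℤ) ∣ f.1 * m + f.2)
  rw [card_range] at h3
  have h4 : Cw L l = (range l).filter (fun m : ℕ => ¬ ∃ f ∈ L, (l : ℤ) ∣ f.1 * m + f.2) := by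
    rw [Cw_prime L hl]
    apply Finset.filter_congr
    intro b _
    push Not
    rfl
  rw [h4]
  omega

open Classical in
/-- **Residue patterns for finite sets of linear forms**, uniformly. -/
theorem patL (k A l m : ℕ) (hk2 : 2 ≤ k) (hl : l.Prime) (δ' θ : ℝ) (hδ' : 0 < δ') (hθ : 0 < θ)
    (ε : ℝ) (hε : 0 < ε) :
    ∃ r0 : ℕ, ∀ r : ℕ, r0 ≤ r → ∀ᶠ X : ℕ in atTop, ∀ L : Finset (ℤ × ℤ), L.card = k →
      Good (X ^ A) L → NoT L ((X : ℝ) ^ δ') → ∀ y : ℕ,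
      y = ⌊(X : ℝ) ^ (1 / (r : ℝ))⌋₊ → ∀ u Y : ℕ, (X : ℝ) ^ θ ≤ Y →
        0 < ((Ioc u (u + Y)).filter (Ro L y)).card ∧ ∀ a : ℕ → ℕ, (∀ i ≤ m, a i ∈ Cw L l) →
        |(((Ioc u (u + Y)).filter
            (fun g => Pool.Agent.V11146.MK.Runs (Ro L y) (fun n => n % l) m a g)).card : ℝ) -
          ((Ioc u (u + Y)).filter (Ro L y)).card / ((Cw L l).card : ℝ) ^ (m + 1)| ≤
          ε * ((Ioc u (u + Y)).filter (Ro L y)).card := by
  obtain ⟨r0, h0⟩ := patC k A 1 l m hk2 hl δ' θ hδ' hθ ε hε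
  refine ⟨r0, fun r hr => ?_⟩
  filter_upwards [h0 r hr] with X hX
  intro L hL hG hn y hy u Y hY
  have h := hX L 1 0 hL le_rfl (one_one L) (by rw [sb_one]; exact hG) (by rw [sb_one]; exact hn) y hy u Y hY
  rw [one_mul] at h
  exact h

end Pool.Agent.K1H73.LS
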