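import Pool.Agent.K1H73.LS.Gap

set_option autoImplicit false

/-!
# The law after primes for forms whose zeros leave only one class modulo some small primes
-/

namespace Pool.Agent.K1H73.LS

open Finset Filter
open Pool.Agent.R490.LZ
open Pool.Agent.TH464.PO (pw Ck pw_nonneg Ck_le_one Ck_nonneg pw_zero_deriv pw_succ_deriv)

/-- the Poisson probability of a finite set -/
noncomputable def PJ (J : Finset ℕ) (x : ℝ) : ℝ := ∑ j ∈ J, pw j x

lemma PJ_le (J : Finset ℕ) {x : ℝ} (hx : 0 ≤ x) : 0 ≤ PJ J x ∧ PJ J x ≤ 1 := by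
  refine ⟨Finset.sum_nonneg fun j _ => pw_nonneg j x hx, ?_⟩
  refine le_trans ?_ (Ck_le_one (J.sup id + 1) x hx)
  unfold PJ Ck
  apply Finset.sum_le_sum_of_subset_of_nonneg
  · intro j hj
    rw [mem_range]
    have : j ≤ J.sup id := Finset.le_sup (f := id) hj
    omega
  · intro j _ _
    exact pw_nonneg j x hx

lemma PJ_deriv (J : Finset ℕ) (x : ℝ) :
    HasDerivAt (PJ J) (∑ j ∈ J, ((if j = 0 then 0 else pw (j - 1) x) - pw j x)) x := by
  have h : ∀ j ∈ J, HasDerivAt (fun x => pw j x) ((if j = 0 then 0 else pw (j - 1) x) - pw j x) x := by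
    intro j _
    rcases j with _ | j
    · simpa using pw_zero_deriv x
    · simpa using pw_succ_deriv j x
  have h2 := HasDerivAt.fun_sum h
  exact h2

lemma PJ_lip (J : Finset ℕ) {x x' : ℝ} (hx : 0 ≤ x') (hxx : x' ≤ x) : |PJ J x - PJ J x'| ≤ x - x' := by
  rcases hxx.eq_or_lt with h0 | h0
  · rw [h0]
    simp
  obtain ⟨c, hc, hd⟩ := exists_hasDerivAt_eq_slope (PJ J) _ h0
    (fun y _ => (PJ_deriv J y).continuousAt.continuousWithinAt) (fun y _ => PJ_deriv J y)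
  have hc0 : 0 ≤ c := by linarith [hc.1]
  have h1 := PJ_le J hc0
  have h2 : 0 ≤ ∑ j ∈ J, (if j = 0 then 0 else pw (j - 1) c) ∧
      ∑ j ∈ J, (if j = 0 then 0 else pw (j - 1) c) ≤ 1 := by
    constructor
    · apply Finset.sum_nonneg
      intro j _
      split_ifs
      · exact le_rfl
      · exact pw_nonneg _ _ hc0
    · refine le_trans ?_ (Ck_le_one (J.sup id + 1) c hc0)
      have e : ∑ j ∈ J, (if j = 0 then 0 else pw (j - 1) c) =
          ∑ j ∈ J.filter (fun j => j ≠ 0), pw (j - 1) c := by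
        rw [Finset.sum_filter]
        apply Finset.sum_congr rfl
        intro j _
        by_cases hj : j = 0 <;> simp [hj]
      rw [e]
      have e2 : ∑ j ∈ J.filter (fun j => j ≠ 0), pw (j - 1) c =
          ∑ i ∈ (J.filter (fun j => j ≠ 0)).image (fun j => j - 1), pw i c := by
        rw [Finset.sum_image]
        intro i hi j hj hij
        rw [coe_filter, Set.mem_ofPred_eq] at hi hj
        have := hi.2
        have := hj.2
        simp only at hij
        omega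
      rw [e2]
      unfold Ck
      apply Finset.sum_le_sum_of_subset_of_nonneg
      · intro i hi
        rw [mem_image] at hi
        obtain ⟨j, hj, rfl⟩ := hi
        rw [mem_range]
        have : j ≤ J.sup id := Finset.le_sup (f := id) (mem_filter.1 hj).1
        omega
      · intro j _ _
        exact pw_nonneg j c hc0
  rw [Finset.sum_sub_distrib] at hd
  have h3 : PJ J c = ∑ j ∈ J, pw j c := rfl
  rw [← h3] at hd
  have h4 : (PJ J x - PJ J x') = (∑ j ∈ J, (if j = 0 then 0 else pw (j - 1) c) - PJ J c) * (x - x') := by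
    rw [hd]
    field_simp [sub_ne_zero.2 h0.ne']
  rw [h4, abs_mul, abs_of_pos (sub_pos.2 h0)]
  have h5 : |∑ j ∈ J, (if j = 0 then 0 else pw (j - 1) c) - PJ J c| ≤ 1 := by
    rw [abs_le]
    constructor <;> linarith [h1.1, h1.2, h2.1, h2.2]
  calc |∑ j ∈ J, (if j = 0 then 0 else pw (j - 1) c) - PJ J c| * (x - x') ≤ 1 * (x - x') :=
        mul_le_mul_of_nonneg_right h5 (by linarith)
    _ = x - x' := one_mul _

variable {L : Finset (ℤ × ℤ)} {w c : ℕ}

/-- the densities relative to the primes -/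
lemma One.Wr (h : One L w c) {y : ℕ} (hy : w ≤ y) : R490.LZ.Wr (sb w c L) y = w * R490.LZ.Wr L y := by
  rw [← W_eq, ← W_eq, h.De hy, mul_div_assoc]

lemma aux1 {ε : ℝ} (hε : 0 < ε) : 1 / ε ≤ (1 + 1 / ε) ^ 2 := by
  have : 0 < 1 / ε := by positivity
  nlinarith

lemma aux2 {ε w : ℝ} (hε : 0 < ε) (hw : 1 ≤ w) : 64 * (1 / ε) ≤ 64 * w * (1 + 1 / ε) ^ 2 := by
  have h1 : 1 * (1 + 1 / ε) ^ 2 ≤ w * (1 + 1 / ε) ^ 2 := mul_le_mul_of_nonneg_right hw (by positivity)
  have h2 := aux1 hε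
  linarith

open Classical in
/-- **The law after primes, one class modulo small primes.** -/
theorem primeC (a w k A : ℕ) (haw : Squarefree (a * w)) (hk2 : 2 ≤ k) (δ' θ δ : ℝ) (hδ' : 0 < δ') (hθ : 0 < θ)
    (hδ : 0 < δ) (hδ1 : δ ≤ 1) (x0 ε : ℝ) (hε : 0 < ε) (hε1 : ε ≤ 1) :
    ∃ r0 : ℕ, 2 ≤ r0 ∧ ∀ r : ℕ, r0 ≤ r → ∀ᶠ N : ℕ in atTop, ∀ (L : Finset (ℤ × ℤ)) (b c : ℕ), L.card = k →
      ((a : ℤ), (b : ℤ)) ∈ L → ((a * c + b : ℕ) : ℝ) ≤ (N : ℝ) ^ (θ / 4) →
      (∀ p : ℕ, p.Prime → p ∣ a → ∀ l ∈ L, (p : ℤ) ∣ l.1) → One L w c →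
      Good (N ^ A) (sb w c L) → NoT (sb w c L) ((N : ℝ) ^ δ') → ∀ y : ℕ, y = ⌊(N : ℝ) ^ (1 / (r : ℝ))⌋₊ →
      0 < Wr L y ∧ ∀ X : ℕ, (N : ℝ) ^ θ ≤ X → ∀ u Y : ℕ, δ * X ≤ Y → u + Y ≤ X →
      |((Pr a b L y u Y).card : ℝ) * Real.log X - Y * Wr L y| ≤ ε * (Y * Wr L y) ∧
      ∀ T : ℕ, T * De L y ≤ x0 → ∀ J : Finset ℕ,
      |(((Pr a b L y u Y).filter (fun n => Nx L y T n ∈ J)).card : ℝ) - (Pr a b L y u Y).card *
          ∑ j ∈ J, Real.exp (-(T * De L y)) * (T * De L y) ^ j / j.factorial| ≤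
        ε * (Pr a b L y u Y).card := by
  have hw0 : 0 < w := Nat.pos_of_ne_zero (fun h => by simp [h] at haw)
  have ha0 : 0 < a := Nat.pos_of_ne_zero (fun h => by simp [h] at haw)
  have hwR : (0 : ℝ) < w := by exact_mod_cast hw0
  have hw1 : (1 : ℝ) ≤ w := by exact_mod_cast hw0
  obtain ⟨δ1, hδ1e⟩ : ∃ δ1 : ℝ, δ1 = δ / (2 * w) := ⟨_, rfl⟩
  have hδ10 : 0 < δ1 := by rw [hδ1e]; positivity
  have hδ11 : δ1 ≤ 1 := by
    rw [hδ1e, div_le_one (by positivity)]
    linarith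
  obtain ⟨r0, hr0, h0⟩ := primeL (a * w) k A haw hk2 δ' θ δ1 hδ' hθ hδ10 hδ11 x0 (ε / 8) (by linarith) (by linarith)
  refine ⟨r0, hr0, ?_⟩
  intro r hr
  have hr2 : 2 ≤ r := hr0.trans hr
  obtain ⟨M, hM, hup⟩ := V_up A r hr2
  obtain ⟨v, hv, hlow⟩ := low k A r hr2
  have hlog : ∀ᶠ N : ℕ in atTop, 16 * M / ε ≤ Real.log N :=
    (Real.tendsto_log_atTop.comp tendsto_natCast_atTop_atTop).eventually_ge_atTop _
  have hyb : ∀ᶠ N : ℕ in atTop, (w : ℝ) ≤ (N : ℝ) ^ (1 / (r : ℝ)) :=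
    ((tendsto_rpow_atTop (by positivity)).comp tendsto_natCast_atTop_atTop).eventually_ge_atTop _
  have hth : Tendsto (fun N : ℕ => (N : ℝ) ^ θ) atTop atTop :=
    (tendsto_rpow_atTop hθ).comp tendsto_natCast_atTop_atTop
  -- `log X` is small compared with the square root of `X`
  obtain ⟨X0, hX0⟩ : ∃ X0 : ℝ, ∀ x : ℝ, X0 ≤ x → Real.log x ≤ x ^ (1 / 2 : ℝ) := by
    have h1 := (isLittleO_log_rpow_atTop (show (0 : ℝ) < 1 / 2 by norm_num)).bound (show (0 : ℝ) < 1 by norm_num)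
    obtain ⟨X0, hX0⟩ := Filter.eventually_atTop.1 (h1.and (eventually_ge_atTop 1))
    refine ⟨X0, fun x hx => ?_⟩
    obtain ⟨h2, h3⟩ := hX0 x hx
    have hx0 : (0 : ℝ) ≤ x := by linarith
    rw [Real.norm_of_nonneg (Real.log_nonneg h3), Real.norm_of_nonneg (Real.rpow_nonneg hx0 _), one_mul] at h2
    exact h2
  obtain ⟨K, hK⟩ : ∃ K : ℝ, K = 64 * w ^ 2 * (1 + 1 / ε) ^ 2 / (v * δ) := ⟨_, rfl⟩
  have hK0 : 0 < K := by rw [hK]; positivity
  filter_upwards [h0 r hr, hup, hlow, hlog, hyb, hth.eventually_ge_atTop (max X0 (4 * w / δ + 4)),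
    big (K + 1) (k + 1) (show (0 : ℝ) < θ / 2 by linarith), eventually_ge_atTop 3] with N
    hN1 hN2 hN3 hN4 hN5 hN6 hN7 hN8
  intro L b c hL hmem hb hdv hone hG hn y hy
  have hcard : (sb w c L).card = k := by rw [sb_card hw0, hL]
  have hwy : w ≤ y := by
    rw [hy]
    exact Nat.le_floor hN5
  have hDe := hone.De hwy
  have hWr := hone.Wr hwy
  have hup' := hN2 (sb w c L) (by omega) hG
  have hlow' := hN3 (sb w c L) hcard hG
  rw [← hy] at hup' hlow'
  have hN8R : (3 : ℝ) ≤ N := by exact_mod_cast hN8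
  have hlogpos : 0 < Real.log N := Real.log_pos (by linarith)
  have h1 := hN1 (sb w c L) (a * c + b) hcard
    (by
      refine mem_image.2 ⟨_, hmem, ?_⟩
      push_cast
      rfl)
    hb
    (by
      intro p hp hpd l hl
      obtain ⟨l', hl', rfl⟩ := mem_image.1 hl
      show (p : ℤ) ∣ l'.1 * (w : ℤ)
      rcases (Nat.Prime.dvd_mul hp).1 hpd with h2 | h2
      · exact Dvd.dvd.mul_right (hdv p hp h2 l' hl') _
      · have h3 : (p : ℤ) ∣ (w : ℤ) := by exact_mod_cast h2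
        exact Dvd.dvd.mul_left h3 _)
    hG hn y hy
  obtain ⟨hWpos', h2⟩ := h1
  have hWpos : 0 < Wr L y := by
    rw [hWr] at hWpos'
    exact (pos_iff_pos_of_mul_pos hWpos').1 hwR
  refine ⟨hWpos, ?_⟩
  intro X hX u Y hY huY
  obtain ⟨D, hD⟩ : ∃ D : ℝ, D = De L y := ⟨_, rfl⟩
  obtain ⟨D', hD'⟩ : ∃ D' : ℝ, D' = De (sb w c L) y := ⟨_, rfl⟩
  obtain ⟨W, hW⟩ : ∃ W : ℝ, W = Wr L y := ⟨_, rfl⟩
  obtain ⟨W', hW'⟩ : ∃ W' : ℝ, W' = Wr (sb w c L) y := ⟨_, rfl⟩
  rw [← hD, ← hD'] at hDe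
  rw [← hW, ← hW'] at hWr
  rw [← hD'] at hup' hlow'
  rw [← hW] at hWpos
  have hD'pos : 0 < D' := lt_of_lt_of_le (by positivity) hlow'
  have hDpos : 0 < D := by
    rw [hDe] at hD'pos
    exact (pos_iff_pos_of_mul_pos hD'pos).1 hwR
  have hX1 : X0 ≤ X := ((le_max_left _ _).trans hN6).trans hX
  have hX2 : 4 * w / δ + 4 ≤ X := ((le_max_right _ _).trans hN6).trans hX
  have hXpos : (4 : ℝ) ≤ X := by
    have : 0 < 4 * w / δ := by positivity
    linarith
  have hlogX : 0 < Real.log X := Real.log_pos (by linarith)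
  have hdivY : (Y : ℝ) / w - 1 ≤ ((Y / w : ℕ) : ℝ) ∧ ((Y / w : ℕ) : ℝ) ≤ (Y : ℝ) / w := by
    constructor
    · have h1 := Nat.div_add_mod Y w
      have h2 := Nat.mod_lt Y hw0
      have h3 : (Y : ℝ) = w * ((Y / w : ℕ) : ℝ) + ((Y % w : ℕ) : ℝ) := by exact_mod_cast h1.symm
      have h4 : ((Y % w : ℕ) : ℝ) ≤ w := by exact_mod_cast h2.le
      rw [div_sub_one hwR.ne', div_le_iff₀ hwR]
      linarith
    · exact Nat.cast_div_le
  have hδX : 4 * w ≤ δ * X := by
    have h3 : 4 * w / δ ≤ X := by linarith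
    rw [div_le_iff₀ hδ] at h3
    linarith
  have hYw : δ1 * X ≤ ((Y / w : ℕ) : ℝ) := by
    refine le_trans ?_ hdivY.1
    have h4 : δ1 * X + 1 ≤ (Y : ℝ) / w := by
      rw [le_div_iff₀ hwR, hδ1e]
      have h5 : (δ / (2 * w) * X + 1) * w = δ * X / 2 + w := by field_simp
      rw [h5]
      linarith
    linarith
  have huw : u / w + Y / w ≤ X := by
    have h3 : u / w ≤ u := Nat.div_le_self _ _
    have h4 : Y / w ≤ Y := Nat.div_le_self _ _
    omega
  obtain ⟨hm1, hm2⟩ := h2 X hX (u / w) (Y / w) hYw huw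
  -- comparison
  have hP : ∀ m : ℕ, ((a * m + b).Prime ∧ Ro L y m) → m % w = c := fun m hm => hone.cls hwy hm.2
  have hPP : ∀ x : ℕ, ((a * (w * x + c) + b).Prime ∧ Ro L y (w * x + c)) ↔
      ((a * w * x + (a * c + b)).Prime ∧ Ro (sb w c L) y x) := by
    intro x
    rw [ro_sb]
    have e : a * (w * x + c) + b = a * w * x + (a * c + b) := by ring
    rw [e]
  have hcmp := cmp (w := w) (c := c) (P := fun m => (a * m + b).Prime ∧ Ro L y m)
    (P' := fun x => (a * w * x + (a * c + b)).Prime ∧ Ro (sb w c L) y x) hone.lt hP hPP u Y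
  obtain ⟨n, hn'⟩ : ∃ n : ℝ, n = ((Pr a b L y u Y).card : ℝ) := ⟨_, rfl⟩
  obtain ⟨n', hn''⟩ : ∃ n' : ℝ, n' = ((Pr (a * w) (a * c + b) (sb w c L) y (u / w) (Y / w)).card : ℝ) := ⟨_, rfl⟩
  have hc1 : n ≤ n' + 2 := by rw [hn', hn'']; exact_mod_cast hcmp.1
  have hc2 : n' ≤ n + 1 := by rw [hn', hn'']; exact_mod_cast hcmp.2
  rw [← hn'', ← hW'] at hm1
  rw [← hn'] 
  have hn0 : 0 ≤ n := by rw [hn']; exact Nat.cast_nonneg _
  have hn'0 : 0 ≤ n' := by rw [hn'']; exact Nat.cast_nonneg _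
  obtain ⟨Y', hY'⟩ : ∃ Y' : ℝ, Y' = ((Y / w : ℕ) : ℝ) := ⟨_, rfl⟩
  rw [← hY'] at hm1 hdivY hYw
  have hY0 : (0 : ℝ) ≤ Y := Nat.cast_nonneg Y
  have hy1 : Y' * W' ≤ Y * W := by
    rw [hWr]
    calc Y' * (w * W) ≤ (Y : ℝ) / w * (w * W) := mul_le_mul_of_nonneg_right hdivY.2 (by positivity)
      _ = Y * W := by field_simp
  have hy2 : Y * W - w * W ≤ Y' * W' := by
    rw [hWr]
    calc Y * W - w * W = ((Y : ℝ) / w - 1) * (w * W) := by field_simp
      _ ≤ Y' * (w * W) := mul_le_mul_of_nonneg_right hdivY.1 (by positivity)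
  -- the size
  have hDle : D ≤ W := by
    have h3 : De L y / Pool.Agent.R490.Sg.D1 y = Wr L y := W_eq L y
    rw [← hD, ← hW] at h3
    have h4 : 0 < Pool.Agent.R490.Sg.D1 y ∧ Pool.Agent.R490.Sg.D1 y ≤ 1 := by
      rw [← Pool.Agent.R490.Sg.Vz_D1]
      refine ⟨Pool.Agent.Y879.PR.Vz_pos y, ?_⟩
      rw [Pool.Agent.R490.Sg.Vz_D1]
      unfold Pool.Agent.R490.Sg.D1
      apply Finset.prod_le_one
      · intro p hp
        have hpp := (mem_filter.1 hp).2
        have hp1 : (1 : ℝ) ≤ p := by exact_mod_cast hpp.one_lt.le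
        rw [sub_nonneg, div_le_one (by linarith)]
        exact hp1
      · intro p hp
        have : (0 : ℝ) ≤ 1 / (p : ℝ) := by positivity
        linarith
    rw [← h3, le_div_iff₀ h4.1]
    calc D * Pool.Agent.R490.Sg.D1 y ≤ D * 1 := mul_le_mul_of_nonneg_left h4.2 hDpos.le
      _ = D := mul_one _
  have hWlow : v / Real.log N ^ (k + 1) / w ≤ W := by
    rw [div_le_iff₀ hwR]
    refine hlow'.trans ?_
    rw [hDe, mul_comm]
    exact mul_le_mul_of_nonneg_right hDle hwR.le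
  have hsq : (X : ℝ) ^ (1 / 2 : ℝ) * (X : ℝ) ^ (1 / 2 : ℝ) = X := by
    rw [← Real.rpow_add (by linarith)]
    norm_num
  have hsX : (N : ℝ) ^ (θ / 2) ≤ (X : ℝ) ^ (1 / 2 : ℝ) := by
    have h3 := Real.rpow_le_rpow (Real.rpow_nonneg (Nat.cast_nonneg N) θ) hX (show (0 : ℝ) ≤ 1 / 2 by norm_num)
    rw [← Real.rpow_mul (Nat.cast_nonneg N)] at h3
    have e : θ * (1 / 2) = θ / 2 := by ring
    rwa [e] at h3
  have hLk : 0 < Real.log N ^ (k + 1) := by positivity
  have hsX1 : K * Real.log N ^ (k + 1) ≤ (X : ℝ) ^ (1 / 2 : ℝ) := by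
    refine le_trans ?_ (hN7.trans hsX)
    apply mul_le_mul_of_nonneg_right _ hLk.le
    linarith
  obtain ⟨sX, hsXe⟩ : ∃ sX : ℝ, sX = (X : ℝ) ^ (1 / 2 : ℝ) := ⟨_, rfl⟩
  rw [← hsXe] at hsq hsX1
  have hsX0 : 0 < sX := by rw [hsXe]; exact Real.rpow_pos_of_pos (by linarith) _
  have hlogX2 : Real.log X ≤ sX := by rw [hsXe]; exact hX0 X hX1
  -- `Y W` is large compared with `log X`
  have hYW : 64 * w * (1 + 1 / ε) ^ 2 * sX ≤ Y * W := by
    have h3 : (δ * (sX * sX)) * (v / Real.log N ^ (k + 1) / w) ≤ Y * W := by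
      rw [hsq]
      exact mul_le_mul hY hWlow (by positivity) hY0
    refine le_trans ?_ h3
    have h4 : (δ * (sX * (K * Real.log N ^ (k + 1)))) * (v / Real.log N ^ (k + 1) / w) =
        64 * w * (1 + 1 / ε) ^ 2 * sX := by
      rw [hK]
      field_simp
    rw [← h4]
    apply mul_le_mul_of_nonneg_right _ (by positivity)
    apply mul_le_mul_of_nonneg_left _ hδ.le
    exact mul_le_mul_of_nonneg_left hsX1 hsX0.le
  have he2 : 1 / ε ≤ (1 + 1 / ε) ^ 2 := aux1 hε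
  have hA1 : 2 * Real.log X ≤ ε / 8 * (Y * W) := by
    have h3 : 64 * (1 / ε) * sX ≤ Y * W := by
      refine le_trans ?_ hYW
      exact mul_le_mul_of_nonneg_right (aux2 hε hw1) hsX0.le
    have h4 : ε / 8 * (64 * (1 / ε) * sX) ≤ ε / 8 * (Y * W) := mul_le_mul_of_nonneg_left h3 (by linarith)
    have h5 : ε / 8 * (64 * (1 / ε) * sX) = 8 * sX := by field_simp; norm_num
    rw [h5] at h4
    linarith
  have hA2 : w * W ≤ ε / 8 * (Y * W) := by
    have h3 : (w : ℝ) ≤ ε / 8 * Y := by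
      have h4 : 64 * w * (1 + 1 / ε) ^ 2 * sX ≤ Y * W := hYW
      -- `W ≤ ...`: use `Y ≥ δ X`
      have h5 : K * Real.log N ^ (k + 1) ≤ sX := hsX1
      have h6 : 1 ≤ sX := by
        have h7 : (1 : ℝ) ≤ X := by linarith
        rw [hsXe]
        exact Real.one_le_rpow h7 (by norm_num)
      have hv1 : v ≤ Real.log N ^ (k + 1) * 1 := by
        have h8 : D' ≤ 1 := by
          rw [hD']
          unfold De
          apply Finset.prod_le_one
          · intro p hp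
            have hpp := (mem_filter.1 hp).2
            have hp0 : (0 : ℝ) < p := by exact_mod_cast hpp.pos
            rw [sub_nonneg, div_le_one hp0]
            have := card_filter_le (Finset.range p) (fun m : ℕ => ∃ l ∈ sb w c L, (p : ℤ) ∣ l.1 * m + l.2)
            rw [card_range] at this
            exact_mod_cast this
          · intro p _
            have : (0 : ℝ) ≤ (((Finset.range p).filter
                (fun m : ℕ => ∃ l ∈ sb w c L, (p : ℤ) ∣ l.1 * m + l.2)).card : ℝ) / p := by positivity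
            linarith
        have h9 := hlow'.trans h8
        rw [div_le_iff₀ hLk] at h9
        linarith
      have h10 : 64 * w ^ 2 * (1 + 1 / ε) ^ 2 / δ ≤ sX := by
        refine le_trans ?_ h5
        rw [hK]
        have h11 : 64 * (w : ℝ) ^ 2 * (1 + 1 / ε) ^ 2 / (v * δ) * Real.log N ^ (k + 1) =
            64 * w ^ 2 * (1 + 1 / ε) ^ 2 / δ * (Real.log N ^ (k + 1) / v) := by field_simp
        rw [h11]
        have h12 : 1 ≤ Real.log N ^ (k + 1) / v := by
          rw [le_div_iff₀ hv]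
          linarith
        have h13 : 0 ≤ 64 * (w : ℝ) ^ 2 * (1 + 1 / ε) ^ 2 / δ := by positivity
        exact le_mul_of_one_le_right h13 h12
      have h14 : sX ≤ X := by
        rw [← hsq]
        exact le_mul_of_one_le_left hsX0.le h6
      have h15 : 64 * w ^ 2 * (1 + 1 / ε) ^ 2 ≤ δ * X := by
        rw [div_le_iff₀ hδ] at h10
        have h20 := mul_le_mul_of_nonneg_right h14 hδ.le
        linarith
      have h16 : 64 * w * (1 / ε) ≤ Y := by
        refine le_trans ?_ hY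
        refine le_trans ?_ h15
        have h17 : (w : ℝ) ≤ w ^ 2 := by
          rw [sq]
          exact le_mul_of_one_le_left hwR.le hw1
        calc 64 * (w : ℝ) * (1 / ε) ≤ 64 * w ^ 2 * (1 + 1 / ε) ^ 2 := by
              apply mul_le_mul (by linarith) he2 (by positivity) (by positivity)
          _ = _ := rfl
      have h18 : ε / 8 * (64 * w * (1 / ε)) ≤ ε / 8 * Y := mul_le_mul_of_nonneg_left h16 (by linarith)
      have h19 : ε / 8 * (64 * w * (1 / ε)) = 8 * w := by field_simp; norm_num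
      rw [h19] at h18
      linarith
    calc w * W ≤ (ε / 8 * Y) * W := mul_le_mul_of_nonneg_right h3 hWpos.le
      _ = ε / 8 * (Y * W) := by ring
  have hYW0 : 0 < Y * W := by
    have : 0 < 64 * w * (1 + 1 / ε) ^ 2 * sX := by positivity
    linarith
  have hfirst : |n * Real.log X - Y * W| ≤ ε * (Y * W) := by
    have h3 : n * Real.log X ≤ (n' + 2) * Real.log X := mul_le_mul_of_nonneg_right hc1 hlogX.le
    have h4 : n' * Real.log X ≤ (n + 1) * Real.log X := mul_le_mul_of_nonneg_right hc2 hlogX.le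
    have h5 : ε / 8 * (Y' * W') ≤ ε / 8 * (Y * W) := mul_le_mul_of_nonneg_left hy1 (by linarith)
    rw [abs_le] at hm1 ⊢
    obtain ⟨k1, k2⟩ := hm1
    constructor <;> linarith
  rw [← hW]
  refine ⟨hfirst, ?_⟩
  intro T hT J
  rw [← hD] at hT ⊢
  have hdivT : (T : ℝ) / w - 1 ≤ ((T / w : ℕ) : ℝ) ∧ ((T / w : ℕ) : ℝ) ≤ (T : ℝ) / w := by
    constructor
    · have h1 := Nat.div_add_mod T w
      have h2 := Nat.mod_lt T hw0
      have h3 : (T : ℝ) = w * ((T / w : ℕ) : ℝ) + ((T % w : ℕ) : ℝ) := by exact_mod_cast h1.symm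
      have h4 : ((T % w : ℕ) : ℝ) ≤ w := by exact_mod_cast h2.le
      rw [div_sub_one hwR.ne', div_le_iff₀ hwR]
      linarith
    · exact Nat.cast_div_le
  obtain ⟨T', hT'⟩ : ∃ T' : ℝ, T' = ((T / w : ℕ) : ℝ) := ⟨_, rfl⟩
  have hT0 : (0 : ℝ) ≤ T := Nat.cast_nonneg T
  have hT'0 : 0 ≤ T' := by rw [hT']; exact Nat.cast_nonneg _
  rw [← hT'] at hdivT
  have hx1 : T' * D' ≤ T * D := by
    rw [hDe]
    calc T' * (w * D) ≤ (T : ℝ) / w * (w * D) := mul_le_mul_of_nonneg_right hdivT.2 (by positivity)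
      _ = T * D := by field_simp
  have hx2 : T * D - w * D ≤ T' * D' := by
    rw [hDe]
    calc T * D - w * D = ((T : ℝ) / w - 1) * (w * D) := by field_simp
      _ ≤ T' * (w * D) := mul_le_mul_of_nonneg_right hdivT.1 (by positivity)
  have hm3 := hm2 (T / w) (by rw [← hD', ← hT']; linarith) J
  rw [← hn'', ← hD', ← hT'] at hm3
  have hwD : w * D ≤ ε / 16 := by
    rw [← hDe]
    refine hup'.trans ?_
    rw [div_le_iff₀ hlogpos]
    rw [div_le_iff₀ hε] at hN4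
    linarith
  have hcmp2 := cmp (w := w) (c := c) (P := fun m => ((a * m + b).Prime ∧ Ro L y m) ∧ Nx L y T m ∈ J)
    (P' := fun x => ((a * w * x + (a * c + b)).Prime ∧ Ro (sb w c L) y x) ∧ Nx (sb w c L) y (T / w) x ∈ J) hone.lt
    (fun m hm => hP m hm.1) (fun x => by
      have hs := hone.succ hwy x T
      have e : Nx L y T (w * x + c) = Nx (sb w c L) y (T / w) x := hs
      rw [hPP x, e]) u Y
  have ef : ∀ (P R : ℕ → Prop) (S : Finset ℕ), S.filter (fun m => P m ∧ R m) = (S.filter P).filter R := by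
    intro P R S
    rw [Finset.filter_filter]
  obtain ⟨g, hg⟩ : ∃ g : ℝ, g = (((Pr a b L y u Y).filter (fun n => Nx L y T n ∈ J)).card : ℝ) := ⟨_, rfl⟩
  obtain ⟨g', hg'⟩ : ∃ g' : ℝ, g' = (((Pr (a * w) (a * c + b) (sb w c L) y (u / w) (Y / w)).filter
    (fun n => Nx (sb w c L) y (T / w) n ∈ J)).card : ℝ) := ⟨_, rfl⟩
  have eg : (((Pr a b L y u Y).filter (fun n => Nx L y T n ∈ J)).card) =
      ((Ioc u (u + Y)).filter (fun m => ((a * m + b).Prime ∧ Ro L y m) ∧ Nx L y T m ∈ J)).card := by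
    unfold Pr
    rw [Finset.filter_filter]
  have eg' : (((Pr (a * w) (a * c + b) (sb w c L) y (u / w) (Y / w)).filter
    (fun n => Nx (sb w c L) y (T / w) n ∈ J)).card) =
      ((Ioc (u / w) (u / w + Y / w)).filter (fun x => ((a * w * x + (a * c + b)).Prime ∧ Ro (sb w c L) y x) ∧
        Nx (sb w c L) y (T / w) x ∈ J)).card := by
    unfold Pr
    rw [Finset.filter_filter]
  have hg1 : g ≤ g' + 2 := by rw [hg, hg', eg, eg']; exact_mod_cast hcmp2.1
  have hg2 : g' ≤ g + 1 := by rw [hg, hg', eg, eg']; exact_mod_cast hcmp2.2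
  rw [← hg'] at hm3
  rw [← hg]
  obtain ⟨F, hF⟩ : ∃ F : ℝ, F = ∑ j ∈ J, Real.exp (-(T * D)) * (T * D) ^ j / (j.factorial : ℝ) := ⟨_, rfl⟩
  obtain ⟨F', hF'⟩ : ∃ F' : ℝ, F' = ∑ j ∈ J, Real.exp (-(T' * D')) * (T' * D') ^ j / (j.factorial : ℝ) :=
    ⟨_, rfl⟩
  have eF : F = PJ J (T * D) := hF
  have eF' : F' = PJ J (T' * D') := hF'
  have hFl : |F - F'| ≤ w * D := by
    rw [eF, eF']
    exact (PJ_lip J (mul_nonneg hT'0 hD'pos.le) hx1).trans (by linarith)
  have hF1 : 0 ≤ F ∧ F ≤ 1 := by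
    rw [eF]
    exact PJ_le J (mul_nonneg hT0 hDpos.le)
  rw [← hF'] at hm3
  rw [← hF]
  -- `n` is large
  have hnlarge : 32 / ε ≤ n := by
    have h3 : (1 - ε) * (Y * W) ≤ n * Real.log X := by
      rw [abs_le] at hfirst
      linarith [hfirst.1]
    -- a better constant from the first part
    have h4 : Y * W / 2 ≤ n * Real.log X := by
      have h5 : ε / 8 * (Y' * W') ≤ ε / 8 * (Y * W) := mul_le_mul_of_nonneg_left hy1 (by linarith)
      have h6 : n' * Real.log X ≤ (n + 1) * Real.log X := mul_le_mul_of_nonneg_right hc2 hlogX.le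
      rw [abs_le] at hm1
      have h7 : ε * (Y * W) ≤ 1 * (Y * W) := mul_le_mul_of_nonneg_right hε1 hYW0.le
      obtain ⟨k1, k2⟩ := hm1
      linarith
    have h8 : n * Real.log X ≤ n * sX := mul_le_mul_of_nonneg_left hlogX2 hn0
    have h9 : 32 * (1 / ε) * sX ≤ n * sX := by
      have h10 : 64 * (1 / ε) * sX ≤ Y * W := by
        refine le_trans ?_ hYW
        exact mul_le_mul_of_nonneg_right (aux2 hε hw1) hsX0.le
      linarith
    have h11 := le_of_mul_le_mul_right h9 hsX0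
    rw [mul_one_div] at h11
    exact h11
  have hεn : 32 ≤ ε * n := by
    rw [div_le_iff₀ hε] at hnlarge
    linarith
  have hnF : |n' * F' - n * F| ≤ (w * D) * n' + 2 := by
    have h3 : n' * F' - n * F = n' * (F' - F) + (n' - n) * F := by ring
    rw [h3]
    refine (abs_add_le _ _).trans ?_
    rw [abs_mul, abs_mul, abs_of_nonneg hn'0, abs_of_nonneg hF1.1]
    have h4 : |F' - F| ≤ w * D := by rw [abs_sub_comm]; exact hFl
    have h5 : |n' - n| ≤ 2 := by rw [abs_le]; constructor <;> linarith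
    have h6 : n' * |F' - F| ≤ n' * (w * D) := mul_le_mul_of_nonneg_left h4 hn'0
    have h7 : |n' - n| * F ≤ 2 * 1 := mul_le_mul h5 hF1.2 hF1.1 (by norm_num)
    linarith
  have h20 : w * D * n' ≤ ε / 16 * n' := mul_le_mul_of_nonneg_right hwD hn'0
  have h21 : ε / 8 * n' ≤ ε / 8 * (n + 1) := mul_le_mul_of_nonneg_left hc2 (by linarith)
  rw [abs_le] at hm3 hnF ⊢
  obtain ⟨k1, k2⟩ := hm3
  obtain ⟨k3, k4⟩ := hnF
  constructor <;> linarith

end Pool.Agent.K1H73.LS
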