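import Pool.Agent.K1H73.LS.PatF
import Pool.Agent.K1H73.LS.Chi3

set_option autoImplicit false

/-!
# The system `X`, `X ^ 2 + X + 1`
-/

namespace Pool.Agent.K1H73.LS

open Polynomial Finset Filter
open Pool.Agent.K1H73.RDW
open Pool.Agent.W123.RU.Poly
open Pool.Agent.TH464.PW (quad quad_eval quad_irr quad_deg quad_lead)

/-- the two polynomials -/
noncomputable def f3 : Fin 2 → ℤ[X] := ![X, quad 1 1 1]

lemma f3_0 (m : ℤ) : (f3 0).eval m = m := by
  show (X : ℤ[X]).eval m = m
  exact eval_X

lemma f3_1 (m : ℤ) : (f3 1).eval m = m ^ 2 + m + 1 := by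
  show (quad 1 1 1).eval m = _
  rw [quad_eval]
  ring

theorem sys3 : Sys f3 := by
  have hD : ¬ IsSquare ((1 : ℤ) ^ 2 - 4 * 1 * 1) := by
    rintro ⟨x, hx⟩
    have := mul_self_nonneg x
    omega
  have hq : Irreducible (quad 1 1 1) :=
    quad_irr 1 1 1 one_ne_zero (fun p hp h => by
      have h1 : (p : ℤ) ∣ 1 := h.1
      have h2 : p ∣ 1 := by exact_mod_cast h1
      exact hp.one_lt.ne' (Nat.dvd_one.1 h2)) hD
  have hdq := quad_deg 1 1 1 one_ne_zero
  have hlq := quad_lead 1 1 1 one_ne_zero
  have hne : (X : ℤ[X]) ≠ quad 1 1 1 := by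
    intro h
    rw [← h, natDegree_X] at hdq
    omega
  constructor
  · intro i
    fin_cases i
    · exact irreducible_X
    · exact hq
  · intro i
    fin_cases i
    · show 0 < (X : ℤ[X]).natDegree
      simp
    · show 0 < (quad 1 1 1).natDegree
      rw [hdq]; norm_num
  · intro i
    fin_cases i
    · show 0 < (X : ℤ[X]).leadingCoeff
      simp
    · show 0 < (quad 1 1 1).leadingCoeff
      rw [hlq]; norm_num
  · intro i j hij
    fin_cases i <;> fin_cases j
    · rfl
    · exact absurd hij hne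
    · exact absurd hij.symm hne
    · rfl
  · intro p hp
    have h3 := rho3 hp
    have h4 : (if p % 3 = 1 then 3 else if p % 3 = 2 then 1 else 2) < p := by
      have h5 := hp.two_le
      split_ifs with h6 h7
      · have : p ≠ 3 := by omega
        have : p ≠ 1 := by omega
        omega
      · omega
      · have : p ≠ 2 := by
          rintro rfl
          omega
        omega
    rw [← h3] at h4
    by_contra hcon
    push Not at hcon
    have h5 : (range p).filter (fun x => p ∣ x * (x ^ 2 + x + 1)) = range p := by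
      apply Finset.filter_true_of_mem
      intro m _
      obtain ⟨i, hi⟩ := hcon m
      fin_cases i
      · have h6 : (p : ℤ) ∣ (f3 0).eval (m : ℤ) := hi
        rw [f3_0] at h6
        exact Dvd.dvd.mul_right (by exact_mod_cast h6) _
      · have h6 : (p : ℤ) ∣ (f3 1).eval (m : ℤ) := hi
        rw [f3_1] at h6
        apply Dvd.dvd.mul_left
        exact_mod_cast h6
    rw [h5, card_range] at h4
    exact lt_irrefl _ h4

lemma notr3 (i j : Fin 2) (t : ℕ) (ht : 1 ≤ t) : ¬ Associated (f3 i) ((f3 j).comp (X + C (t : ℤ))) := by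
  by_cases h : i = j
  · subst h
    exact no_self (sys3.deg i).ne' ht
  · intro ha
    have h1 := Polynomial.degree_eq_degree_of_associated ha
    have h2 : (f3 i).natDegree = ((f3 j).comp (X + C (t : ℤ))).natDegree := natDegree_eq_of_degree_eq h1
    rw [natDegree_comp, natDegree_X_add_C, mul_one] at h2
    have d0 : (f3 0).natDegree = 1 := natDegree_X
    have d1 : (f3 1).natDegree = 2 := quad_deg 1 1 1 one_ne_zero
    fin_cases i <;> fin_cases j
    · exact h rfl
    · have h3 : (f3 0).natDegree = (f3 1).natDegree := h2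
      omega
    · have h3 : (f3 1).natDegree = (f3 0).natDegree := h2
      omega
    · exact h rfl

lemma f3_iff {p : ℕ} (hp : p.Prime) (n : ℕ) : (∃ i, (p : ℤ) ∣ (f3 i).eval (n : ℤ)) ↔ p ∣ n * (n ^ 2 + n + 1) := by
  rw [hp.dvd_mul]
  constructor
  · rintro ⟨i, hi⟩
    fin_cases i
    · have h6 : (p : ℤ) ∣ (f3 0).eval (n : ℤ) := hi
      rw [f3_0] at h6
      exact Or.inl (by exact_mod_cast h6)
    · have h6 : (p : ℤ) ∣ (f3 1).eval (n : ℤ) := hi
      rw [f3_1] at h6
      exact Or.inr (by exact_mod_cast h6)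
  · rintro (h | h)
    · refine ⟨0, ?_⟩
      rw [f3_0]
      exact_mod_cast h
    · refine ⟨1, ?_⟩
      rw [f3_1]
      exact_mod_cast h

lemma om3 {l : ℕ} (hl : l.Prime) : om (GS f3) l = if l % 3 = 1 then 3 else if l % 3 = 2 then 1 else 2 := by
  rw [← rho3 hl]
  unfold om
  congr 1
  ext n
  rw [mem_filter, mem_filter, dvd_GS _ hl, f3_iff hl]

lemma GS3 (n : ℕ) : GS f3 n = ((n * (n ^ 2 + n + 1) : ℕ) : ℤ) := by
  unfold GS
  rw [Fin.prod_univ_two, f3_0, f3_1]
  push_cast
  ring

end Pool.Agent.K1H73.LS
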