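import Pool.Agent.K1H73.LS.Fm

set_option autoImplicit false

/-!
# The shifts `0, -s, n, n + t`
-/

namespace Pool.Agent.K1H73.LS

open Finset Filter
open Pool.Agent.R490.LZ
open Pool.Agent.K1H73.RDW

/-- the shifts -/
def Hs (n s t : ℤ) : Finset ℤ := {0, -s, n, n + t}

/-- the four numbers -/
def num (n s t : ℤ) (p : ℕ) (i : Fin 4) : ℤ := ![(p : ℤ), p + s, n - p, n - p + t] i

/-- two of the numbers `2` and `-2` without obstruction modulo three -/
def Ft (n s t : ℤ) : Prop := (s = 2 ∨ s = -2) ∧ (t = 2 ∨ t = -2) ∧ nu (Hs n s t) 3 < 3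

lemma num_dvd (n s t : ℤ) (p : ℕ) (l : ℤ) : (∀ i, ¬ l ∣ num n s t p i) ↔ ∀ h ∈ Hs n s t, ¬ l ∣ (p : ℤ) - h := by
  have e2 : n - (p : ℤ) = -((p : ℤ) - n) := by ring
  have e3 : n - (p : ℤ) + t = -((p : ℤ) - (n + t)) := by ring
  unfold Hs
  constructor
  · intro h0 h hh
    simp only [mem_insert, mem_singleton] at hh
    rcases hh with rfl | rfl | rfl | rfl
    · have := h0 0
      rw [sub_zero]
      exact this
    · have := h0 1
      rw [sub_neg_eq_add]
      exact this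
    · have h1 : ¬ l ∣ h - (p : ℤ) := h0 2
      rwa [e2, dvd_neg] at h1
    · have h1 : ¬ l ∣ n - (p : ℤ) + t := h0 3
      rwa [e3, dvd_neg] at h1
  · intro h0 i
    fin_cases i
    · have := h0 0 (by simp)
      rw [sub_zero] at this
      exact this
    · have := h0 (-s) (by simp)
      rw [sub_neg_eq_add] at this
      exact this
    · show ¬ l ∣ n - (p : ℤ)
      rw [e2, dvd_neg]
      exact h0 n (by simp)
    · show ¬ l ∣ n - (p : ℤ) + t
      rw [e3, dvd_neg]
      exact h0 (n + t) (by simp)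

lemma Hs_card {n s t : ℤ} (hn : 5 ≤ n) (h : Ft n s t) : (Hs n s t).card = 4 := by
  obtain ⟨h1, h2, _⟩ := h
  unfold Hs
  rw [card_insert_of_notMem, card_insert_of_notMem, card_insert_of_notMem, card_singleton]
  · rw [mem_singleton]
    rcases h2 with rfl | rfl <;> omega
  · rw [mem_insert, mem_singleton]
    rcases h1 with rfl | rfl <;> rcases h2 with rfl | rfl <;> omega
  · rw [mem_insert, mem_insert, mem_singleton]
    rcases h1 with rfl | rfl <;> rcases h2 with rfl | rfl <;> omega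

lemma nu_two {n s t : ℤ} (he : Even n) (h : Ft n s t) : nu (Hs n s t) 2 = 1 := by
  obtain ⟨h1, h2, _⟩ := h
  have h5 : (Hs n s t).image (fun h : ℤ => h % ((2 : ℕ) : ℤ)) = {0} := by
    apply Finset.eq_singleton_iff_unique_mem.2
    constructor
    · rw [mem_image]
      exact ⟨0, by simp [Hs], by simp⟩
    · intro x hx
      rw [mem_image] at hx
      obtain ⟨h, hh, rfl⟩ := hx
      unfold Hs at hh
      simp only [mem_insert, mem_singleton] at hh
      obtain ⟨u, hu⟩ := he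
      push_cast
      rcases h1 with rfl | rfl <;> rcases h2 with rfl | rfl <;> rcases hh with rfl | rfl | rfl | rfl <;> omega
  unfold nu
  rw [h5, card_singleton]

lemma nu_three {n s t : ℤ} (h : Ft n s t) : nu (Hs n s t) 3 = 2 := by
  obtain ⟨h1, h2, h3⟩ := h
  have h5 : ({0, (-s) % 3} : Finset ℤ) ⊆ (Hs n s t).image (fun h : ℤ => h % ((3 : ℕ) : ℤ)) := by
    intro x hx
    rw [mem_insert, mem_singleton] at hx
    rw [mem_image]
    rcases hx with rfl | rfl
    · exact ⟨0, by simp [Hs], by simp⟩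
    · exact ⟨-s, by simp [Hs], by simp⟩
  have h6 := card_le_card h5
  have h7 : ({0, (-s) % 3} : Finset ℤ).card = 2 := by
    rw [card_insert_of_notMem, card_singleton]
    rw [mem_singleton]
    rcases h1 with rfl | rfl <;> decide
  rw [h7] at h6
  unfold nu at h3 ⊢
  omega

lemma nu_lt {n s t : ℤ} (he : Even n) (h : Ft n s t) (p : ℕ) (hp : p.Prime) : nu (Hs n s t) p < p := by
  have h2 := nu_two he h
  have h3 := nu_three h
  have h4 : nu (Hs n s t) p ≤ 4 := card_image_le.trans (by unfold Hs; exact card_le_four)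
  rcases Nat.lt_or_ge 4 p with h6 | h6
  · omega
  · interval_cases p
    · exact absurd hp (by norm_num)
    · exact absurd hp (by norm_num)
    · omega
    · omega
    · exact absurd hp (by norm_num)

/-- the modulus -/
def ww (q : ℕ) : ℕ := (if 2 ∣ q then 1 else 2) * (if 3 ∣ q then 1 else 3)

lemma ww_spec (q : ℕ) : Squarefree (ww q) ∧ Nat.Coprime (ww q) q ∧ ww q ≤ 6 ∧ 1 ≤ ww q ∧ 6 ∣ q * ww q ∧
    ∀ p : ℕ, p.Prime → p ∣ ww q → p = 2 ∨ p = 3 := by
  unfold ww
  have c2 : ¬ 2 ∣ q → Nat.Coprime 2 q := fun h => (Nat.Prime.coprime_iff_not_dvd Nat.prime_two).2 h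
  have c3 : ¬ 3 ∣ q → Nat.Coprime 3 q := fun h => (Nat.Prime.coprime_iff_not_dvd Nat.prime_three).2 h
  split_ifs with h2 h3 h3
  · refine ⟨by norm_num, by norm_num, by norm_num, by norm_num, by omega, ?_⟩
    intro p hp hd
    rw [mul_one, Nat.dvd_one] at hd
    exact absurd hd hp.one_lt.ne'
  · refine ⟨by norm_num; exact Nat.prime_three.prime.squarefree, by simpa using c3 h3, by norm_num, by norm_num, by omega, ?_⟩
    intro p hp hd
    rw [one_mul] at hd
    exact Or.inr ((Nat.prime_dvd_prime_iff_eq hp Nat.prime_three).1 hd)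
  · refine ⟨by norm_num; exact Nat.prime_two.prime.squarefree, by simpa using c2 h2, by norm_num, by norm_num, by omega, ?_⟩
    intro p hp hd
    rw [mul_one] at hd
    exact Or.inl ((Nat.prime_dvd_prime_iff_eq hp Nat.prime_two).1 hd)
  · refine ⟨?_, Nat.Coprime.mul_left (c2 h2) (c3 h3), by norm_num, by norm_num, by omega, ?_⟩
    · rw [Nat.squarefree_mul (by norm_num)]
      exact ⟨Nat.prime_two.prime.squarefree, Nat.prime_three.prime.squarefree⟩
    · intro p hp hd
      rcases (Nat.Prime.dvd_mul hp).1 hd with h | h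
      · exact Or.inl ((Nat.prime_dvd_prime_iff_eq hp Nat.prime_two).1 h)
      · exact Or.inr ((Nat.prime_dvd_prime_iff_eq hp Nat.prime_three).1 h)

/-- the differences of the shifts -/
lemma dif {n s t : ℤ} (hf : Ft n s t) (M : ℤ) (h6 : 6 ∣ M) (h0 : 0 < M) (h1 : M < n - 4) :
    ∀ h ∈ Hs n s t, ∀ h' ∈ Hs n s t, h' - h ≠ M := by
  obtain ⟨hs, ht, _⟩ := hf
  obtain ⟨K, hK⟩ := h6
  intro h hh h' hh'
  unfold Hs at hh hh'
  simp only [mem_insert, mem_singleton] at hh hh'
  rcases hh with hh | hh | hh | hh <;> rcases hh' with hh' | hh' | hh' | hh' <;>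
    rcases hs with hs | hs <;> rcases ht with ht | ht <;> omega

theorem twin_one {n s t : ℤ} (he : Even n) (hf : Ft n s t) (q a : ℕ) :
    ∃ c : ℕ, One (fm q a (Hs n s t)) (ww q) c := by
  obtain ⟨h1, h2, _, _, _, h3⟩ := ww_spec q
  apply exists_one _ h1 h2
  intro p hp hpw
  rcases h3 p hp hpw with rfl | rfl
  · rw [nu_two he hf]
  · rw [nu_three hf]

theorem twin_good {n : ℕ} {s t : ℤ} (hn : 9 ≤ n) (he : Even (n : ℤ)) (hf : Ft n s t) {q a c : ℕ} (hq : 1 ≤ q)
    (hqn : q ≤ n) (han : a ≤ n) (hco : ∀ p : ℕ, p.Prime → p ∣ q → ∀ h ∈ Hs n s t, ¬ (p : ℤ) ∣ (a : ℤ) - h)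
    (hone : One (fm q a (Hs n s t)) (ww q) c) : Good (n ^ 2) (sb (ww q) c (fm q a (Hs n s t))) := by
  obtain ⟨_, _, hw6, _, _, _⟩ := ww_spec q
  have hc := hone.lt
  have hnn : n * 9 ≤ n ^ 2 := by nlinarith
  apply sb_good hone hq hco (fun p hp _ => nu_lt he hf p hp)
  · calc q * ww q ≤ n * 6 := Nat.mul_le_mul hqn hw6
      _ ≤ n ^ 2 := by omega
  · intro h hh
    have h1 : (q : ℤ) * c ≤ n * 5 := by
      have : q * c ≤ n * 5 := Nat.mul_le_mul hqn (by omega)
      exact_mod_cast this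
    have h2 : (0 : ℤ) ≤ (q : ℤ) * c := by positivity
    have h3 : ((n ^ 2 : ℕ) : ℤ) ≥ n * 9 := by exact_mod_cast hnn
    obtain ⟨hs, ht, _⟩ := hf
    unfold Hs at hh
    simp only [mem_insert, mem_singleton] at hh
    obtain ⟨N, hN⟩ : ∃ N : ℤ, N = ((n ^ 2 : ℕ) : ℤ) := ⟨_, rfl⟩
    obtain ⟨M, hM⟩ : ∃ M : ℤ, M = (q : ℤ) * c := ⟨_, rfl⟩
    rw [← hM] at h1 h2 ⊢
    rw [← hN] at h3 ⊢
    rw [abs_le]
    rcases hh with hh | hh | hh | hh <;> rcases hs with hs | hs <;> rcases ht with ht | ht <;> omega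

end Pool.Agent.K1H73.LS
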