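import Pool.Agent.K1H73.LS.Comp
import Pool.Agent.K1H73.RDW.AP

set_option autoImplicit false

/-!
# The density of a system of polynomials on the terms of a progression with a large modulus
-/

namespace Pool.Agent.K1H73.LS

open Polynomial Finset Filter
open Pool.Agent.K1H73.RDW Pool.Agent.Y816.PD
open Pool.Agent.W123.RP Pool.Agent.H373R2.T7 Pool.Agent.W123.RU Pool.Agent.W123.RU.Poly

/-- the factor of the modulus is small -/
theorem phi_up (κ0 C : ℕ) : ∃ M : ℝ, 0 < M ∧ ∀ᶠ X : ℕ in atTop, ∀ F : ℕ → ℤ, PF κ0 F → NF F → ∀ q : ℕ,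
    1 ≤ q → q ≤ X ^ C → Phi F q ≤ M * Real.log X := by
  classical
  obtain ⟨c, hc, hlow⟩ := WG_low κ0
  refine ⟨Real.exp (2 * κ0 * C) / c * 4, by positivity, ?_⟩
  have hT : Tendsto (fun X : ℕ => ⌈Real.log (X : ℝ)⌉₊) atTop atTop := by
    apply tendsto_nat_ceil_atTop.comp
    exact Real.tendsto_log_atTop.comp tendsto_natCast_atTop_atTop
  have hlogp := Pool.Agent.TH464.PW.logpow_rpow κ0 1 1 one_pos one_pos
  filter_upwards [hT.eventually hlogp, hT.eventually (eventually_ge_atTop (2 * κ0 + 4)), eventually_ge_atTop 3] with X h1 h2 h3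
  intro F hF hn q hq1 hqX
  obtain ⟨t, ht⟩ : ∃ t : ℕ, t = ⌈Real.log (X : ℝ)⌉₊ := ⟨_, rfl⟩
  rw [← ht] at h1 h2
  have hX3 : (3 : ℝ) ≤ X := by exact_mod_cast h3
  have hlX : 1 ≤ Real.log X := by
    rw [Real.le_log_iff_exp_le (by linarith)]
    have := Real.exp_one_lt_d9
    linarith
  have htl : Real.log X ≤ t := by rw [ht]; exact Nat.le_ceil _
  have htu : (t : ℝ) ≤ 2 * Real.log X := by
    rw [ht]
    have := (Nat.ceil_lt_add_one (by linarith : 0 ≤ Real.log (X : ℝ))).le
    linarith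
  have ht4 : (4 : ℝ) ≤ t := by exact_mod_cast (by omega : 4 ≤ t)
  have hlt : 1 ≤ Real.log t := by
    rw [Real.le_log_iff_exp_le (by linarith)]
    have := Real.exp_one_lt_d9
    linarith
  have e1 : Phi F q = (∏ p ∈ q.primeFactors.filter (fun p => p ≤ t), (1 - (om F p : ℝ) / p)⁻¹) *
      ∏ p ∈ q.primeFactors.filter (fun p => ¬ p ≤ t), (1 - (om F p : ℝ) / p)⁻¹ := by
    unfold Phi
    rw [prod_filter_mul_prod_filter_not]
  rw [e1]
  have hA : ∏ p ∈ q.primeFactors.filter (fun p => p ≤ t), (1 - (om F p : ℝ) / p)⁻¹ ≤ Real.log t ^ κ0 / c := by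
    have hsub : q.primeFactors.filter (fun p => p ≤ t) ⊆ (Icc 1 t).filter Nat.Prime := by
      intro p hp
      rw [mem_filter] at hp
      have hpp := Nat.prime_of_mem_primeFactors hp.1
      rw [mem_filter, mem_Icc]
      exact ⟨⟨hpp.pos, hp.2⟩, hpp⟩
    have h4 : ∏ p ∈ q.primeFactors.filter (fun p => p ≤ t), (1 - (om F p : ℝ) / p)⁻¹ ≤
        ∏ p ∈ (Icc 1 t).filter Nat.Prime, (1 - (om F p : ℝ) / p)⁻¹ := by
      rw [← prod_sdiff hsub]
      apply le_mul_of_one_le_left
      · apply prod_nonneg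
        intro p hp
        exact zero_le_one.trans (one_le_fac_inv hF hn (Nat.prime_of_mem_primeFactors (mem_filter.1 hp).1))
      · apply Finset.prod_induction _ (fun x : ℝ => 1 ≤ x) (fun a b ha hb => one_le_mul_of_one_le_of_one_le ha hb)
          le_rfl
        intro p hp
        rw [Finset.mem_sdiff, mem_filter] at hp
        exact one_le_fac_inv hF hn hp.1.2
    refine h4.trans ?_
    rw [prod_inv_distrib, ← WG_om]
    have h5 := hlow t (by omega) F hF hn
    have h6 : 0 < c / Real.log t ^ κ0 := by positivity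
    calc (WG F t)⁻¹ ≤ (c / Real.log t ^ κ0)⁻¹ := inv_anti₀ h6 h5
      _ = _ := by rw [inv_div]
  have hB : ∏ p ∈ q.primeFactors.filter (fun p => ¬ p ≤ t), (1 - (om F p : ℝ) / p)⁻¹ ≤ Real.exp (2 * κ0 * C) := by
    obtain ⟨S, hS⟩ : ∃ S, S = q.primeFactors.filter (fun p => ¬ p ≤ t) := ⟨_, rfl⟩
    rw [← hS]
    have hcard : (S.card : ℝ) ≤ C * t := by
      have h4 : ∏ p ∈ S, p ∣ q := by
        have h5 : S ⊆ q.primeFactors := by rw [hS]; exact filter_subset _ _
        exact (prod_dvd_prod_of_subset _ _ _ h5).trans (Nat.prod_primeFactors_dvd q)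
      have h5 : t ^ S.card ≤ ∏ p ∈ S, p := by
        rw [← prod_const]
        apply prod_le_prod'
        intro p hp
        rw [hS, mem_filter] at hp
        omega
      have h6 : t ^ S.card ≤ X ^ C := h5.trans ((Nat.le_of_dvd (by omega) h4).trans hqX)
      have h7 : Real.log ((t ^ S.card : ℕ) : ℝ) ≤ Real.log ((X ^ C : ℕ) : ℝ) := by
        apply Real.log_le_log
        · exact_mod_cast Nat.pow_pos (by omega)
        · exact_mod_cast h6
      push_cast at h7
      rw [Real.log_pow, Real.log_pow] at h7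
      calc (S.card : ℝ) = S.card * 1 := (mul_one _).symm
        _ ≤ S.card * Real.log t := mul_le_mul_of_nonneg_left hlt (Nat.cast_nonneg _)
        _ ≤ C * Real.log X := h7
        _ ≤ C * t := mul_le_mul_of_nonneg_left htl (Nat.cast_nonneg _)
    have hfac : ∀ p ∈ S, (1 - (om F p : ℝ) / p)⁻¹ ≤ Real.exp (2 * κ0 / t) := by
      intro p hp
      rw [hS, mem_filter] at hp
      have hpp := Nat.prime_of_mem_primeFactors hp.1
      have hpt : (t : ℝ) ≤ p := by exact_mod_cast (by omega : t ≤ p)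
      have hp0 : (0 : ℝ) < p := by linarith
      have h4 : (om F p : ℝ) ≤ κ0 := by exact_mod_cast om_le hF hn hpp
      obtain ⟨x, hx⟩ : ∃ x : ℝ, x = (om F p : ℝ) / p := ⟨_, rfl⟩
      have hx0 : 0 ≤ x := by rw [hx]; positivity
      have hxt : x ≤ κ0 / t := by
        rw [hx]
        calc (om F p : ℝ) / p ≤ κ0 / p := div_le_div_of_nonneg_right h4 hp0.le
          _ ≤ κ0 / t := div_le_div_of_nonneg_left (Nat.cast_nonneg _) (by linarith) hpt
      have hxh : x ≤ 1 / 2 := by
        refine hxt.trans ?_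
        rw [div_le_div_iff₀ (by linarith) (by norm_num)]
        have : (2 * κ0 + 4 : ℝ) ≤ t := by exact_mod_cast h2
        linarith
      rw [← hx]
      have h5 : (1 - x)⁻¹ ≤ 1 + 2 * x := by
        rw [inv_le_comm₀ (by linarith) (by linarith), inv_eq_one_div, div_le_iff₀ (by linarith)]
        nlinarith
      refine h5.trans ?_
      have h6 := Real.add_one_le_exp (2 * x)
      refine le_trans (by linarith) (h6.trans ?_)
      apply Real.exp_le_exp.2
      rw [mul_div_assoc]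
      linarith
    calc ∏ p ∈ S, (1 - (om F p : ℝ) / p)⁻¹ ≤ ∏ p ∈ S, Real.exp (2 * κ0 / t) := by
          apply Finset.prod_le_prod
          · intro p hp
            rw [hS, mem_filter] at hp
            exact zero_le_one.trans (one_le_fac_inv hF hn (Nat.prime_of_mem_primeFactors hp.1))
          · exact hfac
      _ = Real.exp (S.card * (2 * κ0 / t)) := by rw [prod_const, ← Real.exp_nat_mul]
      _ ≤ Real.exp (2 * κ0 * C) := by
          apply Real.exp_le_exp.2
          have ht0 : (0 : ℝ) < t := by linarith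
          calc (S.card : ℝ) * (2 * κ0 / t) ≤ (C * t) * (2 * κ0 / t) :=
                mul_le_mul_of_nonneg_right hcard (by positivity)
            _ = _ := by field_simp
  have hpos : 0 ≤ ∏ p ∈ q.primeFactors.filter (fun p => ¬ p ≤ t), (1 - (om F p : ℝ) / p)⁻¹ := by
    apply prod_nonneg
    intro p hp
    exact zero_le_one.trans (one_le_fac_inv hF hn (Nat.prime_of_mem_primeFactors (mem_filter.1 hp).1))
  rw [one_mul, Real.rpow_one] at h1
  calc _ ≤ (Real.log t ^ κ0 / c) * Real.exp (2 * κ0 * C) := mul_le_mul hA hB hpos (by positivity)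
    _ ≤ ((2 * Real.log X) / c) * Real.exp (2 * κ0 * C) := by
        apply mul_le_mul_of_nonneg_right _ (Real.exp_pos _).le
        apply div_le_div_of_nonneg_right _ hc.le
        exact h1.trans htu
    _ ≤ Real.exp (2 * κ0 * C) / c * 4 * Real.log X := by
        have h8 : 0 ≤ Real.exp (2 * κ0 * C) / c * Real.log X := by positivity
        have e2 : ((2 * Real.log X) / c) * Real.exp (2 * κ0 * C) = 2 * (Real.exp (2 * κ0 * C) / c * Real.log X) := by
          ring
        have e3 : Real.exp (2 * κ0 * C) / c * 4 * Real.log X = 4 * (Real.exp (2 * κ0 * C) / c * Real.log X) := by ring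
        rw [e2, e3]
        linarith

variable {k : ℕ} {f : Fin k → ℤ[X]} {q b : ℕ}

lemma GS_sq (m : ℕ) : GS (sq q b f) m = GS f (b + q * m) := by
  unfold GS sq
  apply Finset.prod_congr rfl
  intro i _
  rw [cq_eval, add_comm b]

/-- the number of the classes with zeros in the progression -/
lemma nuB_sq {l : ℕ} (hl : l.Prime) (hco : l ∣ q → ∀ i, ¬ (l : ℤ) ∣ (f i).eval (b : ℤ)) :
    nuB (Q (sq q b f)) l = if l ∣ q then 0 else om (GS f) l := by
  classical
  have e : nuB (Q (sq q b f)) l = om (fun m => GS f (b + q * m)) l := by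
    unfold nuB om
    congr 1
    ext m
    rw [mem_filter, mem_filter]
    apply and_congr_right
    intro _
    show Q (sq q b f) l m ↔ (l : ℤ) ∣ GS f (b + q * m)
    rw [← GS_sq, dvd_GS _ hl]
    rfl
  rw [e]
  split_ifs with h
  · apply om_affine' (PF_GS f) h
    intro hd
    rw [dvd_GS f hl] at hd
    obtain ⟨i, hi⟩ := hd
    exact hco h i hi
  · rw [om_affine (PF_GS f) b hl h]

/-- **The upper bound for the density in the progression.** -/
theorem V_prog (f : Fin k → ℤ[X]) (hf : Sys f) (hk : 2 ≤ k) (C r : ℕ) (hr : 1 ≤ r) : ∃ M : ℝ, 0 < M ∧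
    ∀ᶠ X : ℕ in atTop, ∀ q b : ℕ, 1 ≤ q → q ≤ X ^ C → IsCoprime (GS f b) (q : ℤ) →
      Vq (Q (sq q b f)) ⌊(X : ℝ) ^ (1 / (r : ℝ))⌋₊ ≤ M / Real.log X := by
  classical
  obtain ⟨v, Cv, hv, hCv, hV⟩ := Pool.Agent.W123.RU.Poly.V_bounds f hf
  obtain ⟨u, hu, hAff⟩ := WG_affine (∏ i, f i).natDegree (2 * r * C)
  obtain ⟨M, hM, hPhi⟩ := phi_up (∏ i, f i).natDegree C
  refine ⟨M * (Cv * (2 * r) ^ k), by positivity, ?_⟩
  have hyb : ∀ᶠ X : ℕ in atTop, ((2 * (∏ i, f i).natDegree + 4 : ℕ) : ℝ) ≤ (X : ℝ) ^ (1 / (r : ℝ)) :=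
    ((tendsto_rpow_atTop (by positivity)).comp tendsto_natCast_atTop_atTop).eventually_ge_atTop _
  filter_upwards [hPhi, hyb, eventually_ge_atTop 3] with X h1 h2 h3
  intro q b hq1 hqX hco
  obtain ⟨y, hy⟩ : ∃ y, y = ⌊(X : ℝ) ^ (1 / (r : ℝ))⌋₊ := ⟨_, rfl⟩
  rw [← hy]
  have hy4 : 2 * (∏ i, f i).natDegree + 4 ≤ y := by
    rw [hy]
    exact Nat.le_floor h2
  have hX3 : (3 : ℝ) ≤ X := by exact_mod_cast h3
  have hlX : 1 ≤ Real.log X := by
    rw [Real.le_log_iff_exp_le (by linarith)]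
    have := Real.exp_one_lt_d9
    linarith
  have hrR : (0 : ℝ) < r := by exact_mod_cast hr
  -- `X ≤ y ^ (2 r)`
  have hXy : X ≤ y ^ (2 * r) := by
    have h4 : (X : ℝ) ^ (1 / (r : ℝ)) ≤ ((y ^ 2 : ℕ) : ℝ) := by
      have h5 : (X : ℝ) ^ (1 / (r : ℝ)) < y + 1 := by rw [hy]; exact Nat.lt_floor_add_one _
      have h6 : y + 1 ≤ y ^ 2 := by nlinarith
      have h7 : ((y + 1 : ℕ) : ℝ) ≤ ((y ^ 2 : ℕ) : ℝ) := by exact_mod_cast h6
      push_cast at h7 ⊢
      linarith
    have h5 : ((X : ℝ) ^ (1 / (r : ℝ))) ^ r ≤ ((y ^ 2 : ℕ) : ℝ) ^ r :=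
      pow_le_pow_left₀ (by positivity) h4 r
    rw [← Real.rpow_natCast, ← Real.rpow_mul (Nat.cast_nonneg X), one_div, inv_mul_cancel₀ hrR.ne',
      Real.rpow_one] at h5
    have h6 : X ≤ (y ^ 2) ^ r := by exact_mod_cast h5
    rwa [← pow_mul] at h6
  have hly : Real.log X ≤ 2 * r * Real.log y := by
    have h4 : Real.log X ≤ Real.log ((y ^ (2 * r) : ℕ) : ℝ) :=
      Real.log_le_log (by linarith) (by exact_mod_cast hXy)
    push_cast at h4
    rw [Real.log_pow] at h4
    push_cast at h4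
    exact h4
  have hly0 : 0 < Real.log y := by
    by_contra hcon
    push Not at hcon
    have : 2 * (r : ℝ) * Real.log y ≤ 0 := mul_nonpos_of_nonneg_of_nonpos (by positivity) hcon
    linarith
  have e1 : Vq (Q (sq q b f)) y = WG (fun m => GS f (b + q * m)) y := by
    rw [← WG_GS]
    congr 1
    funext m
    exact GS_sq m
  rw [e1]
  have hA := (hAff (GS f) (PF_GS f) (NF_GS hf) y (by omega) b q hq1 (by
    refine hqX.trans ?_
    calc X ^ C ≤ (y ^ (2 * r)) ^ C := Nat.pow_le_pow_left hXy C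
      _ = y ^ (2 * r * C) := by rw [← pow_mul]) hco).2
  have hP := h1 (GS f) (PF_GS f) (NF_GS hf) q hq1 hqX
  have hVy := (hV y (by omega)).2
  rw [← WG_GS, Fintype.card_fin] at hVy
  have hW0 := WG_nonneg (GS f) y
  have hk' : Real.log X ^ k ≤ (2 * r) ^ k * Real.log y ^ k := by
    rw [← mul_pow]
    exact pow_le_pow_left₀ (by linarith) hly k
  calc WG (fun m => GS f (b + q * m)) y ≤ Phi (GS f) q * WG (GS f) y := hA
    _ ≤ (M * Real.log X) * (Cv / Real.log y ^ k) := mul_le_mul hP hVy hW0 (by positivity)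
    _ ≤ (M * Real.log X) * (Cv * (2 * r) ^ k / Real.log X ^ k) := by
        apply mul_le_mul_of_nonneg_left _ (by positivity)
        rw [div_le_div_iff₀ (by positivity) (by positivity)]
        calc Cv * Real.log X ^ k ≤ Cv * ((2 * r) ^ k * Real.log y ^ k) := mul_le_mul_of_nonneg_left hk' hCv.le
          _ = _ := by ring
    _ ≤ M * (Cv * (2 * r) ^ k) / Real.log X := by
        have h5 : Real.log X ^ 2 ≤ Real.log X ^ k := pow_le_pow_right₀ hlX hk
        rw [mul_div_assoc', div_le_div_iff₀ (by positivity) (by linarith)]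
        calc M * Real.log X * (Cv * (2 * r) ^ k) * Real.log X = M * (Cv * (2 * r) ^ k) * Real.log X ^ 2 := by ring
          _ ≤ M * (Cv * (2 * r) ^ k) * Real.log X ^ k := mul_le_mul_of_nonneg_left h5 (by positivity)

end Pool.Agent.K1H73.LS
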